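import Pool.Agent.H60.NM.Row

set_option autoImplicit false

/-!
# Averaging over the positions with an error term

The end of the proof of `P_step` (`Transp.lean`) with an error: if the sums of squares of the
class sizes are at most `m^2 + W K h` at every non-constant position and the deficiency is at
most `h`, then `m` is at most of order `h`.
-/

open Finset Equiv Pool.H60.Transp

namespace Pool.H60.NM

variable {n : ℕ}

theorem avg_err {k : ℕ} (hk : 1 ≤ k) (A : Finset (Perm (Fin n))) {W h : ℝ}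
    (hW : 0 ≤ W) (hh : 0 ≤ h) (hN : k + 2 ≤ (N A).card)
    (hU : ∀ p ∈ N A, ((k : ℝ) + 1) * ∑ v, ((A.filter (fun σ => σ p = v)).card : ℝ) ^ 2
      ≤ (A.card : ℝ) ^ 2 + W * (((k + 1).factorial : ℕ) * h))
    (hdf : df (k + 1) A ≤ h)
    (h2m : 2 * (A.card : ℝ) ≤ (k + 1) * ((k + 1).factorial : ℕ))
    (hbig : h * ((k + 2) * (W + 1)) < A.card) : False := by
  set K : ℝ := (((k + 1).factorial : ℕ) : ℝ) with hK
  set c : ℝ := ((k.choose 2 : ℕ) : ℝ) with hc
  set m : ℝ := (A.card : ℝ) with hm
  set n' : ℝ := ((N A).card : ℝ) with hn'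
  have hKpos : 0 < K := by rw [hK]; exact_mod_cast Nat.factorial_pos _
  have hn2 : (k : ℝ) + 2 ≤ n' := by rw [hn']; exact_mod_cast hN
  have hk1 : (1 : ℝ) ≤ k := by exact_mod_cast hk
  have hc2 : c = k * (k - 1) / 2 := choose_two_real k
  have hm0 : 0 < m := by
    refine lt_of_le_of_lt ?_ hbig
    positivity
  have hnot' : m ^ 2 + K * (c + k - 1) * m - K * h ≤ K * D A := by
    have h9 := mul_le_mul_of_nonneg_left hdf hKpos.le
    rw [hK, mul_df, choose_succ_two] at h9
    rw [hK]
    linarith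
  -- averaging
  have hav : ∑ p ∈ N A, ∑ v, (D (A.filter (fun σ => σ p = v)) : ℝ) + 2 * D A = n' * D A := by
    rw [hn']
    exact_mod_cast averaging A
  have hPk : ∀ C : Finset (Perm (Fin n)),
      K * D C ≤ (k + 1) * (C.card : ℝ) ^ 2 + K * (c - 1) * C.card := by
    intro C
    have h := P_all k hk C
    unfold P at h
    have h2 := mul_le_mul_of_nonneg_left h (by positivity : (0 : ℝ) ≤ (k : ℝ) + 1)
    rw [hK, factorial_succ_real]
    simp only [hc]
    linarith
  have hcl : ∀ p, K * ∑ v, (D (A.filter (fun σ => σ p = v)) : ℝ)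
      ≤ (k + 1) * ∑ v, ((A.filter (fun σ => σ p = v)).card : ℝ) ^ 2 + K * (c - 1) * m := by
    intro p
    have h1 : K * ∑ v, (D (A.filter (fun σ => σ p = v)) : ℝ)
        ≤ ∑ v, ((k + 1) * ((A.filter (fun σ => σ p = v)).card : ℝ) ^ 2
          + K * (c - 1) * (A.filter (fun σ => σ p = v)).card) := by
      rw [Finset.mul_sum]
      exact Finset.sum_le_sum (fun v _ => hPk _)
    rw [Finset.sum_add_distrib, ← Finset.mul_sum, ← Finset.mul_sum, sum_class_card] at h1
    exact h1
  have h1 : (n' - 2) * (K * D A) ≤ n' * (m ^ 2 + W * (K * h) + K * (c - 1) * m) := by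
    have h1 : ∑ p ∈ N A, K * ∑ v, (D (A.filter (fun σ => σ p = v)) : ℝ)
        ≤ ∑ p ∈ N A, (m ^ 2 + W * (K * h) + K * (c - 1) * m) := by
      apply Finset.sum_le_sum
      intro p hp
      have := hcl p
      have := hU p hp
      linarith
    rw [← Finset.mul_sum, Finset.sum_const, nsmul_eq_mul] at h1
    have h2 : ∑ p ∈ N A, ∑ v, (D (A.filter (fun σ => σ p = v)) : ℝ) = (n' - 2) * D A := by
      linarith
    rw [h2] at h1
    linarith
  have hn'2 : 0 < n' - 2 := by linarith
  have h3 : (n' - 2) * (m ^ 2 + K * (c + k - 1) * m - K * h)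
      ≤ n' * (m ^ 2 + W * (K * h) + K * (c - 1) * m) :=
    le_trans (mul_le_mul_of_nonneg_left hnot' hn'2.le) h1
  have hh' : h * ((k + 2) * (W + 1)) ≤ m := hbig.le
  by_cases hA1 : (N A).card = k + 2
  · have hn3 : n' = k + 2 := by rw [hn', hA1]; push_cast; ring
    rw [hn3] at h3
    have h4 : m * ((k + 2) * K - 2 * m) ≤ K * (h * ((k + 2) * (W + 1) - 2)) := by
      have e : ((k : ℝ) + 2 - 2) * (m ^ 2 + K * (c + k - 1) * m - K * h)
          - (k + 2) * (m ^ 2 + W * (K * h) + K * (c - 1) * m)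
          = m * ((k + 2) * K - 2 * m) - K * (h * ((k + 2) * (W + 1) - 2)) := by
        rw [hc2]; ring
      linarith
    have h5 : m * K ≤ m * ((k + 2) * K - 2 * m) := by
      apply mul_le_mul_of_nonneg_left _ hm0.le
      linarith
    have h6 : h * ((k + 2) * (W + 1) - 2) < m := by
      have : h * ((k + 2) * (W + 1) - 2) ≤ h * ((k + 2) * (W + 1)) :=
        mul_le_mul_of_nonneg_left (by linarith) hh
      linarith
    have h7 := mul_lt_mul_of_pos_left h6 hKpos
    linarith
  · have hn3 : (k : ℝ) + 3 ≤ n' := by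
      have : k + 3 ≤ (N A).card := by omega
      rw [hn']; exact_mod_cast this
    have h4 : m * (2 * ((k + 1) * K - m) + k * K * (n' - (k + 3)))
        ≤ K * (h * (n' * (W + 1) - 2)) := by
      have e : (n' - 2) * (m ^ 2 + K * (c + k - 1) * m - K * h)
          - n' * (m ^ 2 + W * (K * h) + K * (c - 1) * m)
          = m * (2 * ((k + 1) * K - m) + k * K * (n' - (k + 3)))
            - K * (h * (n' * (W + 1) - 2)) := by
        rw [hc2]; ring
      linarith
    have h5 : K * (m * ((k + 1) + k * (n' - (k + 3))))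
        ≤ m * (2 * ((k + 1) * K - m) + k * K * (n' - (k + 3))) := by
      have : K * ((k + 1) + k * (n' - (k + 3)))
          ≤ 2 * ((k + 1) * K - m) + k * K * (n' - (k + 3)) := by linarith
      calc K * (m * ((k + 1) + k * (n' - (k + 3))))
          = m * (K * ((k + 1) + k * (n' - (k + 3)))) := by ring
        _ ≤ _ := mul_le_mul_of_nonneg_left this hm0.le
    have h6 : m * ((k + 1) + k * (n' - (k + 3))) ≤ h * (n' * (W + 1) - 2) :=
      le_of_mul_le_mul_left (le_trans h5 h4) hKpos
    -- multiply by `k + 2`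
    have h7 : (k + 2) * (m * ((k + 1) + k * (n' - (k + 3)))) ≤ n' * m := by
      have h8 : (k + 2) * (m * ((k + 1) + k * (n' - (k + 3))))
          ≤ (k + 2) * (h * (n' * (W + 1) - 2)) := mul_le_mul_of_nonneg_left h6 (by linarith)
      have h9 : (k + 2) * (h * (n' * (W + 1) - 2)) ≤ n' * (h * ((k + 2) * (W + 1))) := by
        nlinarith [mul_nonneg hh (by linarith : (0 : ℝ) ≤ (k : ℝ) + 2)]
      have h10 : n' * (h * ((k + 2) * (W + 1))) ≤ n' * m :=
        mul_le_mul_of_nonneg_left hh' (by linarith)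
      linarith
    have h8 : (k + 2) * ((k + 1) + k * (n' - (k + 3))) ≤ n' := by
      have : m * ((k + 2) * ((k + 1) + k * (n' - (k + 3)))) ≤ m * n' := by linarith
      exact le_of_mul_le_mul_left this hm0
    nlinarith [mul_nonneg (by linarith : (0 : ℝ) ≤ (k : ℝ)) (by linarith : (0 : ℝ) ≤ n' - (k + 3)),
      mul_nonneg (by positivity : (0 : ℝ) ≤ (k : ℝ) * (k + 1)) (by linarith : (0 : ℝ) ≤ n' - (k + 3))]

end Pool.H60.NM
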