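import Pool.Agent.H60.NM.Step

set_option autoImplicit false

/-!
# All sizes up to 24

Every set of at most 24 permutations (of any number of elements) has at most as many edges as the
lexicographic initial segment. Classes, splitting and averaging, with a finite check.
-/

open Finset Equiv Pool.H60.Transp

namespace Pool.H60.NM

/-- the numbers of edges of the initial segments of `S_4` -/
def T24 (m : ℕ) : ℕ :=
  [0, 0, 1, 2, 4, 6, 9, 10, 12, 14, 17, 20, 24, 26, 29, 32, 36, 40, 45, 48, 52, 56, 61, 66,
    72].getD m 0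

lemma Ef_four : ∀ m ≤ 24, Ef 4 m = T24 m := by decide

lemma T24_split : ∀ a ≤ 24, 6 ≤ a → ∀ b ≤ 24, a + b ≤ 24 →
    T24 a + T24 b + b ≤ T24 (a + b) := by decide

lemma T24_compl : ∀ m ≤ 24, 2 * T24 (24 - m) + 12 * m = 144 + 2 * T24 m := by decide

variable {n : ℕ}

lemma avg_q {A : Finset (Perm (Fin n))} {w q : ℕ} (hq : q ≤ (N A).card)
    (hW : ∀ p ∈ N A, ∑ v, D (A.filter (fun σ => σ p = v)) ≤ w) :
    q * D A ≤ q * w + 2 * D A := by
  rcases le_total (D A) w with hw | hw
  · have := Nat.mul_le_mul_left q hw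
    omega
  have h1 := averaging A
  have h2 : ∑ p ∈ N A, ∑ v, D (A.filter (fun σ => σ p = v)) ≤ (N A).card * w := by
    rw [← smul_eq_mul, ← Finset.sum_const]
    exact Finset.sum_le_sum hW
  obtain ⟨x, hx⟩ := Nat.exists_eq_add_of_le hw
  have h3 : (N A).card * D A ≤ (N A).card * w + 2 * D A := by omega
  have h4 : (N A).card * D A = (N A).card * w + (N A).card * x := by rw [hx]; ring
  have h5 : (N A).card * x ≤ 2 * D A := by omega
  have h6 : q * x ≤ (N A).card * x := Nat.mul_le_mul_right _ hq
  have h7 : q * D A = q * w + q * x := by rw [hx]; ring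
  omega

/-- linear bounds for the classes -/
lemma sum_lin {A : Finset (Perm (Fin n))} {p v₀ : Fin n} {α β c : ℕ}
    (h : ∀ v, β * D (A.filter (fun σ => σ p = v))
      ≤ α * (A.filter (fun σ => σ p = v)).card + (if v = v₀ then c else 0)) :
    β * ∑ v, D (A.filter (fun σ => σ p = v)) ≤ α * A.card + c := by
  have h1 : ∑ v, (A.filter (fun σ => σ p = v)).card = A.card :=
    (Finset.card_eq_sum_card_fiberwise (s := A) (t := univ) (f := fun σ => σ p)
      (fun _ _ => Finset.mem_coe.2 (Finset.mem_univ _))).symm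
  calc β * ∑ v, D (A.filter (fun σ => σ p = v))
      = ∑ v, β * D (A.filter (fun σ => σ p = v)) := by rw [Finset.mul_sum]
    _ ≤ ∑ v, (α * (A.filter (fun σ => σ p = v)).card + (if v = v₀ then c else 0)) :=
        Finset.sum_le_sum (fun v _ => h v)
    _ = α * A.card + c := by
        rw [Finset.sum_add_distrib, ← Finset.mul_sum, h1, Finset.sum_ite_eq' univ v₀]
        simp

/-- sizes at most 6 -/
lemma exact6 (A : Finset (Perm (Fin n))) (h : A.card ≤ 6) : D A ≤ 2 * T24 A.card := by
  have h1 := P_nat 2 (by norm_num) A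
  have e1 : (2 : ℕ).factorial = 2 := rfl
  have e2 : (2 : ℕ).choose 2 = 1 := rfl
  rw [e1, e2] at h1
  generalize A.card = m at *
  interval_cases m <;> simp [T24] at * <;> omega

theorem core (A : Finset (Perm (Fin n))) (h7 : 7 ≤ A.card) (h24 : A.card ≤ 24)
    (IH : ∀ B : Finset (Perm (Fin n)), B.card < A.card → D B ≤ 2 * T24 B.card) :
    D A ≤ 2 * T24 A.card := by
  by_contra hbad
  push Not at hbad
  -- level 3
  have h3 := P_nat 3 (by norm_num) A
  have e1 : (3 : ℕ).factorial = 6 := rfl
  have e2 : (3 : ℕ).choose 2 = 3 := rfl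
  rw [e1, e2] at h3
  have hApos : 0 < A.card := by omega
  obtain ⟨σ₀, hσ₀⟩ := Finset.card_pos.1 hApos
  -- at least 4 positions
  have hN4 : 4 ≤ (N A).card := by
    by_contra h
    have h1 := card_le_factorial A
    have h2 : ((N A).card).factorial ≤ (3 : ℕ).factorial := Nat.factorial_le (by omega)
    rw [e1] at h2
    omega
  have hN5 : 12 < A.card → 5 ≤ (N A).card := by
    intro h12
    by_contra h
    have hN : (N A).card = 4 := by omega
    have hsub := subset_coset hσ₀
    have h1 := D_compl (N A) σ₀ hsub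
    have e4 : (4 : ℕ).factorial = 24 := rfl
    have e5 : (4 : ℕ).choose 2 = 6 := rfl
    have h2 : (coset (N A) σ₀ \ A).card = 24 - A.card := by
      rw [Finset.card_sdiff_of_subset hsub, card_coset, hN, e4]
    have h3 := IH (coset (N A) σ₀ \ A) (by omega)
    rw [hN, e5, h2] at h1
    rw [h2] at h3
    have h4 := T24_compl A.card h24
    omega
  -- the splitting
  have hsplit : ∀ p ∈ N A, ∀ v, D A ≤ 2 * T24 (A.filter (fun σ => σ p = v)).card
      + 2 * T24 (A.card - (A.filter (fun σ => σ p = v)).card)
      + 2 * (A.card - (A.filter (fun σ => σ p = v)).card) ∨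
      (A.filter (fun σ => σ p = v)).card = 0 := by
    intro p hp v
    by_cases h0 : (A.filter (fun σ => σ p = v)).card = 0
    · exact Or.inr h0
    · left
      have h1 := D_split A p v
      have h2 := rest_pos hp v
      have h3 := Finset.card_filter_add_card_filter_not (s := A) (fun σ => σ p = v)
      have h4 := IH (A.filter (fun σ => σ p = v)) (by omega)
      have h5 := IH (A.filter (fun σ => ¬ σ p = v)) (by omega)
      have h6 : A.card - (A.filter (fun σ => σ p = v)).card
          = (A.filter (fun σ => ¬ σ p = v)).card := by omega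
      rw [h6]
      omega
  have hIHc : ∀ p ∈ N A, ∀ v, D (A.filter (fun σ => σ p = v))
      ≤ 2 * T24 (A.filter (fun σ => σ p = v)).card := by
    intro p hp v
    have h2 := rest_pos hp v
    have h3 := Finset.card_filter_add_card_filter_not (s := A) (fun σ => σ p = v)
    exact IH _ (by omega)
  have hle : ∀ p ∈ N A, ∀ v, (A.filter (fun σ => σ p = v)).card ≤ 5 := by
    intro p hp v
    by_contra h
    have h1 := hsplit p hp v
    have h3 : (A.filter (fun σ => σ p = v)).card ≤ A.card := Finset.card_filter_le _ _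
    have h2 := T24_split _ (le_trans h3 h24) (by omega)
      (A.card - (A.filter (fun σ => σ p = v)).card) (by omega) (by omega)
    rw [Nat.add_sub_cancel' h3] at h2
    omega
  -- the double splitting
  have hsplit2 : ∀ p ∈ N A, ∀ v v', v ≠ v' → 4 ≤ (A.filter (fun σ => σ p = v)).card →
      4 ≤ (A.filter (fun σ => σ p = v')).card →
      (A.filter (fun σ => σ p = v)).card + (A.filter (fun σ => σ p = v')).card ≤ A.card ∧
      D A ≤ 2 * T24 (A.filter (fun σ => σ p = v)).card
      + 2 * T24 (A.filter (fun σ => σ p = v')).card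
      + 2 * T24 (A.card - (A.filter (fun σ => σ p = v)).card
        - (A.filter (fun σ => σ p = v')).card)
      + 2 * (A.card - (A.filter (fun σ => σ p = v)).card)
      + 2 * (A.card - (A.filter (fun σ => σ p = v)).card
        - (A.filter (fun σ => σ p = v')).card) := by
    intro p hp v v' hvv h4 h4'
    have h1 := D_split A p v
    have h2 := rest_pos hp v
    have h3 := Finset.card_filter_add_card_filter_not (s := A) (fun σ => σ p = v)
    have hB := IH (A.filter (fun σ => σ p = v)) (by omega)
    have hB' := hIHc p hp v'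
    set R := A.filter (fun σ => ¬ σ p = v) with hR
    have h5 := D_split R p v'
    have e3 : R.filter (fun σ => σ p = v') = A.filter (fun σ => σ p = v') := by
      ext σ
      simp only [hR, mem_filter]
      constructor
      · rintro ⟨⟨h1, h2⟩, h3⟩; exact ⟨h1, h3⟩
      · rintro ⟨h1, h3⟩
        exact ⟨⟨h1, fun h => hvv (h.symm.trans h3)⟩, h3⟩
    have h6 := Finset.card_filter_add_card_filter_not (s := R) (fun σ => σ p = v')
    rw [e3] at h5 h6
    have h7 := IH (R.filter (fun σ => ¬ σ p = v')) (by omega)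
    have h8 : A.card - (A.filter (fun σ => σ p = v)).card
        - (A.filter (fun σ => σ p = v')).card = (R.filter (fun σ => ¬ σ p = v')).card := by
      omega
    have h9 : A.card - (A.filter (fun σ => σ p = v)).card = R.card := by omega
    rw [h8, h9]
    omega
  generalize hm : A.card = m at *
  -- one class of size at least 4
  have hone : ∀ (c β α : ℕ), (∀ x ≤ 3, β * (2 * T24 x) ≤ α * x) →
      (∀ x ≤ 5, β * (2 * T24 x) ≤ α * x + c ∨ m ≤ 10 ∧ x = 5) →
      (m ≤ 10 → ∀ p ∈ N A, ∀ v, (A.filter (fun σ => σ p = v)).card ≤ 4) →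
      (∀ p ∈ N A, ∀ v v', v ≠ v' → 4 ≤ (A.filter (fun σ => σ p = v)).card →
        ¬ 4 ≤ (A.filter (fun σ => σ p = v')).card) →
      ∀ p ∈ N A, β * ∑ v, D (A.filter (fun σ => σ p = v)) ≤ α * m + c := by
    intro c β α hx3 hx5 h10 huniq p hp
    by_cases hex : ∃ v, 4 ≤ (A.filter (fun σ => σ p = v)).card
    · obtain ⟨v₀, hv₀⟩ := hex
      rw [← hm]
      apply sum_lin (v₀ := v₀)
      intro v
      have h1 := Nat.mul_le_mul_left β (hIHc p hp v)
      by_cases hv : v = v₀
      · rw [if_pos hv]
        have h2 := hle p hp v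
        rcases hx5 _ h2 with h3 | ⟨h3, h4⟩
        · omega
        · have := h10 h3 p hp v
          omega
      · rw [if_neg hv]
        have h2 := huniq p hp v₀ v (Ne.symm hv) hv₀
        have h3 := hx3 (A.filter (fun σ => σ p = v)).card (by omega)
        omega
    · push Not at hex
      rw [← hm]
      refine le_trans (sum_lin (v₀ := p) (c := 0) (α := α) ?_) (by omega)
      intro v
      have h1 := Nat.mul_le_mul_left β (hIHc p hp v)
      have h2 := hex v
      have h3 := hx3 (A.filter (fun σ => σ p = v)).card (by omega)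
      split_ifs <;> omega
  -- the bound of the classes
  have hcl : ∀ amax : ℕ, (∀ x ≤ 5, x ≤ amax ∨
      2 * T24 x + 2 * T24 (m - x) + 2 * (m - x) ≤ 2 * T24 m) →
      ∀ p ∈ N A, ∀ v, (A.filter (fun σ => σ p = v)).card ≤ amax := by
    intro amax hx p hp v
    rcases hx _ (hle p hp v) with h1 | h1
    · exact h1
    · rcases hsplit p hp v with h2 | h2
      · omega
      · omega
  have hlin : ∀ amax α β : ℕ, (∀ x ≤ 5, x ≤ amax ∨
      2 * T24 x + 2 * T24 (m - x) + 2 * (m - x) ≤ 2 * T24 m) →
      (∀ x ≤ amax, β * (2 * T24 x) ≤ α * x) →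
      ∀ p ∈ N A, β * ∑ v, D (A.filter (fun σ => σ p = v)) ≤ α * m := by
    intro amax α β hx hx2 p hp
    rw [← hm]
    refine le_trans (sum_lin (v₀ := p) (c := 0) (α := α) ?_) (by omega)
    intro v
    have h1 := Nat.mul_le_mul_left β (hIHc p hp v)
    have h3 := hx2 (A.filter (fun σ => σ p = v)).card (hcl amax hx p hp v)
    split_ifs <;> omega
  have huniq : (∀ x ≤ 5, ∀ x' ≤ x, 4 ≤ x' → x + x' ≤ m →
      2 * T24 x + 2 * T24 x' + 2 * T24 (m - x - x') + 2 * (m - x) + 2 * (m - x - x')
        ≤ 2 * T24 m) →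
      (∀ p ∈ N A, ∀ v v', v ≠ v' → 4 ≤ (A.filter (fun σ => σ p = v)).card →
        ¬ 4 ≤ (A.filter (fun σ => σ p = v')).card) := by
    intro hx p hp v v' hvv h4 h4'
    rcases le_total (A.filter (fun σ => σ p = v')).card (A.filter (fun σ => σ p = v)).card
      with h | h
    · obtain ⟨h5, h6⟩ := hsplit2 p hp v v' hvv h4 h4'
      have h7 := hx _ (hle p hp v) _ h h4' h5
      omega
    · obtain ⟨h5, h6⟩ := hsplit2 p hp v' v (Ne.symm hvv) h4' h4
      have h7 := hx _ (hle p hp v') _ h h4 h5
      omega
  have hbig : 15 ≤ m → False := by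
    intro h15
    have hW : ∀ p ∈ N A, 5 * ∑ v, D (A.filter (fun σ => σ p = v)) ≤ 12 * m :=
      hlin 5 12 5 (fun x hx => Or.inl hx) (by decide)
    have h1 := avg_q (A := A) (w := 12 * m / 5) (q := 5) (hN5 (by omega)) (by
      intro p hp
      have := hW p hp
      omega)
    have h2 : ∀ x ≤ 24, 15 ≤ x → 4 * x < 2 * T24 x + 1 := by decide
    have h4 := h2 m h24 h15
    omega
  have h15 : m < 15 := by
    by_contra h
    exact hbig (by omega)
  have hE : m = 7 ∨ m = 8 ∨ m = 9 ∨ m = 10 ∨ m = 11 ∨ m = 12 ∨ m = 13 ∨ m = 14 := by omega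
  rcases hE with h | h | h | h | h | h | h | h
  · rw [h] at hlin hbad
    have e0 : T24 7 = 10 := by decide
    rw [e0] at hbad
    have hW := hlin 2 1 1 (by decide) (by decide)
    have h1 := avg_q (A := A) (w := 7) (q := 4) hN4 (by
      intro p hp
      have := hW p hp
      omega)
    omega
  · rw [h] at hlin hbad
    have e0 : T24 8 = 12 := by decide
    rw [e0] at hbad
    have hW := hlin 3 4 3 (by decide) (by decide)
    have h1 := avg_q (A := A) (w := 10) (q := 4) hN4 (by
      intro p hp
      have := hW p hp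
      omega)
    omega
  · rw [h] at hone huniq hcl hbad
    have e0 : T24 9 = 14 := by decide
    rw [e0] at hbad
    have hW := hone 8 3 4 (by decide) (by decide) (fun _ => hcl 4 (by decide))
      (huniq (by decide))
    have h1 := avg_q (A := A) (w := 14) (q := 4) hN4 (by
      intro p hp
      have := hW p hp
      omega)
    omega
  · rw [h] at hone huniq hcl hbad
    have e0 : T24 10 = 17 := by decide
    rw [e0] at hbad
    have hW := hone 8 3 4 (by decide) (by decide) (fun _ => hcl 4 (by decide))
      (huniq (by decide))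
    have h1 := avg_q (A := A) (w := 16) (q := 4) hN4 (by
      intro p hp
      have := hW p hp
      omega)
    omega
  · rw [h] at hone huniq hbad
    have e0 : T24 11 = 20 := by decide
    rw [e0] at hbad
    have hW := hone 16 3 4 (by decide) (by decide) (fun h => by omega)
      (huniq (by decide))
    have h1 := avg_q (A := A) (w := 20) (q := 4) hN4 (by
      intro p hp
      have := hW p hp
      omega)
    omega
  · rw [h] at h3 hbad
    have e0 : T24 12 = 24 := by decide
    rw [e0] at hbad
    omega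
  · rw [h] at hlin hbad
    have e0 : T24 13 = 26 := by decide
    rw [e0] at hbad
    have hW := hlin 4 2 1 (by decide) (by decide)
    have h1 := avg_q (A := A) (w := 26) (q := 5) (hN5 (by omega)) (by
      intro p hp
      have := hW p hp
      omega)
    omega
  · rw [h] at hlin hbad
    have e0 : T24 14 = 29 := by decide
    rw [e0] at hbad
    have hW := hlin 4 2 1 (by decide) (by decide)
    have h1 := avg_q (A := A) (w := 28) (q := 5) (hN5 (by omega)) (by
      intro p hp
      have := hW p hp
      omega)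
    omega

theorem exact24 : ∀ A : Finset (Perm (Fin n)), A.card ≤ 24 → D A ≤ 2 * T24 A.card := by
  intro A
  induction hm : A.card using Nat.strong_induction_on generalizing A with
  | _ m ih =>
  intro h
  subst hm
  by_cases h6 : A.card ≤ 6
  · exact exact6 A h6
  · exact core A (by omega) h (fun B hB => ih B.card hB B rfl (by omega))

/-- six times the improvement at level 3 -/
def t3 (r : ℕ) : ℕ := [0, 13, 16, 21, 16, 13].getD r 0

lemma t3_id : ∀ m ≤ 24, m ^ 2 + 12 * m = 12 * T24 m + t3 (m % 6) := by decide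

lemma t3_sub : ∀ r < 6, ∀ s < 6, t3 ((r + s) % 6) ≤ t3 r + t3 s := by decide

lemma t3_le : ∀ r < 6, t3 r ≤ 48 := by decide

/-- the improvement at level 3 -/
noncomputable def U3 (i : ℕ) : ℝ := if i ≤ 24 then (t3 (i % 6) : ℝ) / 6 else 0

lemma ph_three (x : ℝ) : ph 3 x = x ^ 2 / 6 + 2 * x := by
  unfold ph
  have e1 : (3 : ℕ).factorial = 6 := rfl
  have e2 : (3 : ℕ).choose 2 = 3 := rfl
  rw [e1, e2]
  push_cast
  ring

theorem comp_three : Comp 3 U3 := by
  have hnn : ∀ i, 0 ≤ U3 i := by
    intro i
    unfold U3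
    split_ifs <;> positivity
  refine ⟨hnn, ?_, ?_, ?_, ?_, ?_⟩
  · unfold U3
    simp [t3]
  · unfold U3
    have e1 : (3 + 1 : ℕ).factorial = 24 := rfl
    rw [e1]
    simp [t3]
  · intro a b
    by_cases h : a + b ≤ 24
    · unfold U3
      rw [if_pos h, if_pos (by omega), if_pos (by omega), ← add_div]
      apply div_le_div_of_nonneg_right _ (by norm_num)
      have h1 := t3_sub (a % 6) (Nat.mod_lt _ (by norm_num)) (b % 6) (Nat.mod_lt _ (by norm_num))
      rw [← Nat.add_mod] at h1
      exact_mod_cast h1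
    · have e : U3 (a + b) = 0 := by
        unfold U3
        rw [if_neg h]
      rw [e]
      exact add_nonneg (hnn a) (hnn b)
  · intro i
    have h1 := hnn (i + 1)
    have h2 : U3 i ≤ 8 := by
      unfold U3
      split_ifs with h
      · have h3 : ((t3 (i % 6) : ℕ) : ℝ) ≤ 48 := by
          exact_mod_cast t3_le (i % 6) (Nat.mod_lt _ (by norm_num))
        linarith
      · norm_num
    push_cast
    linarith
  · intro n A
    unfold U3
    split_ifs with h
    · have h1 : ((D A : ℕ) : ℝ) ≤ 2 * (T24 A.card : ℝ) := by exact_mod_cast exact24 A h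
      have h2 : (A.card : ℝ) ^ 2 + 12 * A.card = 12 * (T24 A.card : ℝ) + (t3 (A.card % 6) : ℝ) := by
        exact_mod_cast t3_id A.card h
      rw [df_eq, ph_three]
      linarith
    · exact df_nonneg (by norm_num) A

theorem Ex_three {d : ℕ} (hd : d ≤ 24) : Ex 3 U3 d := by
  refine ⟨hd, ?_⟩
  have h2 : (d : ℝ) ^ 2 + 12 * d = 12 * (T24 d : ℝ) + (t3 (d % 6) : ℝ) := by
    exact_mod_cast t3_id d hd
  have e : Ef (3 + 1) d = T24 d := Ef_four d hd
  rw [e, ph_three]
  unfold U3
  rw [if_pos hd]
  linarith

end Pool.H60.NM
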