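import Pool.Agent.H60.NM.Inv

set_option autoImplicit false

/-!
# Permutations of `Fin (n + 1)` as pairs (first value, order of the others)
-/

open Finset Equiv Pool.H60.Transp

namespace Pool.H60.NM

theorem cons_injective {n : ℕ} (v : Fin (n + 1)) (τ : Perm (Fin n)) :
    Function.Injective (Fin.cons v (fun i => v.succAbove (τ i)) : Fin (n + 1) → Fin (n + 1)) := by
  rw [Fin.cons_injective_iff]
  refine ⟨?_, fun a b h => τ.injective (Fin.succAbove_right_injective h)⟩
  rintro ⟨i, hi⟩
  exact Fin.succAbove_ne v (τ i) hi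

/-- the permutation with first value `v` and the other values ordered as in `τ` -/
noncomputable def cons {n : ℕ} (v : Fin (n + 1)) (τ : Perm (Fin n)) : Perm (Fin (n + 1)) :=
  Equiv.ofBijective _ (Finite.injective_iff_bijective.1 (cons_injective v τ))

theorem cons_zero {n : ℕ} (v : Fin (n + 1)) (τ : Perm (Fin n)) : cons v τ 0 = v := by
  unfold cons
  rw [Equiv.ofBijective_apply, Fin.cons_zero]

theorem cons_succ {n : ℕ} (v : Fin (n + 1)) (τ : Perm (Fin n)) (i : Fin n) :
    cons v τ i.succ = v.succAbove (τ i) := by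
  unfold cons
  rw [Equiv.ofBijective_apply, Fin.cons_succ]

theorem cons_inj {n : ℕ} {v v' : Fin (n + 1)} {τ τ' : Perm (Fin n)} (h : cons v τ = cons v' τ') :
    v = v' ∧ τ = τ' := by
  have h0 := DFunLike.congr_fun h 0
  rw [cons_zero, cons_zero] at h0
  subst h0
  refine ⟨rfl, Equiv.ext fun i => ?_⟩
  have h1 := DFunLike.congr_fun h i.succ
  rw [cons_succ, cons_succ] at h1
  exact Fin.succAbove_right_injective h1

theorem exists_cons {n : ℕ} (σ : Perm (Fin (n + 1))) : ∃ v τ, σ = cons v τ := by
  have h : ∀ i : Fin n, ∃ z : Fin n, (σ 0).succAbove z = σ i.succ := fun i =>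
    Fin.exists_succAbove_eq fun h => Fin.succ_ne_zero i (σ.injective h)
  choose f hf using h
  have hinj : Function.Injective f := by
    intro a b hab
    have h1 : σ a.succ = σ b.succ := by rw [← hf a, ← hf b, hab]
    exact Fin.succ_injective n (σ.injective h1)
  refine ⟨σ 0, Equiv.ofBijective f (Finite.injective_iff_bijective.1 hinj), Equiv.ext fun i => ?_⟩
  refine Fin.cases ?_ (fun j => ?_) i
  · rw [cons_zero]
  · rw [cons_succ, Equiv.ofBijective_apply, hf]

theorem lexLT_cons {n : ℕ} {v v' : Fin (n + 1)} {τ τ' : Perm (Fin n)} :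
    lexLT (cons v τ) (cons v' τ') ↔ v < v' ∨ (v = v' ∧ lexLT τ τ') := by
  constructor
  · rintro ⟨j, h1, h2⟩
    revert h1 h2
    refine Fin.cases ?_ (fun j => ?_) j
    · intro _ h2
      rw [cons_zero, cons_zero] at h2
      exact Or.inl h2
    · intro h1 h2
      have h0 := h1 0 (Fin.succ_pos j)
      rw [cons_zero, cons_zero] at h0
      subst h0
      refine Or.inr ⟨rfl, j, fun i hi => ?_, ?_⟩
      · have h3 := h1 i.succ (Fin.succ_lt_succ_iff.2 hi)
        rw [cons_succ, cons_succ] at h3
        exact Fin.succAbove_right_injective h3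
      · rw [cons_succ, cons_succ, Fin.succAbove_lt_succAbove_iff] at h2
        exact h2
  · rintro (h | ⟨rfl, j, h1, h2⟩)
    · refine ⟨0, fun i hi => absurd hi (Fin.not_lt_zero i), ?_⟩
      rw [cons_zero, cons_zero]
      exact h
    · refine ⟨j.succ, fun i => ?_, ?_⟩
      · refine Fin.cases ?_ (fun i => ?_) i
        · intro _
          rw [cons_zero, cons_zero]
        · intro hi
          rw [cons_succ, cons_succ, h1 i (Fin.succ_lt_succ_iff.1 hi)]
      · rw [cons_succ, cons_succ, Fin.succAbove_lt_succAbove_iff]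
        exact h2

private theorem inv_eq_sum {n : ℕ} (σ : Perm (Fin n)) :
    inv σ = ∑ i, ∑ j, if i < j ∧ σ j < σ i then 1 else 0 := by
  unfold inv pairs
  rw [Finset.filter_filter, Finset.card_filter, Fintype.sum_prod_type]

private theorem sum_lt {n : ℕ} (v : Fin (n + 1)) :
    ∑ j : Fin n, (if j.castSucc < v then 1 else 0) = v.val := by
  have h1 : ∀ j : Fin n, (if j.castSucc < v then 1 else 0) =
      (fun m : ℕ => if m < v.val then 1 else 0) (j : ℕ) := fun j => by
    simp only [Fin.lt_def, Fin.val_castSucc]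
  simp only [h1]
  rw [Fin.sum_univ_eq_sum_range (fun m : ℕ => if m < v.val then 1 else 0) n, ← Finset.card_filter]
  have h2 : (Finset.range n).filter (fun m => m < v.val) = Finset.range v.val := by
    ext m
    simp only [Finset.mem_filter, Finset.mem_range]
    constructor
    · exact fun h => h.2
    · exact fun h => ⟨by omega, h⟩
  rw [h2, Finset.card_range]

theorem inv_cons {n : ℕ} (v : Fin (n + 1)) (τ : Perm (Fin n)) :
    inv (cons v τ) = v.val + inv τ := by
  rw [inv_eq_sum, inv_eq_sum, Fin.sum_univ_succ]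
  congr 1
  · rw [Fin.sum_univ_succ, if_neg (fun h => lt_irrefl _ h.1), zero_add, ← sum_lt v]
    rw [← Equiv.sum_comp τ (fun j : Fin n => if j.castSucc < v then 1 else 0)]
    refine Finset.sum_congr rfl fun j _ => ?_
    rw [cons_zero, cons_succ]
    simp only [Fin.succAbove_lt_iff_castSucc_lt, Fin.succ_pos, true_and]
  · refine Finset.sum_congr rfl fun i _ => ?_
    rw [Fin.sum_univ_succ, if_neg (fun h => absurd h.1 (Fin.not_lt_zero _)), zero_add]
    refine Finset.sum_congr rfl fun j _ => ?_
    rw [cons_succ, cons_succ]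
    simp only [Fin.succAbove_lt_succAbove_iff, Fin.succ_lt_succ_iff]

end Pool.H60.NM
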