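import Mathlib

set_option autoImplicit false

/-!
# Sums of inversion numbers of lexicographic initial segments

`Ef n m` is the sum of the numbers of inversions of the first `m` permutations of `n` elements
(`m ≤ n!`): with `m = c * (n-1)! + r` the first `c` values of the first letter are complete.
Everything here is arithmetic (induction on `n`).
-/

namespace Pool.H60.NM

/-- the sum of the inversion numbers of the first `m` permutations of `n` elements -/
def Ef : ℕ → ℕ → ℕ
  | 0, _ => 0
  | n + 1, m => n.factorial * (m / n.factorial).choose 2 + (m / n.factorial) * Ef n n.factorial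
      + (m / n.factorial) * (m % n.factorial) + Ef n (m % n.factorial)

private theorem Ef_succ (n m : ℕ) : Ef (n + 1) m =
    n.factorial * (m / n.factorial).choose 2 + (m / n.factorial) * Ef n n.factorial
      + (m / n.factorial) * (m % n.factorial) + Ef n (m % n.factorial) := rfl

theorem Ef_zero (n : ℕ) : Ef n 0 = 0 := by
  induction n with
  | zero => rfl
  | succ n ih => rw [Ef_succ, Nat.zero_div, Nat.zero_mod, ih]; simp

private theorem two_mul_choose_two (n : ℕ) : 2 * n.choose 2 = n * (n - 1) := by
  rw [Nat.choose_two_right]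
  exact Nat.mul_div_cancel' (Nat.even_mul_pred_self n).two_dvd

theorem Ef_factorial (n : ℕ) : 2 * Ef n n.factorial = n.factorial * n.choose 2 := by
  induction n with
  | zero => rfl
  | succ n ih =>
    have hf : 0 < n.factorial := Nat.factorial_pos n
    have h1 : (n + 1).factorial / n.factorial = n + 1 := by
      rw [Nat.factorial_succ, Nat.mul_div_cancel _ hf]
    have h2 : (n + 1).factorial % n.factorial = 0 := by
      rw [Nat.factorial_succ, Nat.mul_mod_left]
    have h3 : (n + 1).choose 2 = n + n.choose 2 := by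
      rw [Nat.choose_succ_succ' n 1, Nat.choose_one_right]
    have h4 := two_mul_choose_two (n + 1)
    rw [Ef_succ, h1, h2, Ef_zero, Nat.factorial_succ]
    rw [h3] at h4 ⊢
    simp only [Nat.add_sub_cancel] at h4
    have h5 : 2 * (n.factorial * (n + n.choose 2) + (n + 1) * Ef n n.factorial + (n + 1) * 0 + 0)
        = n.factorial * (2 * (n + n.choose 2)) + (n + 1) * (2 * Ef n n.factorial) := by ring
    rw [h5, h4, ih]
    ring

private theorem Ef_stable_succ {n m : ℕ} (hm : m ≤ n.factorial) : Ef (n + 1) m = Ef n m := by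
  have hf : 0 < n.factorial := Nat.factorial_pos n
  rcases Nat.lt_or_ge m n.factorial with h | h
  · rw [Ef_succ, Nat.div_eq_of_lt h, Nat.mod_eq_of_lt h]
    simp
  · have h1 : m = n.factorial := le_antisymm hm h
    rw [h1, Ef_succ, Nat.div_self hf, Nat.mod_self, Ef_zero]
    simp

theorem Ef_stable {k n m : ℕ} (hkn : k ≤ n) (hm : m ≤ k.factorial) : Ef n m = Ef k m := by
  induction n, hkn using Nat.le_induction with
  | base => rfl
  | succ n hn ih =>
    rw [Ef_stable_succ (hm.trans (Nat.factorial_le hn)), ih]

/-- `m = c * k! + r`, `c ≤ k`, `r ≤ k!`. -/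
theorem Ef_add {k n c r : ℕ} (hkn : k + 1 ≤ n) (hc : c ≤ k) (hr : r ≤ k.factorial) :
    2 * Ef n (c * k.factorial + r) = c * (c - 1) * k.factorial + c * (k.factorial * k.choose 2)
      + 2 * (c * r) + 2 * Ef k r := by
  have hf : 0 < k.factorial := Nat.factorial_pos k
  have hm : c * k.factorial + r ≤ (k + 1).factorial := by
    rw [Nat.factorial_succ, Nat.add_mul, Nat.one_mul]
    exact Nat.add_le_add (Nat.mul_le_mul_right _ hc) hr
  have hk := Ef_factorial k
  rw [Ef_stable hkn hm, Ef_succ]
  rcases Nat.lt_or_ge r k.factorial with h | h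
  · have h1 : (c * k.factorial + r) / k.factorial = c := by
      rw [Nat.add_comm, Nat.add_mul_div_right _ _ hf, Nat.div_eq_of_lt h, Nat.zero_add]
    have h2 : (c * k.factorial + r) % k.factorial = r := by
      rw [Nat.add_comm, Nat.add_mul_mod_self_right, Nat.mod_eq_of_lt h]
    rw [h1, h2, ← hk, ← two_mul_choose_two c]
    ring
  · have h0 : r = k.factorial := le_antisymm hr h
    have h1 : (c * k.factorial + r) / k.factorial = c + 1 := by
      rw [h0, ← Nat.succ_mul, Nat.mul_div_cancel _ hf]
    have h2 : (c * k.factorial + r) % k.factorial = 0 := by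
      rw [h0, ← Nat.succ_mul, Nat.mul_mod_left]
    have h3 : (c + 1).choose 2 = c + c.choose 2 := by
      rw [Nat.choose_succ_succ' c 1, Nat.choose_one_right]
    rw [h1, h2, Ef_zero, h3, ← hk, ← two_mul_choose_two c, h0]
    ring

/-- sizes a little above `c * k!` -/
theorem Ef_plus {k n c d : ℕ} (hk : 3 ≤ k) (hkn : k + 1 ≤ n) (hc : c ≤ k) (hd : d ≤ 6) :
    2 * Ef n (c * k.factorial + d) = c * (c - 1) * k.factorial + c * (k.factorial * k.choose 2)
      + 2 * (c * d) + 2 * Ef 3 d := by
  have h3 : Nat.factorial 3 = 6 := rfl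
  have h4 : 6 ≤ k.factorial := by
    rw [← h3]
    exact Nat.factorial_le hk
  rw [Ef_add hkn hc (hd.trans h4), Ef_stable hk (by rw [h3]; exact hd)]

/-- sizes a little below `k!` (induction on `k`, `k! - d = (k-1) * (k-1)! + ((k-1)! - d)`) -/
theorem Ef_minus {k n d : ℕ} (hk : 4 ≤ k) (hkn : k ≤ n) (hd : d ≤ 6) :
    2 * Ef n (k.factorial - d) + 2 * (d * k.choose 2) = k.factorial * k.choose 2 + 2 * Ef 3 d := by
  have key : ∀ k, 3 ≤ k →
      2 * Ef k (k.factorial - d) + 2 * (d * k.choose 2) = k.factorial * k.choose 2 + 2 * Ef 3 d := by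
    intro k hk
    induction k, hk using Nat.le_induction with
    | base => interval_cases d <;> decide
    | succ k hk ih =>
      have h3 : Nat.factorial 3 = 6 := rfl
      have h4 : 6 ≤ k.factorial := by
        rw [← h3]
        exact Nat.factorial_le hk
      have hd' : d ≤ k.factorial := hd.trans h4
      have h5 : (k + 1).factorial - d = k * k.factorial + (k.factorial - d) := by
        rw [Nat.factorial_succ, Nat.add_mul, Nat.one_mul, Nat.add_sub_assoc hd']
      have h6 : (k + 1).choose 2 = k + k.choose 2 := by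
        rw [Nat.choose_succ_succ' k 1, Nat.choose_one_right]
      have h7 := Ef_add (le_refl (k + 1)) (le_refl k) (Nat.sub_le k.factorial d)
      have h8 : k * (k.factorial - d) + k * d = k * k.factorial := by
        rw [← Nat.mul_add, Nat.sub_add_cancel hd']
      have h9 : k * (k - 1) = 2 * k.choose 2 := (two_mul_choose_two k).symm
      rw [h5, h7, h6, h9, Nat.factorial_succ]
      have h10 : 2 * (k.choose 2) * k.factorial + 2 * (k * k.factorial) =
          k.factorial * (k * (k - 1) + 2 * k) := by rw [h9]; ring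
      have h11 : k * (k - 1) + 2 * k = (k + 1) * k := by
        rcases k with _ | k
        · rfl
        · simp only [Nat.add_sub_cancel]
          ring
      rw [h11] at h10
      nlinarith [h8, ih, h10]
  rw [Ef_stable hkn (Nat.sub_le _ _)]
  exact key k (by omega)

/-- the values for small sizes -/
theorem Ef_three : Ef 3 0 = 0 ∧ Ef 3 1 = 0 ∧ Ef 3 2 = 1 ∧ Ef 3 3 = 2 ∧ Ef 3 4 = 4 ∧ Ef 3 5 = 6 ∧
    Ef 3 6 = 9 := by
  decide

end Pool.H60.NM
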