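import Pool.Agent.H60.NM.TT

set_option autoImplicit false

/-!
# The function `F` modulo `k!`
-/

open Finset Equiv Pool.H60.Transp

namespace Pool.H60.NM

variable {n k j : ℕ} {U : ℕ → ℝ}

/-- the bound for sizes congruent to `r` modulo `k!` -/
noncomputable def FF (k j : ℕ) (U : ℕ → ℝ) (r : ℕ) : ℝ :=
  min (gg k j U r) ((k : ℝ) * ((k.factorial : ℕ) - r))

lemma gg_add (P : Par k j U) (a b : ℕ) : gg k j U (a + b) ≤ gg k j U a + gg k j U b := by
  by_cases h1 : (j + 1).factorial ≤ a
  · have e1 : gg k j U (a + b) = gg k j U a := by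
      unfold gg
      rw [min_eq_right (by omega), min_eq_right h1]
    rw [e1]
    linarith [gg_nonneg P b]
  push Not at h1
  by_cases h2 : (j + 1).factorial ≤ b
  · have e1 : gg k j U (a + b) = gg k j U b := by
      unfold gg
      rw [min_eq_right (by omega), min_eq_right h2]
    rw [e1]
    linarith [gg_nonneg P a]
  push Not at h2
  by_cases h3 : a + b ≤ (j + 1).factorial
  · unfold gg
    rw [min_eq_left h3, min_eq_left h1.le, min_eq_left h2.le]
    exact G_add P a b
  · push Not at h3
    unfold gg
    rw [min_eq_right h3.le, min_eq_left h1.le, min_eq_left h2.le]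
    have h4 := G_add P a ((j + 1).factorial - a)
    have h5 := G_mono P (i := (j + 1).factorial - a) (i' := b) (by omega) h2.le
    have e1 : a + ((j + 1).factorial - a) = (j + 1).factorial := by omega
    rw [e1] at h4
    linarith

lemma FF_le_gg (r : ℕ) : FF k j U r ≤ gg k j U r := min_le_left _ _

lemma FF_le_om (r : ℕ) : FF k j U r ≤ (k : ℝ) * ((k.factorial : ℕ) - r) := min_le_right _ _

lemma FF_nonneg (P : Par k j U) {r : ℕ} (hr : r ≤ k.factorial) : 0 ≤ FF k j U r := by
  apply le_min (gg_nonneg P r)
  have : (r : ℝ) ≤ (k.factorial : ℕ) := by exact_mod_cast hr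
  exact mul_nonneg (Nat.cast_nonneg _) (by linarith)

lemma FF_le_Gs (P : Par k j U) (r : ℕ) : FF k j U r ≤ Gs k j :=
  le_trans (FF_le_gg r) (gg_le P r)

lemma gg_zero (P : Par k j U) : gg k j U 0 = 0 := by
  unfold gg
  rw [min_eq_left (Nat.zero_le _)]
  exact G_zero P

lemma FF_zero (P : Par k j U) : FF k j U 0 = 0 := by
  apply le_antisymm
  · have h := FF_le_gg (k := k) (j := j) (U := U) 0
    rwa [gg_zero P] at h
  · exact FF_nonneg P (Nat.zero_le _)

theorem FF_add (P : Par k j U) {r s : ℕ} (hr : r < k.factorial) (hs : s < k.factorial) :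
    FF k j U ((r + s) % k.factorial) ≤ FF k j U r + FF k j U s := by
  have hk0 : (0 : ℝ) ≤ k := Nat.cast_nonneg k
  have hr' : (r : ℝ) < (k.factorial : ℕ) := by exact_mod_cast hr
  have hs' : (s : ℝ) < (k.factorial : ℕ) := by exact_mod_cast hs
  have hr0 : (0 : ℝ) ≤ r := Nat.cast_nonneg r
  have hs0 : (0 : ℝ) ≤ s := Nat.cast_nonneg s
  have hFr := FF_nonneg P hr.le
  have hFs := FF_nonneg P hs.le
  by_cases h : r + s < k.factorial
  · rw [Nat.mod_eq_of_lt h]
    rcases min_choice (gg k j U r) ((k : ℝ) * ((k.factorial : ℕ) - r)) with h1 | h1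
    · rcases min_choice (gg k j U s) ((k : ℝ) * ((k.factorial : ℕ) - s)) with h2 | h2
      · have h3 := FF_le_gg (k := k) (j := j) (U := U) (r + s)
        have h4 := gg_add P r s
        have h5 : FF k j U r = gg k j U r := h1
        have h6 : FF k j U s = gg k j U s := h2
        linarith
      · have h6 : FF k j U s = (k : ℝ) * ((k.factorial : ℕ) - s) := h2
        have h3 := FF_le_om (k := k) (j := j) (U := U) (r + s)
        have h4 : (k : ℝ) * (((k.factorial : ℕ) : ℝ) - ((r + s : ℕ) : ℝ))
            ≤ (k : ℝ) * ((k.factorial : ℕ) - s) := by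
          apply mul_le_mul_of_nonneg_left _ hk0
          push_cast
          linarith
        linarith
    · have h6 : FF k j U r = (k : ℝ) * ((k.factorial : ℕ) - r) := h1
      have h3 := FF_le_om (k := k) (j := j) (U := U) (r + s)
      have h4 : (k : ℝ) * (((k.factorial : ℕ) : ℝ) - ((r + s : ℕ) : ℝ))
          ≤ (k : ℝ) * ((k.factorial : ℕ) - r) := by
        apply mul_le_mul_of_nonneg_left _ hk0
        push_cast
        linarith
      linarith
  · push Not at h
    have e1 : (r + s) % k.factorial = r + s - k.factorial := by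
      rw [Nat.mod_eq_sub_mod h, Nat.mod_eq_of_lt (by omega)]
    rw [e1]
    rcases min_choice (gg k j U r) ((k : ℝ) * ((k.factorial : ℕ) - r)) with h1 | h1
    · have h5 : FF k j U r = gg k j U r := h1
      have h3 := FF_le_gg (k := k) (j := j) (U := U) (r + s - k.factorial)
      have h4 := gg_mono P (i := r + s - k.factorial) (i' := r) (by omega)
      linarith
    · rcases min_choice (gg k j U s) ((k : ℝ) * ((k.factorial : ℕ) - s)) with h2 | h2
      · have h5 : FF k j U s = gg k j U s := h2
        have h3 := FF_le_gg (k := k) (j := j) (U := U) (r + s - k.factorial)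
        have h4 := gg_mono P (i := r + s - k.factorial) (i' := s) (by omega)
        linarith
      · have h5 : FF k j U r = (k : ℝ) * ((k.factorial : ℕ) - r) := h1
        have h6 : FF k j U s = (k : ℝ) * ((k.factorial : ℕ) - s) := h2
        have h3 := FF_le_om (k := k) (j := j) (U := U) (r + s - k.factorial)
        rw [Nat.cast_sub h] at h3
        push_cast at h3
        rw [h5, h6]
        linarith

/-- the slope -/
lemma FF_slope (P : Par k j U) {r : ℕ} (hr : r < k.factorial) :
    FF k j U r ≤ FF k j U ((r + 1) % k.factorial) + k := by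
  have hk0 : (0 : ℝ) ≤ k := Nat.cast_nonneg k
  by_cases h : r + 1 < k.factorial
  · rw [Nat.mod_eq_of_lt h]
    rcases min_choice (gg k j U (r + 1)) ((k : ℝ) * ((k.factorial : ℕ) - (r + 1 : ℕ))) with h1 | h1
    · have h2 : FF k j U (r + 1) = gg k j U (r + 1) := h1
      have h3 := FF_le_gg (k := k) (j := j) (U := U) r
      have h4 := gg_mono P (i := r) (i' := r + 1) (by omega)
      linarith
    · have h2 : FF k j U (r + 1) = (k : ℝ) * ((k.factorial : ℕ) - (r + 1 : ℕ)) := h1
      have h3 := FF_le_om (k := k) (j := j) (U := U) r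
      rw [h2]
      push_cast
      linarith
  · have hr1 : r + 1 = k.factorial := by omega
    rw [hr1, Nat.mod_self, FF_zero P]
    have h3 := FF_le_om (k := k) (j := j) (U := U) r
    have h4 : (r : ℝ) + 1 = (k.factorial : ℕ) := by exact_mod_cast hr1
    rw [← h4] at h3
    linarith

/-- on `[0, (j + 1)!]` the function is `G` -/
lemma FF_eq_G (P : Par k j U) {r : ℕ} (hr : r ≤ (j + 1).factorial) :
    FF k j U r = G k j U r := by
  have e : gg k j U r = G k j U r := by
    unfold gg
    rw [min_eq_left hr]
  unfold FF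
  rw [e]
  apply min_eq_left
  have N := P.nums
  have h1 := G_le P hr
  have h2 : (r : ℝ) ≤ ((j + 1).factorial : ℕ) := by exact_mod_cast hr
  have h3 := N.hgD
  have h4 := N.hKbig'
  have h5 := N.hHg
  have h6 := N.hI
  have h7 := N.hgC
  have h8 := N.hC36
  have hk := N.hk
  have hD := N.hD
  have h9 : Gs k j ≤ (k.factorial : ℕ) - r := by nlinarith
  have h10 : ((k.factorial : ℕ) : ℝ) - r ≤ k * ((k.factorial : ℕ) - r) := by nlinarith
  linarith

end Pool.H60.NM
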