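import Pool.Agent.H60.NM.Cons
import Pool.Agent.H60.NM.Ef

set_option autoImplicit false

/-!
# The lexicographic initial segment of any size

`exists_down_E`: induction on `n`, `m = c * n! + r` (`c = m / n!`, `r = m % n!`): all `cons v τ`
with `v < c`, and `cons c τ` with `τ` in the set of size `r` (if `c ≤ n`).
`bd_lex_of_D` and `bd_lex_of_D_compl`: as `bd_lex_le`, `bd_lex_le'` in `TranspLex.lean`
(`bd_add_D`, `card_pairs`, `lexInit_eq`, `mirror`).
-/

open Finset Equiv Pool.H60.Transp

namespace Pool.H60.NM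

private theorem sum_ite_range {N c : ℕ} (A : ℕ → ℕ) (B : ℕ) (hc : c ≤ N) (hB : c = N → B = 0) :
    ∑ i ∈ range N, (if i < c then A i else if i = c then B else 0) = ∑ i ∈ range c, A i + B := by
  have h1 : ∀ i ∈ range N, (if i < c then A i else if i = c then B else 0)
      = (if i < c then A i else 0) + (if i = c then B else 0) := by
    intro i _
    split_ifs with h2 h3 <;> first | omega | rfl
  have h2 : (range N).filter (fun i => i < c) = range c := by
    ext i
    simp only [mem_filter, mem_range]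
    omega
  rw [Finset.sum_congr rfl h1, Finset.sum_add_distrib, ← Finset.sum_filter, h2,
    Finset.sum_ite_eq']
  congr 1
  split_ifs with h3
  · rfl
  · rw [mem_range] at h3
    exact (hB (by omega)).symm

/-- the index set: `v < c`, or `v = c` and `τ ∈ Y` -/
private noncomputable def idx {n : ℕ} (c : ℕ) (Y : Finset (Perm (Fin n))) :
    Finset (Fin (n + 1) × Perm (Fin n)) :=
  univ.filter (fun p => p.1.val < c ∨ (p.1.val = c ∧ p.2 ∈ Y))

private theorem sum_idx {n c : ℕ} (Y : Finset (Perm (Fin n))) (hc : c ≤ n + 1)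
    (hY : c = n + 1 → Y = ∅) (f : ℕ → Perm (Fin n) → ℕ) :
    ∑ p ∈ idx c Y, f p.1.val p.2 = ∑ i ∈ range c, ∑ τ : Perm (Fin n), f i τ + ∑ τ ∈ Y, f c τ := by
  classical
  rw [← sum_ite_range (N := n + 1) (fun i => ∑ τ : Perm (Fin n), f i τ) (∑ τ ∈ Y, f c τ) hc
    (fun h => by rw [hY h, Finset.sum_empty])]
  rw [← Fin.sum_univ_eq_sum_range (fun i => if i < c then ∑ τ : Perm (Fin n), f i τ
    else if i = c then ∑ τ ∈ Y, f c τ else 0) (n + 1)]
  unfold idx
  rw [Finset.sum_filter, ← Finset.univ_product_univ, Finset.sum_product]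
  apply Finset.sum_congr rfl
  intro v _
  split_ifs with h1 h2
  · apply Finset.sum_congr rfl
    intro τ _
    rw [if_pos (Or.inl h1)]
  · rw [← Finset.sum_filter_add_sum_filter_not univ (fun τ => τ ∈ Y)]
    have h3 : univ.filter (fun τ : Perm (Fin n) => τ ∈ Y) = Y := by
      ext τ
      simp
    rw [h3, Finset.sum_eq_zero (s := univ.filter (fun τ : Perm (Fin n) => ¬ τ ∈ Y)), add_zero]
    · apply Finset.sum_congr rfl
      intro τ hτ
      rw [if_pos (Or.inr ⟨h2, hτ⟩), h2]
    · intro τ hτ
      rw [mem_filter] at hτ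
      rw [if_neg]
      rintro (h4 | h4)
      · exact h1 h4
      · exact hτ.2 h4.2
  · apply Finset.sum_eq_zero
    intro τ _
    rw [if_neg]
    rintro (h4 | h4)
    · exact h1 h4
    · exact h2 h4.1

private theorem cons_inj' {n : ℕ} :
    Function.Injective (fun p : Fin (n + 1) × Perm (Fin n) => cons p.1 p.2) := by
  rintro ⟨v, τ⟩ ⟨v', τ'⟩ h
  obtain ⟨h1, h2⟩ := cons_inj h
  simp only at h1 h2
  rw [h1, h2]

theorem exists_down_E (n : ℕ) : ∀ m, m ≤ n.factorial → ∃ X : Finset (Perm (Fin n)), X.card = m ∧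
    (∀ σ ∈ X, ∀ π, lexLT π σ → π ∈ X) ∧ ∑ σ ∈ X, inv σ = Ef n m := by
  induction n with
  | zero =>
    intro m hm
    have h0 : ∀ σ : Perm (Fin 0), inv σ = 0 := by
      intro σ
      unfold inv
      rw [Finset.card_eq_zero]
      ext p
      exact p.1.elim0
    have hE : Ef 0 m = 0 := rfl
    rw [Nat.factorial_zero] at hm
    rcases Nat.eq_zero_or_pos m with h | h
    · subst h
      exact ⟨∅, rfl, fun σ hσ => absurd hσ (Finset.notMem_empty _), by rw [hE]; rfl⟩
    · have h1 : m = 1 := by omega
      subst h1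
      refine ⟨univ, ?_, fun _ _ _ _ => mem_univ _, ?_⟩
      · rw [Finset.card_univ, Fintype.card_perm, Fintype.card_fin, Nat.factorial_zero]
      · rw [hE]
        exact Finset.sum_eq_zero (fun σ _ => h0 σ)
  | succ n ih =>
    intro m hm
    classical
    have hf : 0 < n.factorial := Nat.factorial_pos n
    have hdm : n.factorial * (m / n.factorial) + m % n.factorial = m := Nat.div_add_mod _ _
    have hr : m % n.factorial < n.factorial := Nat.mod_lt _ hf
    have hE : Ef (n + 1) m =
        n.factorial * (m / n.factorial).choose 2 + (m / n.factorial) * Ef n n.factorial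
          + (m / n.factorial) * (m % n.factorial) + Ef n (m % n.factorial) := rfl
    rw [hE]
    generalize m / n.factorial = c at hdm ⊢
    generalize m % n.factorial = r at hdm hr ⊢
    rw [Nat.factorial_succ] at hm
    have hc : c ≤ n + 1 := by
      by_contra h
      rw [not_le] at h
      have h1 : n.factorial * (n + 1 + 1) ≤ n.factorial * c := Nat.mul_le_mul_left _ h
      have h2 : n.factorial * (n + 1 + 1) = (n + 1) * n.factorial + n.factorial := by ring
      omega
    obtain ⟨Y, hY1, hY2, hY3⟩ := ih r hr.le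
    obtain ⟨Z, hZ1, _, hZ3⟩ := ih n.factorial le_rfl
    have hZ : Z = univ := by
      rw [← Finset.card_eq_iff_eq_univ, hZ1, Fintype.card_perm, Fintype.card_fin]
    rw [hZ] at hZ3
    have hYe : c = n + 1 → Y = ∅ := by
      intro h
      rw [← Finset.card_eq_zero, hY1]
      rw [h, Nat.mul_comm] at hdm
      omega
    refine ⟨(idx c Y).map ⟨_, cons_inj'⟩, ?_, ?_, ?_⟩
    · rw [Finset.card_map, Finset.card_eq_sum_ones, sum_idx Y hc hYe (fun _ _ => 1)]
      simp only [Finset.sum_const, Finset.card_univ, Fintype.card_perm, Fintype.card_fin,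
        Finset.card_range, smul_eq_mul, mul_one]
      rw [hY1, Nat.mul_comm]
      exact hdm
    · intro σ hσ π hπ
      rw [Finset.mem_map] at hσ ⊢
      obtain ⟨⟨v, τ⟩, hp, rfl⟩ := hσ
      obtain ⟨v', τ', rfl⟩ := exists_cons π
      simp only [Function.Embedding.coeFn_mk] at hπ ⊢
      rw [lexLT_cons] at hπ
      refine ⟨(v', τ'), ?_, rfl⟩
      unfold idx at hp ⊢
      simp only [mem_filter, mem_univ, true_and] at hp ⊢
      rcases hπ with h | ⟨h, h'⟩
      · left
        have h1 := Fin.lt_def.1 h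
        rcases hp with hp | hp
        · omega
        · have := hp.1
          omega
      · subst h
        rcases hp with hp | hp
        · exact Or.inl hp
        · exact Or.inr ⟨hp.1, hY2 _ hp.2 _ h'⟩
    · rw [Finset.sum_map]
      simp only [Function.Embedding.coeFn_mk, inv_cons]
      rw [sum_idx Y hc hYe (fun i τ => i + inv τ)]
      simp only [Finset.sum_add_distrib, Finset.sum_const, Finset.card_univ, Fintype.card_perm,
        Fintype.card_fin, Finset.card_range, smul_eq_mul]
      rw [hZ3, hY3, hY1, ← Finset.mul_sum, Finset.sum_range_id, Nat.choose_two_right]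
      ring

private theorem card_le_fact {n : ℕ} (A : Finset (Perm (Fin n))) : A.card ≤ n.factorial := by
  have := Finset.card_le_univ A
  rwa [Fintype.card_perm, Fintype.card_fin] at this

private theorem exists_down_bd {n : ℕ} (A : Finset (Perm (Fin n))) (h : D A ≤ 2 * Ef n A.card) :
    ∃ X : Finset (Perm (Fin n)), X.card = A.card ∧ (∀ σ ∈ X, ∀ π, lexLT π σ → π ∈ X) ∧
      bd X ≤ bd A := by
  obtain ⟨X, hX1, hX2, hX3⟩ := exists_down_E n A.card (card_le_fact A)
  refine ⟨X, hX1, hX2, ?_⟩
  have h1 := bd_add_D A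
  have h2 := bd_add_D X
  have h3 := D_down X hX2
  rw [hX3] at h3
  rw [hX1] at h2
  omega

theorem bd_lex_of_D {n : ℕ} (A : Finset (Perm (Fin n))) (h : D A ≤ 2 * Ef n A.card) :
    bd (lexInit n A.card) ≤ bd A := by
  obtain ⟨X, hX1, hX2, hX3⟩ := exists_down_bd A h
  rw [lexInit_eq X hX1 hX2]
  exact hX3

theorem bd_lex_of_D_compl {n : ℕ} (A : Finset (Perm (Fin n)))
    (h : D Aᶜ ≤ 2 * Ef n Aᶜ.card) : bd (lexInit n A.card) ≤ bd A := by
  obtain ⟨X, hX1, hX2, hX3⟩ := exists_down_bd Aᶜ h
  have hcard : (mirror Xᶜ).card = A.card := by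
    have h1 := card_le_fact A
    rw [card_mirror, Finset.card_compl, Fintype.card_perm, Fintype.card_fin, hX1,
      Finset.card_compl, Fintype.card_perm, Fintype.card_fin]
    omega
  rw [lexInit_eq (mirror Xᶜ) hcard (mirror_down hX2), bd_mirror, bd_compl]
  rwa [bd_compl] at hX3

end Pool.H60.NM
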