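import Pool.Agent.H60.NM.Base24
import Pool.Agent.H60.NM.LexE

set_option autoImplicit false

/-!
# Sizes with sparse factorial expansion
-/

open Finset Equiv Pool.H60.Transp

namespace Pool.H60.NM

/-- `Sparse j d`: `d = c₁ k₁! + c₂ k₂! + ... + cₜ kₜ! + r` with `k₁ ≤ j` and gaps at least 7.
Precisely: every `d ≤ 24` is `Sparse 3 d`; every `c j!` with `2 ≤ j` and `c ≤ j + 1` is
`Sparse j`; and if `Sparse j d`, `j + 7 ≤ k` and `2 c + 1 ≤ k` then `c k! + d` is `Sparse k`. -/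
inductive Sparse : ℕ → ℕ → Prop
  | small (d : ℕ) : d ≤ 24 → Sparse 3 d
  | single (j c : ℕ) : 2 ≤ j → c ≤ j + 1 → Sparse j (c * j.factorial)
  | cons (k j c d : ℕ) : Sparse j d → j + 7 ≤ k → 2 * c + 1 ≤ k →
      Sparse k (c * k.factorial + d)

/-- The sizes: `m ≤ 24`; `m = c k! + d` and `m = k! - d` with `d ≥ 1` of the kind `Sparse j d`,
`j + 7 ≤ k`, `c ≥ 1` and `2 c + 1 ≤ k`. -/
inductive Multi : ℕ → Prop
  | small (m : ℕ) : m ≤ 24 → Multi m
  | plus (k j c d : ℕ) : Sparse j d → j + 7 ≤ k → 1 ≤ c → 2 * c + 1 ≤ k → 1 ≤ d →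
      Multi (c * k.factorial + d)
  | minus (k j d : ℕ) : Sparse j d → j + 7 ≤ k → 1 ≤ d → Multi (k.factorial - d)

theorem Sparse.comp {j d : ℕ} (h : Sparse j d) : 2 ≤ j ∧ ∃ U : ℕ → ℝ, Comp j U ∧ Ex j U d := by
  induction h with
  | small d hd => exact ⟨by norm_num, U3, comp_three, Ex_three hd⟩
  | single j c hj hc => exact ⟨hj, fun _ => 0, comp_zero (by omega), Ex_zero hc⟩
  | cons k j c d _ hjk hc ih =>
    obtain ⟨hj, U, hU, hE⟩ := ih
    have P : Par k j U := ⟨by omega, hjk, by omega, hU⟩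
    exact ⟨by omega, Un k j U, comp_Un P, Ex_step P hc hE⟩

theorem Multi.D_le {m : ℕ} (h : Multi m) {n : ℕ} (A : Finset (Perm (Fin n)))
    (hA : A.card = m) : D A ≤ 2 * Ef n A.card := by
  cases h with
  | small m hm =>
    have P : Par (3 + 7) 3 U3 := ⟨by norm_num, le_rfl, by norm_num, comp_three⟩
    exact D_above P (c := 0) (by norm_num) (Ex_three hm) A (by omega)
  | plus k j c d hs hjk _ hc _ =>
    obtain ⟨hj, U, hU, hE⟩ := hs.comp
    exact D_above ⟨by omega, hjk, by omega, hU⟩ hc hE A hA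
  | minus k j d hs hjk _ =>
    obtain ⟨hj, U, hU, hE⟩ := hs.comp
    have hd : d ≤ k.factorial := le_trans hE.1 (Nat.factorial_le (by omega))
    exact D_below ⟨by omega, hjk, by omega, hU⟩ hE A (by omega)

theorem bd_multi {n : ℕ} (A : Finset (Perm (Fin n)))
    (hA : Multi A.card ∨ Multi (n.factorial - A.card)) : bd (lexInit n A.card) ≤ bd A := by
  have hcard : A.card + Aᶜ.card = n.factorial := by
    rw [Finset.card_add_card_compl, Fintype.card_perm, Fintype.card_fin]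
  rcases hA with hA | hA
  · exact bd_lex_of_D A (hA.D_le A rfl)
  · exact bd_lex_of_D_compl A (hA.D_le Aᶜ (by omega))

end Pool.H60.NM
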