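import Pool.Agent.H60.TranspLex

set_option autoImplicit false

/-!
# Two cosets

`coset M σ₀` is the set of the permutations which agree with `σ₀` off `M`.
`nb_le_one`: a permutation `ρ` outside the coset has at most one neighbour in it: if
`ρ * swap a b` agrees with `σ₀` off `M` and `ρ` does not, then one of `a`, `b` is a position
`q ∉ M` with `ρ q ≠ σ₀ q`, and `swap a b = swap q (ρ⁻¹ (σ₀ q))`.
`matched`: two different cosets with `|M₁| = |M₂| = k` whose intersection has fewer than `(k - 1)!`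
elements, and such that more than `3 (k - 1)!` elements of the first have a neighbour in the
second, are disjoint and joined by a perfect matching. Proof: put `T = M₁ \ M₂`, `t = |T|`.
* `t ≥ 3`, `q₁, q₂, q₃ ∈ T`: an element `ρ` of the first coset with `ρ qᵢ ≠ σ₂ qᵢ` for all `i` has
  no neighbour in the second; for each `i` at most `(k - 1)!` elements have `ρ qᵢ = σ₂ qᵢ`.
* `t = 2`, `T = {q₁, q₂}`: a neighbour needs `ρ q₁ = σ₂ q₁` or `ρ q₂ = σ₂ q₂` or `ρ q₂ = σ₂ q₁`.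
* `t = 1`, `T = {q}`, and some `y ∉ M₁ ∪ M₂` with `σ₁ y ≠ σ₂ y`: `ρ q = σ₂ q` or `ρ q = σ₂ y`.
* `t = 1`, `T = {q}`, `M₂ \ M₁ = {q'}` and `σ₁ = σ₂` off `M₁ ∪ M₂`: if `σ₂ q = σ₁ y`, `y ∈ M₁`, then
  the intersection has `(k - 1)!` elements; otherwise `σ₁ q' = σ₂ q` and `ρ * swap q q'` is in the
  second coset for every `ρ` in the first.
* `t = 0`, `M₁ = M₂ = M`: the set `Δ` of the `y ∉ M` with `σ₁ y ≠ σ₂ y` is not empty; if
  `|Δ| ≥ 3` there is no neighbour, if `|Δ| = 2` only `swap y₁ y₂` is possible, and it works for all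
  `ρ` or for none; if `Δ = {y}` then `ρ⁻¹ (σ₂ y) ∈ M` and `ρ * swap y (ρ⁻¹ (σ₂ y))` works.
-/

open Finset Equiv Pool.H60.Transp

namespace Pool.H60.NM

variable {n : ℕ}

private lemma mem_coset {M : Finset (Fin n)} {σ₀ ρ : Perm (Fin n)} :
    ρ ∈ coset M σ₀ ↔ ∀ q, q ∉ M → ρ q = σ₀ q := by
  simp only [coset, mem_filter, mem_univ, true_and]

private lemma two_moved {ρ π : Perm (Fin n)} (h : adj ρ π) {a b : Fin n} (hab : a ≠ b)
    (ha : ρ a ≠ π a) (hb : ρ b ≠ π b) : π = ρ * swap a b := by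
  have h1 := adj_eq_of_ne h ha
  have h2 : ρ⁻¹ (π a) = b := by
    by_contra hne
    apply hb
    rw [h1, Perm.mul_apply, swap_apply_of_ne_of_ne hab.symm (fun h => hne h.symm)]
  rw [h2] at h1
  exact h1

private lemma three_moved {ρ π : Perm (Fin n)} (h : adj ρ π) {a b c : Fin n} (hab : a ≠ b)
    (hac : a ≠ c) (hbc : b ≠ c) (ha : ρ a ≠ π a) (hb : ρ b ≠ π b) (hc : ρ c ≠ π c) : False := by
  have h1 := two_moved h hab ha hb
  apply hc
  rw [h1, Perm.mul_apply, swap_apply_of_ne_of_ne hac.symm hbc.symm]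

theorem nb_le_one (M : Finset (Fin n)) (σ₀ : Perm (Fin n)) {ρ : Perm (Fin n)}
    (hρ : ρ ∉ coset M σ₀) : ∑ π ∈ coset M σ₀, e ρ π ≤ 1 := by
  classical
  rw [mem_coset] at hρ
  push Not at hρ
  obtain ⟨q, hq, hne⟩ := hρ
  calc ∑ π ∈ coset M σ₀, e ρ π
      ≤ ∑ π ∈ coset M σ₀, (if π = ρ * swap q (ρ⁻¹ (σ₀ q)) then 1 else 0) := by
        apply Finset.sum_le_sum
        intro π hπ
        have hπ' : π q = σ₀ q := mem_coset.1 hπ q hq
        rw [e_eq]
        by_cases h : adj ρ π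
        · have := adj_eq_of_ne h (p := q) (by rw [hπ']; exact hne)
          rw [hπ'] at this
          rw [if_pos h, if_pos this]
        · simp [h]
    _ ≤ 1 := by
        rw [Finset.sum_ite_eq']
        split_ifs <;> simp

private lemma val_eq {M : Finset (Fin n)} (σ₀ : Perm (Fin n)) {k : ℕ} (hM : M.card = k)
    {q : Fin n} (hq : q ∈ M) {ρ₀ : Perm (Fin n)} (h0 : ρ₀ ∈ coset M σ₀) :
    ((coset M σ₀).filter (fun ρ => ρ q = ρ₀ q)).card = (k - 1).factorial := by
  have h1 : (coset M σ₀).filter (fun ρ => ρ q = ρ₀ q) = coset (M.erase q) ρ₀ := by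
    ext ρ
    rw [mem_filter, mem_coset, mem_coset]
    constructor
    · rintro ⟨h2, h3⟩ x hx
      by_cases hxq : x = q
      · rw [hxq, h3]
      · have hxM : x ∉ M := fun h => hx (mem_erase.2 ⟨hxq, h⟩)
        rw [h2 x hxM, mem_coset.1 h0 x hxM]
    · intro h2
      refine ⟨fun x hx => ?_, h2 q (notMem_erase q M)⟩
      rw [h2 x (fun h => hx (mem_of_mem_erase h)), mem_coset.1 h0 x hx]
  rw [h1, card_coset, card_erase_of_mem hq, hM]

/-- at most `(k - 1)!` elements of a coset have a given value at a position of `M` -/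
theorem card_val_le {M : Finset (Fin n)} (σ₀ : Perm (Fin n)) {k : ℕ} (hM : M.card = k)
    {q : Fin n} (hq : q ∈ M) (v : Fin n) :
    ((coset M σ₀).filter (fun ρ => ρ q = v)).card ≤ (k - 1).factorial := by
  rcases ((coset M σ₀).filter (fun ρ => ρ q = v)).eq_empty_or_nonempty with h | ⟨ρ₀, h⟩
  · rw [h]
    simp
  · obtain ⟨h0, h1⟩ := mem_filter.1 h
    subst h1
    exact (val_eq σ₀ hM hq h0).le

private lemma concl {M₁ M₂ : Finset (Fin n)} {σ₁ σ₂ : Perm (Fin n)}
    (h : ∀ ρ ∈ coset M₁ σ₁, ρ ∉ coset M₂ σ₂ ∧ ∃ π ∈ coset M₂ σ₂, adj ρ π) :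
    ∀ ρ ∈ coset M₁ σ₁, ρ ∉ coset M₂ σ₂ ∧ ∑ π ∈ coset M₂ σ₂, e ρ π = 1 := by
  classical
  intro ρ hρ
  obtain ⟨h1, π, hπ, hadj⟩ := h ρ hρ
  refine ⟨h1, le_antisymm (nb_le_one M₂ σ₂ h1) ?_⟩
  have h2 : e ρ π = 1 := by rw [e_eq, if_pos hadj]
  rw [← h2]
  exact Finset.single_le_sum (f := fun π => e ρ π) (fun _ _ => Nat.zero_le _) hπ

open Classical in
theorem matched {k : ℕ} (hk : 2 ≤ k) {M₁ M₂ : Finset (Fin n)} {σ₁ σ₂ : Perm (Fin n)}
    (h1 : M₁.card = k) (h2 : M₂.card = k) (hne : coset M₁ σ₁ ≠ coset M₂ σ₂)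
    (hint : (coset M₁ σ₁ ∩ coset M₂ σ₂).card < (k - 1).factorial)
    (hS : 3 * (k - 1).factorial
      < ((coset M₁ σ₁).filter (fun ρ => ∃ π ∈ coset M₂ σ₂, adj ρ π)).card) :
    ∀ ρ ∈ coset M₁ σ₁, ρ ∉ coset M₂ σ₂ ∧ ∑ π ∈ coset M₂ σ₂, e ρ π = 1 := by
  -- three conditions at positions of `M₁` cannot cover
  have key : ∀ (q₁ q₂ q₃ v₁ v₂ v₃ : Fin n), q₁ ∈ M₁ → q₂ ∈ M₁ → q₃ ∈ M₁ →
      (∀ ρ ∈ coset M₁ σ₁, ∀ π ∈ coset M₂ σ₂, adj ρ π → ρ q₁ = v₁ ∨ ρ q₂ = v₂ ∨ ρ q₃ = v₃) →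
      False := by
    intro q₁ q₂ q₃ v₁ v₂ v₃ hq₁ hq₂ hq₃ hcov
    have hsub : (coset M₁ σ₁).filter (fun ρ => ∃ π ∈ coset M₂ σ₂, adj ρ π) ⊆
        (coset M₁ σ₁).filter (fun ρ => ρ q₁ = v₁) ∪ ((coset M₁ σ₁).filter (fun ρ => ρ q₂ = v₂) ∪
          (coset M₁ σ₁).filter (fun ρ => ρ q₃ = v₃)) := by
      intro ρ hρ
      obtain ⟨hρ1, π, hπ, hadj⟩ := mem_filter.1 hρ
      rw [mem_union, mem_union, mem_filter, mem_filter, mem_filter]
      rcases hcov ρ hρ1 π hπ hadj with h | h | h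
      · exact Or.inl ⟨hρ1, h⟩
      · exact Or.inr (Or.inl ⟨hρ1, h⟩)
      · exact Or.inr (Or.inr ⟨hρ1, h⟩)
    have c1 := card_le_card hsub
    have c2 := card_union_le ((coset M₁ σ₁).filter (fun ρ => ρ q₁ = v₁))
      ((coset M₁ σ₁).filter (fun ρ => ρ q₂ = v₂) ∪ (coset M₁ σ₁).filter (fun ρ => ρ q₃ = v₃))
    have c3 := card_union_le ((coset M₁ σ₁).filter (fun ρ => ρ q₂ = v₂))
      ((coset M₁ σ₁).filter (fun ρ => ρ q₃ = v₃))
    have c4 := card_val_le σ₁ h1 hq₁ v₁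
    have c5 := card_val_le σ₁ h1 hq₂ v₂
    have c6 := card_val_le σ₁ h1 hq₃ v₃
    omega
  -- some element has a neighbour
  have hex : ∃ ρ ∈ coset M₁ σ₁, ∃ π ∈ coset M₂ σ₂, adj ρ π := by
    have : 0 < ((coset M₁ σ₁).filter (fun ρ => ∃ π ∈ coset M₂ σ₂, adj ρ π)).card := by omega
    obtain ⟨ρ, hρ⟩ := card_pos.1 this
    exact ⟨ρ, (mem_filter.1 hρ).1, (mem_filter.1 hρ).2⟩
  have hkpos : (M₁ ∩ M₂).card + (M₁ \ M₂).card = k := by
    rw [← h1]
    exact card_inter_add_card_sdiff M₁ M₂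
  have hkpos' : (M₂ ∩ M₁).card + (M₂ \ M₁).card = k := by
    rw [← h2]
    exact card_inter_add_card_sdiff M₂ M₁
  rw [inter_comm] at hkpos'
  obtain ht | ht | ht | ht : (M₁ \ M₂).card = 0 ∨ (M₁ \ M₂).card = 1 ∨ (M₁ \ M₂).card = 2 ∨
      2 < (M₁ \ M₂).card := by omega
  · -- `M₁ = M₂`
    have hM : M₁ = M₂ := by
      apply eq_of_subset_of_card_le
      · exact sdiff_eq_empty_iff_subset.1 (card_eq_zero.1 ht)
      · omega
    subst hM
    set Δ : Finset (Fin n) := univ.filter (fun y => y ∉ M₁ ∧ σ₁ y ≠ σ₂ y) with hΔ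
    have hmem : ∀ y, y ∈ Δ ↔ y ∉ M₁ ∧ σ₁ y ≠ σ₂ y := by
      intro y
      simp [hΔ]
    have hmove : ∀ ρ ∈ coset M₁ σ₁, ∀ π ∈ coset M₁ σ₂, ∀ y ∈ Δ, ρ y ≠ π y := by
      intro ρ hρ π hπ y hy
      obtain ⟨hy1, hy2⟩ := (hmem y).1 hy
      rw [mem_coset.1 hρ y hy1, mem_coset.1 hπ y hy1]
      exact hy2
    obtain hd | hd | hd | hd : Δ.card = 0 ∨ Δ.card = 1 ∨ Δ.card = 2 ∨ 2 < Δ.card := by omega
    · exfalso
      apply hne
      have hall : ∀ y, y ∉ M₁ → σ₁ y = σ₂ y := by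
        intro y hy
        by_contra hc
        have : y ∈ Δ := (hmem y).2 ⟨hy, hc⟩
        rw [card_eq_zero.1 hd] at this
        simp at this
      ext ρ
      rw [mem_coset, mem_coset]
      constructor
      · intro h q hq
        rw [h q hq, hall q hq]
      · intro h q hq
        rw [h q hq, hall q hq]
    · obtain ⟨y, hy⟩ := card_eq_one.1 hd
      have hyΔ : y ∈ Δ := by rw [hy]; exact mem_singleton_self y
      obtain ⟨hy1, hy2⟩ := (hmem y).1 hyΔ
      have hall : ∀ x, x ∉ M₁ → x ≠ y → σ₁ x = σ₂ x := by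
        intro x hx hxy
        by_contra hc
        have : x ∈ Δ := (hmem x).2 ⟨hx, hc⟩
        rw [hy, mem_singleton] at this
        exact hxy this
      apply concl
      intro ρ hρ
      have hρ' := mem_coset.1 hρ
      refine ⟨?_, ρ * swap y (ρ⁻¹ (σ₂ y)), ?_, ?_⟩
      · intro h
        apply hy2
        rw [← hρ' y hy1, mem_coset.1 h y hy1]
      · have hz : ρ (ρ⁻¹ (σ₂ y)) = σ₂ y := by simp
        have hzM : ρ⁻¹ (σ₂ y) ∈ M₁ := by
          by_contra hzM
          have hzy : ρ⁻¹ (σ₂ y) ≠ y := by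
            intro h
            rw [h] at hz
            apply hy2
            rw [← hρ' y hy1, hz]
          rw [hρ' _ hzM, hall _ hzM hzy] at hz
          exact hzy (σ₂.injective hz)
        rw [mem_coset]
        intro x hx
        rw [Perm.mul_apply]
        by_cases hxy : x = y
        · rw [hxy, swap_apply_left, hz]
        · rw [swap_apply_of_ne_of_ne hxy, hρ' x hx, hall x hx hxy]
          rintro rfl
          exact hx hzM
      · refine ⟨y, ρ⁻¹ (σ₂ y), ?_, rfl⟩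
        intro h
        apply hy2
        rw [← hρ' y hy1]
        have hz : ρ (ρ⁻¹ (σ₂ y)) = σ₂ y := by simp
        rw [← h] at hz
        exact hz
    · obtain ⟨a, b, hab, hΔab⟩ := card_eq_two.1 hd
      have haΔ : a ∈ Δ := by rw [hΔab]; simp
      have hbΔ : b ∈ Δ := by rw [hΔab]; simp
      obtain ⟨ha1, ha2⟩ := (hmem a).1 haΔ
      obtain ⟨hb1, hb2⟩ := (hmem b).1 hbΔ
      have hall : ∀ x, x ∉ M₁ → x ≠ a → x ≠ b → σ₁ x = σ₂ x := by
        intro x hx hxa hxb
        by_contra hc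
        have : x ∈ Δ := (hmem x).2 ⟨hx, hc⟩
        rw [hΔab, mem_insert, mem_singleton] at this
        rcases this with h | h
        · exact hxa h
        · exact hxb h
      obtain ⟨ρ₀, hρ₀, π₀, hπ₀, hadj₀⟩ := hex
      have hπeq := two_moved hadj₀ hab (hmove ρ₀ hρ₀ π₀ hπ₀ a haΔ) (hmove ρ₀ hρ₀ π₀ hπ₀ b hbΔ)
      have e1 : σ₁ b = σ₂ a := by
        rw [← mem_coset.1 hρ₀ b hb1, ← mem_coset.1 hπ₀ a ha1, hπeq, Perm.mul_apply,
          swap_apply_left]
      have e2 : σ₁ a = σ₂ b := by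
        rw [← mem_coset.1 hρ₀ a ha1, ← mem_coset.1 hπ₀ b hb1, hπeq, Perm.mul_apply,
          swap_apply_right]
      apply concl
      intro ρ hρ
      have hρ' := mem_coset.1 hρ
      refine ⟨?_, ρ * swap a b, ?_, ⟨a, b, hab, rfl⟩⟩
      · intro h
        apply ha2
        rw [← hρ' a ha1, mem_coset.1 h a ha1]
      · rw [mem_coset]
        intro x hx
        rw [Perm.mul_apply]
        by_cases hxa : x = a
        · rw [hxa, swap_apply_left, hρ' b hb1, e1]
        · by_cases hxb : x = b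
          · rw [hxb, swap_apply_right, hρ' a ha1, e2]
          · rw [swap_apply_of_ne_of_ne hxa hxb, hρ' x hx, hall x hx hxa hxb]
    · exfalso
      obtain ⟨a, b, c, ha, hb, hc, hab, hac, hbc⟩ := two_lt_card_iff.1 hd
      obtain ⟨ρ₀, hρ₀, π₀, hπ₀, hadj₀⟩ := hex
      exact three_moved hadj₀ hab hac hbc (hmove ρ₀ hρ₀ π₀ hπ₀ a ha) (hmove ρ₀ hρ₀ π₀ hπ₀ b hb)
        (hmove ρ₀ hρ₀ π₀ hπ₀ c hc)
  · -- `t = 1`
    obtain ⟨q, hq⟩ := card_eq_one.1 ht
    have hqT : q ∈ M₁ \ M₂ := by rw [hq]; exact mem_singleton_self q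
    obtain ⟨hq1, hq2⟩ := mem_sdiff.1 hqT
    have ht' : (M₂ \ M₁).card = 1 := by omega
    obtain ⟨q', hq'⟩ := card_eq_one.1 ht'
    have hqT' : q' ∈ M₂ \ M₁ := by rw [hq']; exact mem_singleton_self q'
    obtain ⟨hq2', hq1'⟩ := mem_sdiff.1 hqT'
    have hqq : q ≠ q' := by
      rintro rfl
      exact hq1' hq1
    -- off `M₂` means off the union or `q`
    have hoff : ∀ x, x ∉ M₂ → x ≠ q → x ∉ M₁ := by
      intro x hx hxq h
      have : x ∈ M₁ \ M₂ := mem_sdiff.2 ⟨h, hx⟩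
      rw [hq, mem_singleton] at this
      exact hxq this
    have hoff' : ∀ x, x ∉ M₁ → x ≠ q' → x ∉ M₂ := by
      intro x hx hxq h
      have : x ∈ M₂ \ M₁ := mem_sdiff.2 ⟨h, hx⟩
      rw [hq', mem_singleton] at this
      exact hxq this
    by_cases hy : ∃ y, y ∉ M₁ ∧ y ∉ M₂ ∧ σ₁ y ≠ σ₂ y
    · exfalso
      obtain ⟨y, hy1, hy2, hy3⟩ := hy
      apply key q q q (σ₂ q) (σ₂ y) (σ₂ y) hq1 hq1 hq1
      intro ρ hρ π hπ hadj
      by_cases hc : ρ q = σ₂ q
      · exact Or.inl hc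
      · right; left
        have m1 : ρ q ≠ π q := by rw [mem_coset.1 hπ q hq2]; exact hc
        have m2 : ρ y ≠ π y := by
          rw [mem_coset.1 hπ y hy2, mem_coset.1 hρ y hy1]
          exact hy3
        have hqy : q ≠ y := by
          rintro rfl
          exact hy1 hq1
        have := two_moved hadj hqy m1 m2
        rw [← mem_coset.1 hπ y hy2, this, Perm.mul_apply, swap_apply_right]
    · push Not at hy
      by_cases hcase : ∃ y ∈ M₁, σ₁ y = σ₂ q
      · exfalso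
        obtain ⟨y, hyM, hyv⟩ := hcase
        have hρ₀ : σ₁ * swap q y ∈ coset M₁ σ₁ := by
          rw [mem_coset]
          intro x hx
          rw [Perm.mul_apply, swap_apply_of_ne_of_ne]
          · rintro rfl
            exact hx hq1
          · rintro rfl
            exact hx hyM
        have hval : (σ₁ * swap q y) q = σ₂ q := by
          rw [Perm.mul_apply, swap_apply_left, hyv]
        have hcard := val_eq σ₁ h1 hq1 hρ₀
        rw [hval] at hcard
        have hsub : (coset M₁ σ₁).filter (fun ρ => ρ q = σ₂ q) ⊆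
            coset M₁ σ₁ ∩ coset M₂ σ₂ := by
          intro ρ hρ
          obtain ⟨hρ1, hρ2⟩ := mem_filter.1 hρ
          rw [mem_inter]
          refine ⟨hρ1, ?_⟩
          rw [mem_coset]
          intro x hx
          by_cases hxq : x = q
          · rw [hxq, hρ2]
          · rw [mem_coset.1 hρ1 x (hoff x hx hxq), hy x (hoff x hx hxq) hx]
        have := card_le_card hsub
        omega
      · push Not at hcase
        -- the value `σ₂ q` is taken by `σ₁` at `q'`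
        have hv : σ₁ q' = σ₂ q := by
          obtain ⟨z, hz⟩ := σ₁.surjective (σ₂ q)
          have hzM : z ∉ M₁ := fun h => hcase z h hz
          by_cases hzq : z = q'
          · rw [← hzq, hz]
          · exfalso
            have hz2 := hoff' z hzM hzq
            rw [hy z hzM hz2] at hz
            have := σ₂.injective hz
            rw [this] at hzM
            exact hzM hq1
        apply concl
        intro ρ hρ
        have hρ' := mem_coset.1 hρ
        have hρq' : ρ q' = σ₂ q := by rw [hρ' q' hq1', hv]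
        refine ⟨?_, ρ * swap q q', ?_, ⟨q, q', hqq, rfl⟩⟩
        · intro h
          have := mem_coset.1 h q hq2
          rw [← hρq'] at this
          exact hqq (ρ.injective this)
        · rw [mem_coset]
          intro x hx
          rw [Perm.mul_apply]
          by_cases hxq : x = q
          · rw [hxq, swap_apply_left, hρq']
          · have hxq' : x ≠ q' := by
              rintro rfl
              exact hx hq2'
            rw [swap_apply_of_ne_of_ne hxq hxq', hρ' x (hoff x hx hxq),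
              hy x (hoff x hx hxq) hx]
  · -- `t = 2`
    exfalso
    obtain ⟨a, b, hab, hT⟩ := card_eq_two.1 ht
    have haT : a ∈ M₁ \ M₂ := by rw [hT]; simp
    have hbT : b ∈ M₁ \ M₂ := by rw [hT]; simp
    obtain ⟨ha1, ha2⟩ := mem_sdiff.1 haT
    obtain ⟨hb1, hb2⟩ := mem_sdiff.1 hbT
    apply key a b b (σ₂ a) (σ₂ b) (σ₂ a) ha1 hb1 hb1
    intro ρ hρ π hπ hadj
    by_cases hca : ρ a = σ₂ a
    · exact Or.inl hca
    · by_cases hcb : ρ b = σ₂ b
      · exact Or.inr (Or.inl hcb)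
      · right; right
        have m1 : ρ a ≠ π a := by rw [mem_coset.1 hπ a ha2]; exact hca
        have m2 : ρ b ≠ π b := by rw [mem_coset.1 hπ b hb2]; exact hcb
        have := two_moved hadj hab m1 m2
        rw [← mem_coset.1 hπ a ha2, this, Perm.mul_apply, swap_apply_left]
  · -- `t ≥ 3`
    exfalso
    obtain ⟨a, b, c, ha, hb, hc, hab, hac, hbc⟩ := two_lt_card_iff.1 ht
    obtain ⟨ha1, ha2⟩ := mem_sdiff.1 ha
    obtain ⟨hb1, hb2⟩ := mem_sdiff.1 hb
    obtain ⟨hc1, hc2⟩ := mem_sdiff.1 hc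
    apply key a b c (σ₂ a) (σ₂ b) (σ₂ c) ha1 hb1 hc1
    intro ρ hρ π hπ hadj
    by_contra hcon
    push Not at hcon
    obtain ⟨n1, n2, n3⟩ := hcon
    refine three_moved hadj hab hac hbc ?_ ?_ ?_
    · rw [mem_coset.1 hπ a ha2]; exact n1
    · rw [mem_coset.1 hπ b hb2]; exact n2
    · rw [mem_coset.1 hπ c hc2]; exact n3

end Pool.H60.NM
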