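import Pool.Agent.H60.TranspLex

set_option autoImplicit false

/-!
# Inversions

For `σ` in a lexicographically down-closed set `X` and `i < j` with `σ j < σ i` the permutation
`σ * swap i j` is smaller, hence in `X`. `D X = ∑ σ ∈ X, #{i < j | σ * swap i j ∈ X}`
(`card_pairs_mem`), the pairs with `σ j < σ i` give `inv σ`; the pairs with `σ i < σ j` are
in bijection with the first kind by `(σ, (i, j)) ↦ (σ * swap i j, (i, j))`.
-/

open Finset Equiv Pool.H60.Transp

namespace Pool.H60.NM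

/-- the number of inversions -/
def inv {n : ℕ} (σ : Perm (Fin n)) : ℕ := ((pairs n).filter (fun p => σ p.2 < σ p.1)).card

private theorem Inv_lex {n : ℕ} (σ : Perm (Fin n)) {i j : Fin n} (hij : i < j) (h : σ j < σ i) :
    lexLT (σ * Equiv.swap i j) σ := by
  refine ⟨i, fun l hl => ?_, ?_⟩
  · rw [Perm.mul_apply, swap_apply_of_ne_of_ne hl.ne (hl.trans hij).ne]
  · rw [Perm.mul_apply, swap_apply_left]
    exact h

private theorem Inv_swap {n : ℕ} (X : Finset (Perm (Fin n))) (i j : Fin n) :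
    (X.filter (fun σ => ¬ σ j < σ i ∧ σ * Equiv.swap i j ∈ X ∧ i < j)).card =
      (X.filter (fun σ => σ j < σ i ∧ σ * Equiv.swap i j ∈ X ∧ i < j)).card := by
  classical
  refine Finset.card_bij' (fun σ _ => σ * Equiv.swap i j) (fun σ _ => σ * Equiv.swap i j)
    ?_ ?_ ?_ ?_
  · intro σ hσ
    rw [mem_filter] at hσ ⊢
    obtain ⟨h1, h2, h3, h4⟩ := hσ
    refine ⟨h3, ?_, ?_, h4⟩
    · rw [Perm.mul_apply, Perm.mul_apply, swap_apply_left, swap_apply_right]
      exact lt_of_le_of_ne (not_lt.1 h2) fun h => h4.ne (σ.injective h)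
    · rw [mul_assoc, swap_mul_self, mul_one]
      exact h1
  · intro σ hσ
    rw [mem_filter] at hσ ⊢
    obtain ⟨h1, h2, h3, h4⟩ := hσ
    refine ⟨h3, ?_, ?_, h4⟩
    · rw [Perm.mul_apply, Perm.mul_apply, swap_apply_left, swap_apply_right]
      exact not_lt.2 h2.le
    · rw [mul_assoc, swap_mul_self, mul_one]
      exact h1
  · intro σ _
    rw [mul_assoc, swap_mul_self, mul_one]
  · intro σ _
    rw [mul_assoc, swap_mul_self, mul_one]

theorem D_down {n : ℕ} (X : Finset (Perm (Fin n)))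
    (hX : ∀ σ ∈ X, ∀ π, lexLT π σ → π ∈ X) : D X = 2 * ∑ σ ∈ X, inv σ := by
  classical
  have h1 : D X = ∑ σ ∈ X, ((pairs n).filter (fun p => σ * Equiv.swap p.1 p.2 ∈ X)).card := by
    rw [D]
    exact Finset.sum_congr rfl fun σ _ => (card_pairs_mem X σ).symm
  have h2 : ∀ σ ∈ X, ((pairs n).filter (fun p => σ * Equiv.swap p.1 p.2 ∈ X)).card =
      ((pairs n).filter (fun p => σ p.2 < σ p.1 ∧ σ * Equiv.swap p.1 p.2 ∈ X ∧ p.1 < p.2)).card +
      ((pairs n).filter (fun p => ¬ σ p.2 < σ p.1 ∧ σ * Equiv.swap p.1 p.2 ∈ X ∧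
        p.1 < p.2)).card := by
    intro σ _
    rw [← Finset.card_filter_add_card_filter_not (s := (pairs n).filter
      (fun p => σ * Equiv.swap p.1 p.2 ∈ X)) (fun p => σ p.2 < σ p.1), Finset.filter_filter,
      Finset.filter_filter]
    congr 2
    · refine Finset.filter_congr fun p hp => ?_
      have hp' : p.1 < p.2 := (mem_filter.1 hp).2
      constructor
      · rintro ⟨h3, h4⟩
        exact ⟨h4, h3, hp'⟩
      · rintro ⟨h4, h3, _⟩
        exact ⟨h3, h4⟩
    · refine Finset.filter_congr fun p hp => ?_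
      have hp' : p.1 < p.2 := (mem_filter.1 hp).2
      constructor
      · rintro ⟨h3, h4⟩
        exact ⟨h4, h3, hp'⟩
      · rintro ⟨h4, h3, _⟩
        exact ⟨h3, h4⟩
  have h3 : ∀ σ ∈ X, ((pairs n).filter (fun p => σ p.2 < σ p.1 ∧
      σ * Equiv.swap p.1 p.2 ∈ X ∧ p.1 < p.2)).card = inv σ := by
    intro σ hσ
    rw [inv]
    congr 1
    refine Finset.filter_congr fun p hp => ?_
    have hp' : p.1 < p.2 := (mem_filter.1 hp).2
    exact ⟨fun h => h.1, fun h => ⟨h, hX σ hσ _ (Inv_lex σ hp' h), hp'⟩⟩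
  have h4 : ∑ σ ∈ X, ((pairs n).filter (fun p => ¬ σ p.2 < σ p.1 ∧
      σ * Equiv.swap p.1 p.2 ∈ X ∧ p.1 < p.2)).card =
      ∑ σ ∈ X, ((pairs n).filter (fun p => σ p.2 < σ p.1 ∧
      σ * Equiv.swap p.1 p.2 ∈ X ∧ p.1 < p.2)).card := by
    simp only [Finset.card_filter]
    rw [Finset.sum_comm, Finset.sum_comm (s := X)]
    refine Finset.sum_congr rfl fun p _ => ?_
    rw [← Finset.card_filter, ← Finset.card_filter]
    exact Inv_swap X p.1 p.2
  rw [h1, Finset.sum_congr rfl h2, Finset.sum_add_distrib, h4, Finset.sum_congr rfl h3, two_mul]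

end Pool.H60.NM
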