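import Pool.Agent.H60.NM.Sys

set_option autoImplicit false

/-!
# The cosets of a system are pairwise disjoint and matched

Put `K = k!`, `g = Gs k j`, `C = k choose 2`, `δ = 2 g / k`, `m = |A|`, `bᵢ = |B i|`, `N := P.nums`.
From `hdev`, `A ⊇ ⋃ B i` (disjoint) and `|Q i| = K`: `|A| ≥ ∑ bᵢ`, `bᵢ ≤ K`, so
`K - bᵢ ≤ δ`, and `(K - bᵢ) + (K - bᵢ') ≤ δ` for `i ≠ i'`.
1. `|Q i ∩ Q i'| ≤ δ` for `i ≠ i'`: an element of both is in `Q i \ B i` or in `Q i' \ B i'`.
2. `K / 2 < cross (B i) (B i')`. Suppose not. By `D_filter` with `p σ := σ ∈ B i`: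
   `D A = D (B i) + D (A \ B i) + 2 cross (B i) (A \ B i)` (up to the order of the arguments of
   `cross`, `cross_comm`). Count from `A \ B i`: an element outside `Q i` has at most one
   neighbour in `Q i ⊇ B i` (`IsCos.nb`), an element in `Q i \ B i` at most `C`
   (`IsCos.degree`), so `cross (A \ B i) (B i) ≤ cross (B i') (B i) + (m - bᵢ - bᵢ') + C δ`.
   With `0 ≤ df k (B i)`, `0 ≤ df k (A \ B i)` (`df_nonneg`, `df_eq`) and
   `ph k m - ph k (m - b) - ph k b = 2 b (m - b) / K`: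
   `df k A ≥ 2 [(m - bᵢ) (bᵢ / K - 1) + bᵢ' - C δ - K / 2] ≥ K - 2 (1 + k + C) δ`
   (`m ≤ k K`, `K - bᵢ ≤ δ`), and this is `≥ g` by the numbers (`(k + 1) ^ 2 (k + 3) g < K` is
   `N.hKbig` with `N.hH`, `C = k (k - 1) / 2`, `k ≥ 9`): a contradiction.
3. The elements of `Q i` with a neighbour in `Q i'`:
   `cross (B i) (B i') ≤ #{ρ ∈ Q i \ Q i' with a neighbour in Q i'} + C |Q i ∩ Q i'|`, so their
   number is `> K / 2 - C δ ≥ K / 3 ≥ 3 (k - 1)!` (`K = k (k - 1)!`, `k ≥ 9`).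
4. `matched` (in `Pair.lean`), with `|Q i ∩ Q i'| ≤ δ < (k - 1)!` and `Q i ≠ Q i'` (since
   `|Q i| = K > (k - 1)!`), gives the conclusion.
-/

open Finset Equiv Pool.H60.Transp

namespace Pool.H60.NM

variable {n k j : ℕ} {U : ℕ → ℝ}

private lemma sum_card_le {A : Finset (Perm (Fin n))} {ι : Type} [Fintype ι]
    {B : ι → Finset (Perm (Fin n))} (hA : ∀ i, B i ⊆ A)
    (hdis : ∀ i i', i ≠ i' → Disjoint (B i) (B i')) : ∑ i, (B i).card ≤ A.card := by
  classical
  rw [← Finset.card_biUnion (fun i _ i' _ h => hdis i i' h)]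
  exact Finset.card_le_card (Finset.biUnion_subset.2 (fun i _ => hA i))

private lemma pair_le {ι : Type} [Fintype ι] {x : ι → ℝ} (hx : ∀ i, 0 ≤ x i) {δ : ℝ}
    (h : ∑ i, x i ≤ δ) {i i' : ι} (hne : i ≠ i') : x i + x i' ≤ δ := by
  classical
  refine le_trans ?_ h
  rw [← Finset.sum_pair hne]
  exact Finset.sum_le_sum_of_subset_of_nonneg (Finset.subset_univ _) (fun _ _ _ => hx _)

open Classical in
private lemma cross_rest {Q B B' A : Finset (Perm (Fin n))} (hc : IsCos k Q) (hB : B ⊆ Q)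
    (hBA : B ⊆ A) (hB' : B' ⊆ A) (hd : Disjoint B B') :
    cross (A \ B) B + B.card + B'.card
      ≤ cross B' B + A.card + k.choose 2 * (Q \ B).card := by
  have h1 : cross (A \ B) B ≤ ∑ σ ∈ A \ B, ((if σ ∈ B' then ∑ π ∈ B, e σ π else 1)
      + (if σ ∈ Q then k.choose 2 else 0)) := by
    unfold cross
    apply Finset.sum_le_sum
    intro σ _
    have hsub : ∑ π ∈ B, e σ π ≤ ∑ π ∈ Q, e σ π := Finset.sum_le_sum_of_subset hB
    by_cases hσ' : σ ∈ B'
    · rw [if_pos hσ']
      omega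
    · rw [if_neg hσ']
      by_cases hσ : σ ∈ Q
      · rw [if_pos hσ]
        have := hc.degree hσ
        omega
      · rw [if_neg hσ]
        have := hc.nb hσ
        omega
  rw [Finset.sum_add_distrib, Finset.sum_ite, ← Finset.sum_filter, ← Finset.card_eq_sum_ones,
    Finset.sum_const, smul_eq_mul] at h1
  have h2 : (A \ B).filter (fun σ => σ ∈ B') = B' := by
    ext σ
    simp only [mem_filter, mem_sdiff]
    constructor
    · exact fun h => h.2
    · intro h
      exact ⟨⟨hB' h, fun h' => (Finset.disjoint_left.1 hd) h' h⟩, h⟩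
  have h3 := Finset.card_filter_add_card_filter_not (s := A \ B) (fun σ => σ ∈ B')
  have h4 := Finset.card_sdiff_add_card_eq_card hBA
  have h5 : ((A \ B).filter (fun σ => σ ∈ Q)).card ≤ (Q \ B).card := by
    apply Finset.card_le_card
    intro σ hσ
    rw [mem_filter, mem_sdiff] at hσ
    exact mem_sdiff.2 ⟨hσ.2, hσ.1.2⟩
  have h6 : ((A \ B).filter (fun σ => σ ∈ Q)).card * k.choose 2
      ≤ k.choose 2 * (Q \ B).card := by
    rw [mul_comm]
    exact Nat.mul_le_mul_left _ h5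
  rw [h2] at h1 h3
  have h7 : ∑ σ ∈ B', ∑ π ∈ B, e σ π = cross B' B := rfl
  rw [h7] at h1
  omega

open Classical in
private lemma cross_nb {Q Q' B B' : Finset (Perm (Fin n))} (hc : IsCos k Q') (hB : B ⊆ Q)
    (hB' : B' ⊆ Q') :
    cross B B' ≤ (Q.filter (fun ρ => ∃ π ∈ Q', adj ρ π)).card
      + k.choose 2 * (Q ∩ Q').card := by
  have h0 : cross B B' ≤ ∑ ρ ∈ Q, ∑ π ∈ Q', e ρ π := by
    unfold cross
    refine le_trans (Finset.sum_le_sum_of_subset hB) ?_
    exact Finset.sum_le_sum (fun ρ _ => Finset.sum_le_sum_of_subset hB')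
  have h1 : ∑ ρ ∈ Q, ∑ π ∈ Q', e ρ π ≤ ∑ ρ ∈ Q, ((if ∃ π ∈ Q', adj ρ π then 1 else 0)
      + (if ρ ∈ Q' then k.choose 2 else 0)) := by
    apply Finset.sum_le_sum
    intro ρ _
    by_cases hρ : ρ ∈ Q'
    · rw [if_pos hρ, hc.degree hρ]
      omega
    · have h2 := hc.nb hρ
      rw [if_neg hρ]
      by_cases hex : ∃ π ∈ Q', adj ρ π
      · rw [if_pos hex]
        omega
      · rw [if_neg hex]
        have h3 : ∑ π ∈ Q', e ρ π = 0 := by
          apply Finset.sum_eq_zero
          intro π hπ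
          rw [e_eq, if_neg (fun h => hex ⟨π, hπ, h⟩)]
        omega
  rw [Finset.sum_add_distrib, ← Finset.card_filter, ← Finset.sum_filter, Finset.sum_const,
    smul_eq_mul, Finset.filter_mem_eq_inter, mul_comm (Q ∩ Q').card] at h1
  exact le_trans h0 h1

/-- the numbers -/
private lemma big (P : Par k j U) :
    ((k : ℝ) + 1) ^ 2 * ((k : ℝ) + 3) * Gs k j + 4 * Gs k j < (k.factorial : ℕ) := by
  have N := P.nums
  have h := N.hKbig
  rw [N.hI, N.hH] at h
  have e1 : ((k : ℝ) + 1) * Gs k j * (((k : ℝ) + 1) * ((k : ℝ) + 3))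
      = ((k : ℝ) + 1) ^ 2 * ((k : ℝ) + 3) * Gs k j := by ring
  linarith

private lemma g_pos (P : Par k j U) : 0 < Gs k j := by
  have N := P.nums
  linarith [N.hC36, N.hgC]

open Classical in
/-- step 2 -/
private lemma many_edges (P : Par k j U) {Q B Q' B' A : Finset (Perm (Fin n))}
    (hm : 2 * (A.card : ℝ) ≤ ((k : ℝ) - 1) * (k.factorial : ℕ)
      + 2 * (((j + 1).factorial : ℕ) + Gs k j))
    (hdf : df k A < Gs k j) (hc : IsCos k Q) (hc' : IsCos k Q') (hB : B ⊆ Q) (hB' : B' ⊆ Q')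
    (hBA : B ⊆ A) (hBA' : B' ⊆ A) (hd : Disjoint B B')
    (hx : ((k.factorial : ℕ) - (B.card : ℝ)) + ((k.factorial : ℕ) - (B'.card : ℝ))
      ≤ 2 * Gs k j / k) :
    ((k.factorial : ℕ) : ℝ) / 2 < cross B B' := by
  by_contra hcon
  rw [not_lt, cross_comm] at hcon
  have N := P.nums
  have hbig := big P
  have hg := g_pos P
  have hk9 := N.hk
  have hk1 : 1 ≤ k := by have := P.hk; omega
  have h1 := cross_rest hc hB hBA hBA' hd
  have h2 := D_filter A (fun σ => σ ∈ B)
  have e1 : A.filter (fun σ => σ ∈ B) = B := by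
    ext σ
    simp only [mem_filter]
    exact ⟨fun h => h.2, fun h => ⟨hBA h, h⟩⟩
  have e2 : A.filter (fun σ => ¬ σ ∈ B) = A \ B := by ext; simp
  rw [e1, e2] at h2
  have h3 := df_nonneg hk1 B
  have h4 := df_nonneg hk1 (A \ B)
  have hcA : ((A \ B).card : ℝ) = (A.card : ℝ) - B.card := by
    have := Finset.card_sdiff_add_card_eq_card hBA
    have : ((A \ B).card : ℝ) + B.card = A.card := by exact_mod_cast this
    linarith
  have hcQ : ((Q \ B).card : ℝ) = ((k.factorial : ℕ) : ℝ) - B.card := by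
    have := Finset.card_sdiff_add_card_eq_card hB
    have : ((Q \ B).card : ℝ) + B.card = Q.card := by exact_mod_cast this
    rw [hc.card_eq] at this
    linarith
  have hbK : (B.card : ℝ) ≤ (k.factorial : ℕ) := by
    have := Finset.card_le_card hB
    rw [hc.card_eq] at this
    exact_mod_cast this
  have hbK' : (B'.card : ℝ) ≤ (k.factorial : ℕ) := by
    have := Finset.card_le_card hB'
    rw [hc'.card_eq] at this
    exact_mod_cast this
  have r1 : (cross (A \ B) B : ℝ) + B.card + B'.card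
      ≤ cross B' B + A.card + (k.choose 2 : ℕ) * (((k.factorial : ℕ) : ℝ) - B.card) := by
    rw [← hcQ]
    exact_mod_cast h1
  have r2 : (D A : ℝ) = D B + D (A \ B) + 2 * cross (A \ B) B := by exact_mod_cast h2
  have hK := fac_pos k
  rw [df_eq] at h3 h4 hdf
  rw [hcA] at h4
  unfold ph at h3 h4 hdf
  have hC := N.hC
  have hD := N.hD
  have hgD := N.hgD
  set K : ℝ := ((k.factorial : ℕ) : ℝ) with hKdef
  set C : ℝ := ((k.choose 2 : ℕ) : ℝ) with hCdef
  set g : ℝ := Gs k j with hgdef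
  set m : ℝ := (A.card : ℝ) with hmdef
  set b : ℝ := (B.card : ℝ) with hbdef
  set b' : ℝ := (B'.card : ℝ) with hbdef'
  set kk : ℝ := (k : ℝ) with hkk
  set d : ℝ := (((j + 1).factorial : ℕ) : ℝ) with hddef
  have hb0 : 0 ≤ b := Nat.cast_nonneg _
  have hmb : b ≤ m := by
    have := Finset.card_le_card hBA
    rw [hbdef, hmdef]
    exact_mod_cast this
  -- `m ≤ k K`
  have hmK : m ≤ kk * K := by
    have h5 : d ≤ g := by nlinarith
    have h6 : (0 : ℝ) ≤ (kk + 1) ^ 2 * (kk + 3) * g := by positivity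
    have h7 : 4 * g < K := by linarith
    have h8 : 0 ≤ kk * K := by positivity
    nlinarith
  have e3 : m ^ 2 / K - b ^ 2 / K - (m - b) ^ 2 / K = 2 * (m - b) - 2 * ((K - b) * ((m - b) / K)) := by
    field_simp
    ring
  have h6 : (m - b) / K ≤ kk := by
    rw [div_le_iff₀ hK]
    linarith
  have h7 : (K - b) * ((m - b) / K) ≤ (K - b) * kk :=
    mul_le_mul_of_nonneg_left h6 (by linarith)
  -- the bound
  have h8 : K - 2 * (K - b') - 2 * (kk + C) * (K - b) < g := by
    nlinarith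
  have h9 : (K - b') + (K - b) ≤ 2 * g / kk := by linarith
  have hk0 : 0 < kk := by linarith
  have h10 : 2 * (kk + C) * (2 * g / kk) = 2 * (kk + 1) * g := by
    rw [hC]
    field_simp
    ring
  have h11 : 2 * (K - b') + 2 * (kk + C) * (K - b) ≤ 2 * (kk + C) * (2 * g / kk) := by
    have h12 : 2 * (K - b') + 2 * (kk + C) * (K - b)
        ≤ 2 * (kk + C) * ((K - b') + (K - b)) := by
      have hC36 := N.hC36
      nlinarith
    have hC36 := N.hC36
    exact le_trans h12 (mul_le_mul_of_nonneg_left h9 (by linarith))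
  rw [h10] at h11
  have h13 : (2 * (kk + 1) + 1) * g < K := by
    have h14 : 2 * (kk + 1) + 1 ≤ (kk + 1) ^ 2 * (kk + 3) := by nlinarith
    have h15 := mul_le_mul_of_nonneg_right h14 hg.le
    linarith
  linarith

theorem sys_fam (P : Par k j U) (A : Finset (Perm (Fin n)))
    (hm : 2 * (A.card : ℝ) ≤ ((k : ℝ) - 1) * (k.factorial : ℕ)
      + 2 * (((j + 1).factorial : ℕ) + Gs k j))
    (hdf : df k A < Gs k j) {ι : Type} [Fintype ι] {Q B : ι → Finset (Perm (Fin n))}
    (hcos : ∀ i, IsCos k (Q i)) (hQ : ∀ i, B i ⊆ Q i) (hA : ∀ i, B i ⊆ A)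
    (hdis : ∀ i i', i ≠ i' → Disjoint (B i) (B i'))
    (hdev : (A.card : ℝ) + Fintype.card ι * (k.factorial : ℕ) - 2 * ∑ i, ((B i).card : ℝ)
      ≤ 2 * Gs k j / k) : Fam k Q := by
  classical
  have N := P.nums
  have hbig := big P
  have hg := g_pos P
  have hk9 := N.hk
  have hk9' := P.hk
  have hbK : ∀ i, ((B i).card : ℝ) ≤ (k.factorial : ℕ) := by
    intro i
    have := Finset.card_le_card (hQ i)
    rw [(hcos i).card_eq] at this
    exact_mod_cast this
  have hsum : ∑ i, (((k.factorial : ℕ) : ℝ) - ((B i).card : ℝ)) ≤ 2 * Gs k j / k := by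
    have h1 := sum_card_le hA hdis
    have h2 : ∑ i, ((B i).card : ℝ) ≤ A.card := by exact_mod_cast h1
    rw [Finset.sum_sub_distrib, Finset.sum_const, Finset.card_univ, nsmul_eq_mul]
    linarith
  have hpair : ∀ i i', i ≠ i' → (((k.factorial : ℕ) : ℝ) - ((B i).card : ℝ))
      + (((k.factorial : ℕ) : ℝ) - ((B i').card : ℝ)) ≤ 2 * Gs k j / k := by
    intro i i' hne
    exact pair_le (x := fun i => ((k.factorial : ℕ) : ℝ) - ((B i).card : ℝ))
      (fun i => by have := hbK i; linarith) hsum hne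
  have hk0 : (0 : ℝ) < k := by linarith
  have hfac : ((k.factorial : ℕ) : ℝ) = k * ((k - 1).factorial : ℕ) := by
    have := Nat.mul_factorial_pred (show k ≠ 0 by omega)
    rw [← this]
    push_cast
    rfl
  have hmat : ∀ i i', i ≠ i' → ∀ ρ ∈ Q i, ρ ∉ Q i' ∧ ∑ π ∈ Q i', e ρ π = 1 := by
    intro i i' hne
    have hx := hpair i i' hne
    have hedge := many_edges P hm hdf (hcos i) (hcos i') (hQ i) (hQ i') (hA i) (hA i')
      (hdis i i' hne) hx
    -- step 1
    have hint : ((Q i ∩ Q i').card : ℝ) ≤ 2 * Gs k j / k := by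
      have h1 : Q i ∩ Q i' ⊆ (Q i \ B i) ∪ (Q i' \ B i') := by
        intro ρ hρ
        obtain ⟨h2, h3⟩ := mem_inter.1 hρ
        rw [mem_union, mem_sdiff, mem_sdiff]
        by_cases h4 : ρ ∈ B i
        · exact Or.inr ⟨h3, fun h5 => (Finset.disjoint_left.1 (hdis i i' hne)) h4 h5⟩
        · exact Or.inl ⟨h2, h4⟩
      have h2 := Finset.card_le_card h1
      have h3 := Finset.card_union_le (Q i \ B i) (Q i' \ B i')
      have h4 := Finset.card_sdiff_add_card_eq_card (hQ i)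
      have h5 := Finset.card_sdiff_add_card_eq_card (hQ i')
      rw [(hcos i).card_eq] at h4
      rw [(hcos i').card_eq] at h5
      have r1 : ((Q i ∩ Q i').card : ℝ) ≤ (Q i \ B i).card + (Q i' \ B i').card := by
        exact_mod_cast le_trans h2 h3
      have r2 : ((Q i \ B i).card : ℝ) + (B i).card = (k.factorial : ℕ) := by
        exact_mod_cast h4
      have r3 : ((Q i' \ B i').card : ℝ) + (B i').card = (k.factorial : ℕ) := by
        exact_mod_cast h5
      linarith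
    -- step 3
    have h6 := cross_nb (hcos i') (hQ i) (hQ i')
    have r6 : (cross (B i) (B i') : ℝ)
        ≤ ((Q i).filter (fun ρ => ∃ π ∈ Q i', adj ρ π)).card
          + (k.choose 2 : ℕ) * ((Q i ∩ Q i').card : ℝ) := by
      exact_mod_cast h6
    have hC0 : (0 : ℝ) ≤ (k.choose 2 : ℕ) := Nat.cast_nonneg _
    have h7 : ((k.choose 2 : ℕ) : ℝ) * ((Q i ∩ Q i').card : ℝ) ≤ ((k : ℝ) - 1) * Gs k j := by
      refine le_trans (mul_le_mul_of_nonneg_left hint hC0) (le_of_eq ?_)
      rw [N.hC]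
      field_simp
    have h8 : 6 * (((k : ℝ) - 1) * Gs k j) ≤ (k.factorial : ℕ) := by
      have h9 : 6 * ((k : ℝ) - 1) ≤ ((k : ℝ) + 1) ^ 2 * ((k : ℝ) + 3) := by nlinarith
      have h10 := mul_le_mul_of_nonneg_right h9 hg.le
      nlinarith
    have h9 : 9 * (((k - 1).factorial : ℕ) : ℝ) ≤ (k.factorial : ℕ) := by
      rw [hfac]
      exact mul_le_mul_of_nonneg_right hk9 (Nat.cast_nonneg _)
    have hS : 3 * (k - 1).factorial
        < ((Q i).filter (fun ρ => ∃ π ∈ Q i', adj ρ π)).card := by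
      have : (3 : ℝ) * (((k - 1).factorial : ℕ) : ℝ)
          < ((Q i).filter (fun ρ => ∃ π ∈ Q i', adj ρ π)).card := by
        linarith
      exact_mod_cast this
    have hint' : (Q i ∩ Q i').card < (k - 1).factorial := by
      have h10 : 2 * Gs k j / k < (((k - 1).factorial : ℕ) : ℝ) := by
        rw [div_lt_iff₀ hk0, mul_comm (((k - 1).factorial : ℕ) : ℝ), ← hfac]
        have h11 : (0 : ℝ) ≤ ((k : ℝ) + 1) ^ 2 * ((k : ℝ) + 3) * Gs k j := by positivity
        linarith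
      have : ((Q i ∩ Q i').card : ℝ) < (((k - 1).factorial : ℕ) : ℝ) := lt_of_le_of_lt hint h10
      exact_mod_cast this
    have hQne : Q i ≠ Q i' := by
      intro h
      rw [← h, Finset.inter_self, (hcos i).card_eq] at hint'
      have := Nat.factorial_le (show k - 1 ≤ k by omega)
      omega
    obtain ⟨M₁, σ₁, hM₁, hQ₁⟩ := hcos i
    obtain ⟨M₂, σ₂, hM₂, hQ₂⟩ := hcos i'
    rw [hQ₁, hQ₂] at hQne hint' hS ⊢
    exact matched (by omega) hM₁ hM₂ hQne hint' hS
  refine ⟨hcos, ?_, ?_⟩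
  · intro i i' hne
    rw [Finset.disjoint_left]
    intro ρ hρ
    exact (hmat i i' hne ρ hρ).1
  · intro i i' hne ρ hρ
    exact (hmat i i' hne ρ hρ).2

end Pool.H60.NM
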