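import Pool.Agent.H60.NM.Ef
import Pool.Agent.H60.NM.Par

set_option autoImplicit false

/-!
# The values `Ef` in real numbers
-/

open Pool.H60.Transp

namespace Pool.H60.NM

lemma Ef_add_real {k n c r : ℕ} (hkn : k + 1 ≤ n) (hc : c ≤ k) (hr : r ≤ k.factorial) :
    2 * (Ef n (c * k.factorial + r) : ℝ) = c * (c - 1) * (k.factorial : ℕ)
      + c * ((k.factorial : ℕ) * (k.choose 2 : ℕ)) + 2 * (c * r) + 2 * (Ef k r : ℝ) := by
  have h := Ef_add hkn hc hr
  have h' : ((2 * Ef n (c * k.factorial + r) : ℕ) : ℝ)
      = ((c * (c - 1) * k.factorial + c * (k.factorial * k.choose 2)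
      + 2 * (c * r) + 2 * Ef k r : ℕ) : ℝ) := by rw [h]
  have hcc : ((c * (c - 1) : ℕ) : ℝ) = c * ((c : ℝ) - 1) := by
    rcases c with _ | c
    · simp
    · push_cast
      simp
  rw [Nat.cast_add, Nat.cast_add, Nat.cast_add, Nat.cast_mul (c * (c - 1)), hcc] at h'
  push_cast at h'
  linarith

lemma Ef_factorial_real (n : ℕ) :
    2 * (Ef n n.factorial : ℝ) = (n.factorial : ℕ) * (n.choose 2 : ℕ) := by
  have h := Ef_factorial n
  exact_mod_cast h

/-- the reversed order: `Ef (k! - d) = k! C / 2 - d C + Ef d` -/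
theorem Ef_rev : ∀ (k d : ℕ), d ≤ k.factorial →
    2 * (Ef k (k.factorial - d) : ℝ) + 2 * (d * (k.choose 2 : ℕ))
      = (k.factorial : ℕ) * (k.choose 2 : ℕ) + 2 * (Ef k d : ℝ) := by
  intro k
  induction k with
  | zero =>
    intro d hd
    simp [Ef]
  | succ k ih =>
    intro d hd
    have hpos := Nat.factorial_pos k
    rcases hd.lt_or_eq with hlt | heq
    · -- `d = c * k! + r`, `r < k!`, `c ≤ k`
      obtain ⟨c, r, hr, hcr, hc⟩ : ∃ c r, r < k.factorial ∧ d = c * k.factorial + r ∧ c ≤ k := by
        refine ⟨d / k.factorial, d % k.factorial, Nat.mod_lt _ hpos, ?_, ?_⟩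
        · rw [Nat.mul_comm]; exact (Nat.div_add_mod d k.factorial).symm
        · have : d / k.factorial < k + 1 := by
            rw [Nat.div_lt_iff_lt_mul hpos, ← Nat.factorial_succ]
            exact hlt
          omega
      have h1 : (k + 1).factorial - d = (k - c) * k.factorial + (k.factorial - r) := by
        rw [hcr, Nat.factorial_succ]
        have h2 : (k + 1) * k.factorial = c * k.factorial + (k - c) * k.factorial
            + k.factorial := by
          rw [← Nat.add_mul, Nat.add_sub_cancel' hc]
          ring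
        omega
      rw [h1, hcr]
      have h2 := Ef_add_real (n := k + 1) (c := k - c) (r := k.factorial - r) le_rfl
        (Nat.sub_le _ _) (Nat.sub_le _ _)
      have h3 := Ef_add_real (n := k + 1) (c := c) (r := r) le_rfl hc hr.le
      have h4 := ih r hr.le
      rw [Nat.cast_sub hc, Nat.cast_sub hr.le] at h2
      rw [h2, h3, choose_succ_two, factorial_succ_real]
      push_cast
      have h5 := choose_two_real k
      rw [h5] at h4 ⊢
      linarith
    · rw [heq, Nat.sub_self, Ef_zero, Ef_factorial_real]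
      push_cast
      ring

end Pool.H60.NM
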