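import Pool.Agent.H60.TranspLex

set_option autoImplicit false

/-!
# The deficiency and the class sizes of a nearly extremal set

`df k A = |A|^2 / k! + ((k choose 2) - 1) * |A| - D A`.
-/

open Finset Equiv Pool.H60.Transp

namespace Pool.H60.NM

variable {n : ℕ}

/-- the deficiency of `A` with respect to the bound `P k` -/
noncomputable def df (k : ℕ) (A : Finset (Perm (Fin n))) : ℝ :=
  (A.card : ℝ) ^ 2 / (k.factorial : ℕ) + (((k.choose 2 : ℕ) : ℝ) - 1) * A.card - D A

lemma fac_pos (k : ℕ) : (0 : ℝ) < (k.factorial : ℕ) := by exact_mod_cast Nat.factorial_pos k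

lemma mul_df (k : ℕ) (A : Finset (Perm (Fin n))) :
    ((k.factorial : ℕ) : ℝ) * df k A = (A.card : ℝ) ^ 2
      + (k.factorial : ℕ) * (((k.choose 2 : ℕ) : ℝ) - 1) * A.card - (k.factorial : ℕ) * D A := by
  have h := (fac_pos k).ne'
  unfold df
  field_simp

/-- the bound with level `j` -/
lemma D_le_level {j : ℕ} (hj : 1 ≤ j) (A : Finset (Perm (Fin n))) :
    (D A : ℝ) ≤ (A.card : ℝ) ^ 2 / (j.factorial : ℕ) + (((j.choose 2 : ℕ) : ℝ) - 1) * A.card := by
  have h := P_all j hj A
  unfold P at h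
  have hp := fac_pos j
  rw [← sub_nonneg]
  have e : (A.card : ℝ) ^ 2 / (j.factorial : ℕ) + (((j.choose 2 : ℕ) : ℝ) - 1) * A.card - D A
      = ((A.card : ℝ) ^ 2 + (j.factorial : ℕ) * (j.choose 2 : ℕ) * A.card
        - ((j.factorial : ℕ) * D A + (j.factorial : ℕ) * A.card)) / (j.factorial : ℕ) := by
    field_simp
    ring
  rw [e]
  exact div_nonneg (sub_nonneg.2 h) hp.le

lemma df_nonneg {k : ℕ} (hk : 1 ≤ k) (A : Finset (Perm (Fin n))) : 0 ≤ df k A := by
  have := D_le_level hk A
  unfold df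
  linarith

/-- the previous level -/
lemma df_mid {k : ℕ} (hk : 1 ≤ k) (A : Finset (Perm (Fin n))) :
    (k : ℝ) * A.card * (((k + 1).factorial : ℕ) - A.card) / ((k + 1).factorial : ℕ)
      ≤ df (k + 1) A := by
  have h := D_le_level hk A
  have hp := fac_pos (k + 1)
  have hp0 := fac_pos k
  unfold df
  rw [choose_succ_two]
  have e : (k : ℝ) * A.card * (((k + 1).factorial : ℕ) - A.card) / ((k + 1).factorial : ℕ)
      = (k : ℝ) * A.card + (A.card : ℝ) ^ 2 / ((k + 1).factorial : ℕ)
        - (A.card : ℝ) ^ 2 / (k.factorial : ℕ) := by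
    rw [factorial_succ_real]
    have h1 : ((k : ℝ) + 1) ≠ 0 := by positivity
    field_simp
    ring
  rw [e]
  linarith

lemma df_split (k : ℕ) (A : Finset (Perm (Fin n))) (p v : Fin n) :
    df k (A.filter (fun σ => σ p = v)) + df k (A.filter (fun σ => ¬ σ p = v))
      - 2 * ((A.filter (fun σ => ¬ σ p = v)).card : ℝ)
        * (((k.factorial : ℕ) : ℝ) - (A.filter (fun σ => σ p = v)).card) / (k.factorial : ℕ)
      ≤ df k A := by
  have hs := D_split A p v
  have hc := Finset.card_filter_add_card_filter_not (s := A) (fun σ => σ p = v)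
  set B := A.filter (fun σ => σ p = v)
  set C := A.filter (fun σ => ¬ σ p = v)
  have hs' : (D A : ℝ) ≤ D B + D C + 2 * C.card := by exact_mod_cast hs
  have hc' : (A.card : ℝ) = B.card + C.card := by exact_mod_cast hc.symm
  have hp := fac_pos k
  unfold df
  rw [hc']
  have e : 2 * (C.card : ℝ) * (((k.factorial : ℕ) : ℝ) - B.card) / (k.factorial : ℕ)
      = 2 * C.card - 2 * C.card * B.card / (k.factorial : ℕ) := by
    field_simp
  have e2 : ((B.card : ℝ) + C.card) ^ 2 / (k.factorial : ℕ)
      = (B.card : ℝ) ^ 2 / (k.factorial : ℕ) + (C.card : ℝ) ^ 2 / (k.factorial : ℕ)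
        + 2 * C.card * B.card / (k.factorial : ℕ) := by
    field_simp
    ring
  rw [e, e2]
  linarith

/-- complement in a coset of `S_k` -/
lemma df_compl {k : ℕ} (M : Finset (Fin n)) (σ₀ : Perm (Fin n)) (hM : M.card = k)
    {A : Finset (Perm (Fin n))} (hA : A ⊆ coset M σ₀) : df k (coset M σ₀ \ A) = df k A := by
  have h := D_compl M σ₀ hA
  have hc : (coset M σ₀ \ A).card + A.card = k.factorial := by
    rw [Finset.card_sdiff_of_subset hA, card_coset, hM]
    have := Finset.card_le_card hA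
    rw [card_coset, hM] at this
    omega
  rw [hM] at h
  have h' : (D A : ℝ) + (k.choose 2 : ℕ) * (coset M σ₀ \ A).card
      = D (coset M σ₀ \ A) + (k.choose 2 : ℕ) * A.card := by exact_mod_cast h
  have hc' : ((coset M σ₀ \ A).card : ℝ) + A.card = (k.factorial : ℕ) := by exact_mod_cast hc
  have hp := fac_pos k
  unfold df
  rw [← hc']
  have hne : ((coset M σ₀ \ A).card : ℝ) + A.card ≠ 0 := by rw [hc']; exact hp.ne'
  have e : ((coset M σ₀ \ A).card : ℝ) ^ 2 / (((coset M σ₀ \ A).card : ℝ) + A.card)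
      - (A.card : ℝ) ^ 2 / (((coset M σ₀ \ A).card : ℝ) + A.card)
      = (coset M σ₀ \ A).card - A.card := by
    field_simp
    ring
  linarith

/-- Abel summation with an error -/
lemma abel_err (w x : ℕ → ℝ) {δ W : ℝ} (hδ : 0 ≤ δ) (hW : 0 ≤ W) (hw0W : w 0 ≤ W) :
    ∀ n : ℕ, (∀ j, j + 1 < n → w (j + 1) ≤ w j) →
    (∀ j < n, 0 ≤ w j) → (∀ r, 1 ≤ r → r ≤ n → -δ ≤ ∑ j ∈ range r, x j) →
    -(W * δ) ≤ ∑ j ∈ range n, w j * x j := by
  intro n hw hw0 hX
  have key : ∀ r, r + 1 ≤ n →
      w r * (∑ j ∈ range (r + 1), x j + δ) - w 0 * δ ≤ ∑ j ∈ range (r + 1), w j * x j := by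
    intro r
    induction r with
    | zero => intro _; simp; linarith
    | succ r ih =>
      intro hr
      have h1 := ih (by omega)
      rw [Finset.sum_range_succ _ (r + 1), Finset.sum_range_succ _ (r + 1)]
      have h2 := hX (r + 1) (by omega) (by omega)
      have h3 := hw r (by omega)
      nlinarith [mul_le_mul_of_nonneg_right h3 (by linarith : (0 : ℝ) ≤ ∑ j ∈ range (r + 1), x j + δ)]
  rcases Nat.eq_zero_or_pos n with hn | hn
  · subst hn
    simp only [Finset.range_zero, Finset.sum_empty, Left.neg_nonpos_iff]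
    exact mul_nonneg hW hδ
  · obtain ⟨r, rfl⟩ := Nat.exists_eq_add_of_le hn
    rw [Nat.add_comm] at *
    have h1 := key r (le_refl _)
    have h2 := hX (r + 1) (by omega) (le_refl _)
    have h3 := mul_nonneg (hw0 r (by omega)) (by linarith : (0 : ℝ) ≤ ∑ j ∈ range (r + 1), x j + δ)
    have h4 := mul_le_mul_of_nonneg_right hw0W hδ
    linarith

/-- the squares of the class sizes at one position of a nearly extremal set -/
theorem class_sq_err {k : ℕ} (hk : 1 ≤ k) (A : Finset (Perm (Fin n))) (p : Fin n) {W h : ℝ}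
    (hW : 0 ≤ W) (hh : 0 ≤ h)
    (hsmall : ∀ v, (A.filter (fun σ => σ p = v)).card < (k + 1).factorial)
    (hsmall' : ∀ v, ((A.filter (fun σ => σ p = v)).card : ℝ) * (1 + W)
      ≤ W * ((k + 1).factorial : ℕ))
    (hnot : df (k + 1) A ≤ h) :
    ((k : ℝ) + 1) * ∑ v, ((A.filter (fun σ => σ p = v)).card : ℝ) ^ 2
      ≤ (A.card : ℝ) ^ 2 + W * (((k + 1).factorial : ℕ) * h) := by
  set f : Fin n → ℕ := fun v => (A.filter (fun σ => σ p = v)).card with hf
  set s : Perm (Fin n) := Tuple.sort (fun v => OrderDual.toDual (f v)) with hs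
  have hmono : Monotone ((fun v => OrderDual.toDual (f v)) ∘ s) := Tuple.monotone_sort _
  have hanti : ∀ i j : Fin n, i ≤ j → f (s j) ≤ f (s i) := by
    intro i j hij
    exact OrderDual.toDual_le_toDual.1 (hmono hij)
  set ρ : Perm (Fin n) → ℕ := fun σ => (s.symm (σ p)).val with hρ
  set B : ℕ → Finset (Perm (Fin n)) := fun r => A.filter (fun σ => r ≤ ρ σ) with hB
  set C : ℕ → Finset (Perm (Fin n)) := fun r => A.filter (fun σ => ρ σ = r) with hC
  have hρeq : ∀ (σ : Perm (Fin n)) (r : ℕ) (hr : r < n), ρ σ = r ↔ σ p = s ⟨r, hr⟩ := by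
    intro σ r hr
    constructor
    · intro h
      have : s.symm (σ p) = ⟨r, hr⟩ := Fin.ext h
      rw [← this]; simp
    · intro h
      simp only [hρ]
      rw [h]; simp
  have hCf : ∀ (r : ℕ) (hr : r < n), (C r).card = f (s ⟨r, hr⟩) := by
    intro r hr
    simp only [hC, hf]
    congr 1
    ext σ
    rw [mem_filter, mem_filter, hρeq σ r hr]
  have hB1 : ∀ (r : ℕ) (hr : r < n), (B r).filter (fun σ => σ p = s ⟨r, hr⟩) = C r := by
    intro r hr
    ext σ
    simp only [hB, hC, mem_filter]
    rw [← hρeq σ r hr]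
    constructor
    · rintro ⟨⟨h1, h2⟩, h3⟩; exact ⟨h1, h3⟩
    · rintro ⟨h1, h3⟩; exact ⟨⟨h1, h3.ge⟩, h3⟩
  have hB2 : ∀ (r : ℕ) (hr : r < n), (B r).filter (fun σ => ¬ σ p = s ⟨r, hr⟩) = B (r + 1) := by
    intro r hr
    ext σ
    simp only [hB, mem_filter]
    rw [← hρeq σ r hr]
    constructor
    · rintro ⟨⟨h1, h2⟩, h3⟩; exact ⟨h1, by omega⟩
    · rintro ⟨h1, h3⟩; exact ⟨⟨h1, by omega⟩, by omega⟩
  have hstep : ∀ r, r < n → D (B r) ≤ D (C r) + D (B (r + 1)) + 2 * (B (r + 1)).card := by
    intro r hr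
    have := D_split (B r) p (s ⟨r, hr⟩)
    rwa [hB1 r hr, hB2 r hr] at this
  have hcard : ∀ r, r < n → (B r).card = (C r).card + (B (r + 1)).card := by
    intro r hr
    have := Finset.card_filter_add_card_filter_not (s := B r) (fun σ => σ p = s ⟨r, hr⟩)
    rw [hB1 r hr, hB2 r hr] at this
    exact this.symm
  have hB0 : B 0 = A := by
    simp only [hB]
    apply Finset.filter_true_of_mem
    intro σ _
    exact Nat.zero_le _
  have hBn : B n = ∅ := by
    simp only [hB]
    apply Finset.filter_false_of_mem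
    intro σ _
    have := (s.symm (σ p)).isLt
    simp only [hρ]
    omega
  -- real versions
  set K : ℝ := (((k + 1).factorial : ℕ) : ℝ) with hK
  set c : ℝ := ((k.choose 2 : ℕ) : ℝ) with hc
  set m : ℝ := (A.card : ℝ) with hm
  set a : ℕ → ℝ := fun r => (C r).card with ha
  set b : ℕ → ℝ := fun r => (B r).card with hb
  have hKpos : 0 < K := fac_pos _
  have hb0 : b 0 = m := by simp only [hb, hm, hB0]
  have hbn : b n = 0 := by simp only [hb, hBn]; simp
  have hbab : ∀ r, r < n → b r = a r + b (r + 1) := by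
    intro r hr
    simp only [hb, ha]
    exact_mod_cast hcard r hr
  have hPk : ∀ r, K * D (C r) + K * a r ≤ (k + 1) * (a r) ^ 2 + K * c * a r := by
    intro r
    have h := P_all k hk (C r)
    unfold P at h
    have h2 := mul_le_mul_of_nonneg_left h (by positivity : (0 : ℝ) ≤ (k : ℝ) + 1)
    rw [hK, factorial_succ_real]
    simp only [ha, hc]
    linarith
  have hchain : ∀ r, r ≤ n → K * D A ≤ ∑ j ∈ range r,
      ((k + 1) * (a j) ^ 2 + K * (c - 1) * a j + 2 * K * b (j + 1)) + K * D (B r) := by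
    intro r
    induction r with
    | zero => intro _; simp [hB0]
    | succ r ih =>
      intro hr
      have h1 := ih (by omega)
      rw [Finset.sum_range_succ]
      have h2 : (D (B r) : ℝ) ≤ D (C r) + D (B (r + 1)) + 2 * b (r + 1) := by
        simp only [hb]
        exact_mod_cast hstep r (by omega)
      have h3 := mul_le_mul_of_nonneg_left h2 hKpos.le
      have h4 := hPk r
      linarith
  have hsq : ∀ r, r ≤ n → m ^ 2 = (b r) ^ 2 + ∑ j ∈ range r,
      ((a j) ^ 2 + 2 * a j * b (j + 1)) := by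
    intro r
    induction r with
    | zero => intro _; simp [hb0]
    | succ r ih =>
      intro hr
      rw [Finset.sum_range_succ, ih (by omega), hbab r (by omega)]
      ring
  have hsum : ∀ r, r ≤ n → m = b r + ∑ j ∈ range r, a j := by
    intro r
    induction r with
    | zero => intro _; simp [hb0]
    | succ r ih =>
      intro hr
      have h1 := ih (by omega)
      have h2 := hbab r (by omega)
      rw [Finset.sum_range_succ]
      linarith
  have hanti' : ∀ i j, i ≤ j → j < n → a j ≤ a i := by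
    intro i j hij hj
    simp only [ha]
    rw [hCf j hj, hCf i (by omega)]
    exact_mod_cast hanti ⟨i, by omega⟩ ⟨j, hj⟩ hij
  have haK : ∀ j, j < n → a j < K := by
    intro j hj
    simp only [ha, hK]
    rw [hCf j hj]
    exact_mod_cast hsmall (s ⟨j, hj⟩)
  have haW : ∀ j, j < n → a j * (1 + W) ≤ W * K := by
    intro j hj
    simp only [ha, hK]
    rw [hCf j hj]
    exact hsmall' (s ⟨j, hj⟩)
  have ha0 : ∀ j, 0 ≤ a j := by intro j; simp only [ha]; exact Nat.cast_nonneg _
  have hX : ∀ r, 1 ≤ r → r ≤ n →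
      -(K * h) ≤ ∑ j ∈ range r, (K - a j) * (2 * b (j + 1) - k * a j) := by
    intro r h1 h2
    have e1 : ∑ j ∈ range r, (K - a j) * (2 * b (j + 1) - k * a j)
        = ∑ j ∈ range r, ((k + 1) * (a j) ^ 2 + K * (c - 1) * a j + 2 * K * b (j + 1))
          - ∑ j ∈ range r, ((a j) ^ 2 + 2 * a j * b (j + 1))
          - K * (c + k - 1) * ∑ j ∈ range r, a j := by
      rw [Finset.mul_sum, ← Finset.sum_sub_distrib, ← Finset.sum_sub_distrib]
      apply Finset.sum_congr rfl
      intro j _
      ring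
    have h3 := hchain r h2
    have h4 := hsq r h2
    have h5 := hsum r h2
    have h6 := P_all (k + 1) (by omega) (B r)
    unfold P at h6
    rw [choose_succ_two] at h6
    have h7 : K * D (B r) + K * b r ≤ (b r) ^ 2 + K * (c + k) * b r := h6
    have h8 : m ^ 2 + K * (c + k - 1) * m - K * D A ≤ K * h := by
      have h9 := mul_le_mul_of_nonneg_left hnot hKpos.le
      rw [hK, mul_df, choose_succ_two] at h9
      rw [hK]
      linarith
    rw [e1]
    have h9 : ∑ j ∈ range r, a j = m - b r := by linarith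
    have h10 : ∑ j ∈ range r, ((a j) ^ 2 + 2 * a j * b (j + 1)) = m ^ 2 - (b r) ^ 2 := by
      linarith
    rw [h9, h10]
    nlinarith [h3, h7, h8]
  have hw0 : (fun j => if j < n then a j / (K - a j) else 0) 0 ≤ W := by
    by_cases hn : 0 < n
    · have h1 := haK 0 hn
      have h2 := haW 0 hn
      show (if 0 < n then a 0 / (K - a 0) else 0) ≤ W
      rw [if_pos hn, div_le_iff₀ (by linarith)]
      linarith
    · show (if 0 < n then a 0 / (K - a 0) else 0) ≤ W
      rw [if_neg hn]
      exact hW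
  have habel := abel_err (fun j => if j < n then a j / (K - a j) else 0)
    (fun j => (K - a j) * (2 * b (j + 1) - k * a j)) (mul_nonneg hKpos.le hh) hW hw0 n ?_ ?_ hX
  · have e2 : ∑ j ∈ range n, (if j < n then a j / (K - a j) else 0)
        * ((K - a j) * (2 * b (j + 1) - k * a j))
        = ∑ j ∈ range n, ((a j) ^ 2 + 2 * a j * b (j + 1))
          - (k + 1) * ∑ j ∈ range n, (a j) ^ 2 := by
      rw [Finset.mul_sum, ← Finset.sum_sub_distrib]
      apply Finset.sum_congr rfl
      intro j hj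
      have : K - a j ≠ 0 := by
        have := haK j (mem_range.1 hj)
        linarith
      rw [if_pos (mem_range.1 hj)]
      field_simp
      ring
    rw [e2] at habel
    have h4 := hsq n le_rfl
    rw [hbn] at h4
    have e3 : ∑ v, ((f v : ℕ) : ℝ) ^ 2 = ∑ j ∈ range n, (a j) ^ 2 := by
      rw [← Equiv.sum_comp s, ← Fin.sum_univ_eq_sum_range (fun j => (a j) ^ 2) n]
      apply Finset.sum_congr rfl
      intro i _
      simp only [ha]
      rw [hCf i.val i.isLt]
    have e4 : ∑ v, ((A.filter (fun σ => σ p = v)).card : ℝ) ^ 2 = ∑ v, ((f v : ℕ) : ℝ) ^ 2 := rfl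
    rw [e3]
    nlinarith
  · intro j hj
    have h1 := haK j (by omega)
    have h2 := haK (j + 1) hj
    have h3 := hanti' j (j + 1) (by omega) hj
    have h4 := ha0 (j + 1)
    show (if j + 1 < n then a (j + 1) / (K - a (j + 1)) else 0)
      ≤ (if j < n then a j / (K - a j) else 0)
    rw [if_pos hj, if_pos (by omega), div_le_div_iff₀ (by linarith) (by linarith)]
    nlinarith
  · intro j hj
    have h1 := haK j hj
    show 0 ≤ (if j < n then a j / (K - a j) else 0)
    rw [if_pos hj]
    exact div_nonneg (ha0 j) (by linarith)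

end Pool.H60.NM
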