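import Pool.Agent.H60.NM.UU
import Pool.Agent.H60.NM.Rev

set_option autoImplicit false

/-!
# From the level `j` to the level `k`

`Un k j U` is the improvement of the bound of level `k` obtained from an improvement `U` of
level `j`. `Ex j U m` says that the improved bound of level `j` is the value of the lexicographic
initial segment for the size `m`.
-/

open Finset Equiv Pool.H60.Transp

namespace Pool.H60.NM

variable {n k j : ℕ} {U : ℕ → ℝ}

/-- the taper, to leave the range of sizes continuously -/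
noncomputable def tp (k j i : ℕ) : ℝ :=
  max 0 (min 1 ((((k : ℝ) - 1) / 2 * (k.factorial : ℕ) + ((j + 1).factorial : ℕ) + Gs k j - i)
    / Gs k j))

lemma tp_nonneg (k j i : ℕ) : 0 ≤ tp k j i := le_max_left _ _

lemma tp_le_one (k j i : ℕ) : tp k j i ≤ 1 := max_le zero_le_one (min_le_left _ _)

lemma Gs_pos (P : Par k j U) : 0 < Gs k j := by
  have N := P.nums
  linarith [N.hgC, N.hC36]

lemma tp_anti (P : Par k j U) {i i' : ℕ} (h : i ≤ i') : tp k j i' ≤ tp k j i := by
  unfold tp
  apply max_le_max le_rfl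
  apply min_le_min le_rfl
  apply div_le_div_of_nonneg_right _ (Gs_pos P).le
  have : (i : ℝ) ≤ i' := by exact_mod_cast h
  linarith

lemma tp_step (P : Par k j U) (i : ℕ) : tp k j i ≤ tp k j (i + 1) + 1 / Gs k j := by
  have hg := Gs_pos P
  have h1 : (0 : ℝ) < 1 / Gs k j := by positivity
  unfold tp
  push_cast
  set a : ℝ := ((k : ℝ) - 1) / 2 * (k.factorial : ℕ) + ((j + 1).factorial : ℕ) + Gs k j
  have e : (a - i) / Gs k j = (a - ((i : ℝ) + 1)) / Gs k j + 1 / Gs k j := by
    rw [← add_div]
    congr 1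
    ring
  rw [e]
  set b : ℝ := (a - ((i : ℝ) + 1)) / Gs k j
  set t : ℝ := 1 / Gs k j
  have h2 : min 1 b ≤ max 0 (min 1 b) := le_max_right _ _
  have h3 : 0 ≤ max 0 (min 1 b) := le_max_left _ _
  apply max_le
  · linarith
  · rcases le_total 1 b with h4 | h4
    · rw [min_eq_left h4] at h2 ⊢
      exact le_trans (min_le_left _ _) (by linarith)
    · rw [min_eq_right h4] at h2 ⊢
      exact le_trans (min_le_right _ _) (by linarith)

lemma tp_one (P : Par k j U) {c d : ℕ} (hc : 2 * c + 1 ≤ k) (hd : d ≤ (j + 1).factorial) :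
    tp k j (c * k.factorial + d) = 1 := by
  unfold tp
  have hK := fac_pos k
  have hc' : 2 * (c : ℝ) + 1 ≤ k := by exact_mod_cast hc
  have hd' : (d : ℝ) ≤ ((j + 1).factorial : ℕ) := by exact_mod_cast hd
  rw [min_eq_left, max_eq_right zero_le_one]
  rw [le_div_iff₀ (Gs_pos P)]
  push_cast
  nlinarith

/-- the improvement of the bound of level `k` -/
noncomputable def Un (k j : ℕ) (U : ℕ → ℝ) (i : ℕ) : ℝ :=
  tp k j i * FF k j U (i % k.factorial)

lemma FF_mod_nonneg (P : Par k j U) (i : ℕ) : 0 ≤ FF k j U (i % k.factorial) :=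
  FF_nonneg P (Nat.mod_lt _ (Nat.factorial_pos k)).le

theorem comp_Un (P : Par k j U) : Comp k (Un k j U) := by
  have hKn := Nat.factorial_pos k
  have hK := fac_pos k
  refine ⟨?_, ?_, ?_, ?_, ?_, ?_⟩
  · intro i
    exact mul_nonneg (tp_nonneg _ _ _) (FF_mod_nonneg P i)
  · unfold Un
    rw [Nat.zero_mod, FF_zero P, mul_zero]
  · unfold Un
    rw [Nat.factorial_succ, Nat.mul_mod_left, FF_zero P, mul_zero]
  · intro a b
    unfold Un
    have h1 := FF_add P (Nat.mod_lt a hKn) (Nat.mod_lt b hKn)
    rw [← Nat.add_mod] at h1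
    have ha := FF_mod_nonneg P a
    have hb := FF_mod_nonneg P b
    have h2 := tp_anti P (Nat.le_add_right a b)
    have h3 := tp_anti P (Nat.le_add_left b a)
    have h4 := tp_nonneg k j (a + b)
    calc tp k j (a + b) * FF k j U ((a + b) % k.factorial)
        ≤ tp k j (a + b) * (FF k j U (a % k.factorial) + FF k j U (b % k.factorial)) :=
          mul_le_mul_of_nonneg_left h1 h4
      _ = tp k j (a + b) * FF k j U (a % k.factorial)
          + tp k j (a + b) * FF k j U (b % k.factorial) := by ring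
      _ ≤ _ := add_le_add (mul_le_mul_of_nonneg_right h2 ha) (mul_le_mul_of_nonneg_right h3 hb)
  · intro i
    unfold Un
    have h1 := FF_slope P (Nat.mod_lt i hKn)
    rw [Nat.mod_add_mod] at h1
    have h2 := tp_step P i
    have h3 := FF_mod_nonneg P i
    have h4 := FF_mod_nonneg P (i + 1)
    have h5 := tp_nonneg k j (i + 1)
    have h6 := tp_le_one k j (i + 1)
    have h7 := FF_le_Gs P (i % k.factorial)
    have h8 : 1 / Gs k j * FF k j U (i % k.factorial) ≤ 1 := by
      rw [div_mul_eq_mul_div, one_mul, div_le_one (Gs_pos P)]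
      exact h7
    have h9 : tp k j i * FF k j U (i % k.factorial)
        ≤ (tp k j (i + 1) + 1 / Gs k j) * FF k j U (i % k.factorial) :=
      mul_le_mul_of_nonneg_right h2 h3
    have h10 : tp k j (i + 1) * FF k j U (i % k.factorial)
        ≤ tp k j (i + 1) * (FF k j U ((i + 1) % k.factorial) + k) :=
      mul_le_mul_of_nonneg_left h1 h5
    have h11 : tp k j (i + 1) * (k : ℝ) ≤ 1 * k :=
      mul_le_mul_of_nonneg_right h6 (Nat.cast_nonneg k)
    have h12 : (0 : ℝ) ≤ k := Nat.cast_nonneg k
    linarith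
  · intro n A
    unfold Un
    have h0 := df_nonneg (k := k) (by have := P.hk; omega) A
    by_cases h : 2 * (A.card : ℝ) ≤ ((k : ℝ) - 1) * (k.factorial : ℕ)
        + 2 * (((j + 1).factorial : ℕ) + Gs k j)
    · have h1 := above P A h
      have h2 := FF_mod_nonneg P A.card
      have h3 := tp_le_one k j A.card
      have h4 : tp k j A.card * FF k j U (A.card % k.factorial)
          ≤ 1 * FF k j U (A.card % k.factorial) := mul_le_mul_of_nonneg_right h3 h2
      linarith
    · push Not at h
      have h1 : tp k j A.card = 0 := by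
        unfold tp
        apply max_eq_left
        apply le_trans (min_le_right _ _)
        apply div_nonpos_of_nonpos_of_nonneg _ (Gs_pos P).le
        linarith
      rw [h1, zero_mul]
      exact h0

/-- the improved bound of level `j` is the value of the lexicographic segment -/
def Ex (j : ℕ) (U : ℕ → ℝ) (m : ℕ) : Prop :=
  m ≤ (j + 1).factorial ∧ ph j m - U m ≤ 2 * (Ef (j + 1) m : ℝ)

/-- the value at `c * k! + d` -/
lemma ph_sub_G {c d : ℕ} (hjk : j + 1 ≤ k) (hc : c ≤ k) (hd : d ≤ (j + 1).factorial)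
    (hE : ph j d - U d ≤ 2 * (Ef (j + 1) d : ℝ)) :
    ph k (c * k.factorial + d : ℕ) - G k j U d ≤ 2 * (Ef (k + 1) (c * k.factorial + d) : ℝ) := by
  have hK := fac_pos k
  have hdk : d ≤ k.factorial := le_trans hd (Nat.factorial_le hjk)
  have h1 := Ef_add_real (n := k + 1) le_rfl hc hdk
  have h2 : Ef k d = Ef (j + 1) d := Ef_stable hjk hd
  rw [h1, h2]
  have e : ph k (c * k.factorial + d : ℕ) = ph k d + c * (c - 1) * (k.factorial : ℕ)
      + c * ((k.factorial : ℕ) * (k.choose 2 : ℕ)) + 2 * (c * d) := by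
    unfold ph
    push_cast
    field_simp
    ring
  rw [e]
  unfold G
  linarith

/-- the value at `k! - d` -/
lemma ph_sub_G' {d : ℕ} (hjk : j + 1 ≤ k) (hd : d ≤ (j + 1).factorial)
    (hE : ph j d - U d ≤ 2 * (Ef (j + 1) d : ℝ)) :
    ph k (k.factorial - d : ℕ) - G k j U d ≤ 2 * (Ef k (k.factorial - d) : ℝ) := by
  have hK := fac_pos k
  have hdk : d ≤ k.factorial := le_trans hd (Nat.factorial_le hjk)
  have h1 := Ef_rev k d hdk
  have h2 : Ef k d = Ef (j + 1) d := Ef_stable hjk hd
  rw [h2] at h1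
  have e : ph k (k.factorial - d : ℕ) = ph k d + (k.factorial : ℕ) * (k.choose 2 : ℕ)
      - 2 * (d * (k.choose 2 : ℕ)) := by
    rw [Nat.cast_sub hdk]
    unfold ph
    field_simp
    ring
  rw [e]
  unfold G
  linarith

theorem Ex_step (P : Par k j U) {c d : ℕ} (hc : 2 * c + 1 ≤ k) (hE : Ex j U d) :
    Ex k (Un k j U) (c * k.factorial + d) := by
  obtain ⟨hd, hE⟩ := hE
  have hjk := P.hjk
  have hdk : d < k.factorial := by
    refine lt_of_le_of_lt hd (Nat.factorial_lt_of_lt (Nat.succ_pos j) (by omega))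
  refine ⟨?_, ?_⟩
  · rw [Nat.factorial_succ, Nat.add_mul, Nat.one_mul]
    exact Nat.add_le_add (Nat.mul_le_mul_right _ (by omega)) hdk.le
  · have h1 : Un k j U (c * k.factorial + d) = G k j U d := by
      unfold Un
      rw [tp_one P hc hd, one_mul, Nat.mul_add_mod_self_right, Nat.mod_eq_of_lt hdk]
      exact FF_eq_G P hd
    rw [h1]
    exact ph_sub_G (by omega) (by omega) hd hE

/-- sizes `c * k! + d` -/
theorem D_above (P : Par k j U) {c d : ℕ} (hc : 2 * c + 1 ≤ k) (hE : Ex j U d)
    (A : Finset (Perm (Fin n))) (hA : A.card = c * k.factorial + d) :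
    D A ≤ 2 * Ef n A.card := by
  obtain ⟨hd, hE⟩ := hE
  have hjk := P.hjk
  have hdk : d < k.factorial := by
    refine lt_of_le_of_lt hd (Nat.factorial_lt_of_lt (Nat.succ_pos j) (by omega))
  have h1 := above P A (by
    rw [hA]
    have hc' : 2 * (c : ℝ) + 1 ≤ k := by exact_mod_cast hc
    have hd' : (d : ℝ) ≤ ((j + 1).factorial : ℕ) := by exact_mod_cast hd
    have hK := fac_pos k
    have hg := Gs_pos P
    push_cast
    nlinarith)
  rw [hA, Nat.mul_add_mod_self_right, Nat.mod_eq_of_lt hdk, FF_eq_G P hd, df_eq, hA] at h1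
  have h2 := ph_sub_G (k := k) (c := c) (by omega) (by omega) hd hE
  have h3 : Ef n A.card = Ef (k + 1) A.card := by
    have h4 : A.card ≤ n.factorial := by
      have := Finset.card_le_univ A
      rwa [Fintype.card_perm, Fintype.card_fin] at this
    rcases le_total (k + 1) n with h5 | h5
    · apply Ef_stable h5
      rw [hA, Nat.factorial_succ, Nat.add_mul, Nat.one_mul]
      exact Nat.add_le_add (Nat.mul_le_mul_right _ (by omega)) hdk.le
    · exact (Ef_stable h5 h4).symm
  rw [h3, hA]
  have h6 : (D A : ℝ) ≤ 2 * (Ef (k + 1) (c * k.factorial + d) : ℝ) := by linarith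
  exact_mod_cast h6

/-- sizes `k! - d` -/
theorem D_below (P : Par k j U) {d : ℕ} (hE : Ex j U d)
    (A : Finset (Perm (Fin n))) (hA : A.card + d = k.factorial) :
    D A ≤ 2 * Ef n A.card := by
  obtain ⟨hd, hE⟩ := hE
  have hjk := P.hjk
  have N := P.nums
  have hdI : d ≤ Is k j := by
    have h1 : (d : ℝ) ≤ (Is k j : ℕ) := by
      have h2 : (d : ℝ) ≤ ((j + 1).factorial : ℕ) := by exact_mod_cast hd
      have := N.hI; have := N.hgD; have := N.hk; have := N.hD
      nlinarith
    exact_mod_cast h1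
  obtain ⟨h1, -⟩ := below P A d hdI hA
  have e : gg k j U d = G k j U d := by
    unfold gg
    rw [min_eq_left hd]
  have hA' : A.card = k.factorial - d := by omega
  rw [e, df_eq, hA'] at h1
  have h2 := ph_sub_G' (k := k) (by omega) hd hE
  have h3 : Ef n A.card = Ef k A.card := by
    have h4 : A.card ≤ n.factorial := by
      have := Finset.card_le_univ A
      rwa [Fintype.card_perm, Fintype.card_fin] at this
    rcases le_total k n with h5 | h5
    · apply Ef_stable h5
      omega
    · exact (Ef_stable h5 h4).symm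
  rw [h3, hA']
  have h6 : (D A : ℝ) ≤ 2 * (Ef k (k.factorial - d) : ℝ) := by linarith
  exact_mod_cast h6

/-! ### the base levels -/

theorem comp_zero {j : ℕ} (hj : 1 ≤ j) : Comp j (fun _ => 0) := by
  refine ⟨fun _ => le_rfl, rfl, rfl, fun _ _ => by norm_num, fun _ => by positivity, ?_⟩
  intro n A
  exact df_nonneg hj A

/-- the improvement at level 2 by parity -/
noncomputable def Up (i : ℕ) : ℝ := if i % 2 = 1 then 1 / 2 else 0

theorem comp_two : Comp 2 Up := by
  refine ⟨?_, ?_, ?_, ?_, ?_, ?_⟩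
  · intro i
    unfold Up
    split_ifs <;> norm_num
  · unfold Up
    norm_num
  · unfold Up
    have : (2 + 1).factorial % 2 = 0 := by decide
    rw [if_neg (by omega)]
  · intro a b
    unfold Up
    split_ifs <;> first | (exfalso; omega) | norm_num
  · intro i
    unfold Up
    split_ifs <;> norm_num
  · intro n A
    have h0 := df_nonneg (k := 2) (by norm_num) A
    unfold Up
    split_ifs with h
    · have h1 := D_le_level (j := 2) (by norm_num) A
      have e1 : ((2 : ℕ).factorial : ℕ) = 2 := rfl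
      have e2 : ((2 : ℕ).choose 2 : ℕ) = 1 := rfl
      rw [e1, e2] at h1
      push_cast at h1
      have h2 : 2 * (D A : ℝ) ≤ (A.card : ℝ) ^ 2 := by linarith
      have h3 : 2 * D A ≤ A.card ^ 2 := by exact_mod_cast h2
      have h4 : 2 * D A + 1 ≤ A.card ^ 2 := by
        have h5 : A.card ^ 2 % 2 = 1 := by
          rw [Nat.pow_mod, h]
        omega
      have h5 : 2 * (D A : ℝ) + 1 ≤ (A.card : ℝ) ^ 2 := by exact_mod_cast h4
      unfold df
      rw [e1, e2]
      push_cast
      linarith
    · exact h0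

theorem Ex_zero {j c : ℕ} (hc : c ≤ j + 1) : Ex j (fun _ => 0) (c * j.factorial) := by
  refine ⟨?_, ?_⟩
  · rw [Nat.factorial_succ]
    exact Nat.mul_le_mul_right _ hc
  · have hJ := fac_pos j
    rcases hc.lt_or_eq with h | h
    · have h1 := Ef_add_real (k := j) (n := j + 1) (c := c) (r := 0) le_rfl (by omega)
        (Nat.zero_le _)
      have e0 : c * j.factorial + 0 = c * j.factorial := rfl
      rw [e0, Ef_zero] at h1
      rw [h1]
      unfold ph
      push_cast
      have e : ((c : ℝ) * (j.factorial : ℕ)) ^ 2 / (j.factorial : ℕ)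
          = c ^ 2 * (j.factorial : ℕ) := by
        field_simp
      rw [e]
      linarith
    · rw [h, ← Nat.factorial_succ, Ef_factorial_real, ph_cross, choose_succ_two]
      have hJ1 := fac_pos (j + 1)
      unfold ph
      rw [choose_succ_two]
      have e : (((j + 1).factorial : ℕ) : ℝ) ^ 2 / ((j + 1).factorial : ℕ)
          = ((j + 1).factorial : ℕ) := by
        field_simp
      rw [e]
      linarith

theorem Ex_two {d : ℕ} (hd : d ≤ 6) : Ex 2 Up d := by
  refine ⟨?_, ?_⟩
  · have : (2 + 1).factorial = 6 := rfl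
    omega
  · obtain ⟨h0, h1, h2, h3, h4, h5, h6⟩ := Ef_three
    have e1 : ((2 : ℕ).factorial : ℕ) = 2 := rfl
    have e2 : ((2 : ℕ).choose 2 : ℕ) = 1 := rfl
    unfold ph Up
    rw [e1, e2]
    interval_cases d
    · rw [h0]; norm_num
    · rw [h1]; norm_num
    · rw [h2]; norm_num
    · rw [h3]; norm_num
    · rw [h4]; norm_num
    · rw [h5]; norm_num
    · rw [h6]; norm_num

end Pool.H60.NM
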