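import Pool.Agent.H60.NM.StrS

set_option autoImplicit false

/-!
# Structure of sets with small deficiency

Strong induction on the size, in close parallel with `above` in `UU.lean` (the computations can be
copied from there). Put `K = k!`, `g = Gs k j`, `N := P.nums`.
* `|A| ≤ K`: `str_small` and `sys_mono` (`0 ≤ df k A`).
* `|A| > K`: `|N A| ≥ k + 1` (`card_le_factorial`). If all classes have
  `(k + 1) |B| < 2 |A| + K`, `finish` gives `False` as at the end of `above`. Otherwise take such a
  class `B = A.filter (σ p = v)`, `R = A.filter (σ p ≠ v)`, both smaller than `A`.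
  - `|B| ≥ K`: `df k A ≥ df k B + df k R` (the loss term of `df_split` is `≤ 0`); both are `≥ 0`
    so both are `< g`; induction for both, `sys_union`.
  - `|B| < K`, `K - |B| ≤ g`: the loss is at most `k (K - |B|)` (as in `above`); by `below`
    either `2 k (K - |B|) ≤ df k B`, so `df k A ≥ df k B / 2 + df k R`, thus `df k B < 2 g` and
    `df k R < g`: `str_small` for `B` and induction for `R`, `sys_union`, total
    `df k B / k + 2 df k R / k ≤ 2 df k A / k`; or `Hs k j ≤ df k B`, then
    `df k A ≥ Hs k j - k g = g`, a contradiction.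
  - `|B| < K`, `K - |B| > g`: `df k A ≥ K - |B| > g` as in `above` (`df_mid'`), a contradiction.
-/

open Finset Equiv Pool.H60.Transp

namespace Pool.H60.NM

variable {n k j : ℕ} {U : ℕ → ℝ}

theorem str_big (P : Par k j U) : ∀ A : Finset (Perm (Fin n)),
    2 * (A.card : ℝ) ≤ ((k : ℝ) - 1) * (k.factorial : ℕ)
      + 2 * (((j + 1).factorial : ℕ) + Gs k j) →
    df k A < Gs k j → Sys k A (2 * df k A / k) := by
  have N := P.nums
  have hk9 := P.hk
  have hkx := N.hk
  have hK := fac_pos k
  have hKbig := N.hKbig'
  have hHg := N.hHg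
  have hgC := N.hgC
  have hC := N.hC36
  have hI := N.hI
  have hgD := N.hgD
  have hCk := N.hCk
  have hD := N.hD
  have hk0 : (0 : ℝ) < k := by linarith
  intro A
  induction hm : A.card using Nat.strong_induction_on generalizing A with
  | _ m ih =>
  intro h2m hdfg
  subst hm
  have hA0 := df_nonneg (k := k) (by omega) A
  by_cases hlt : A.card ≤ k.factorial
  · refine sys_mono ?_ (str_small P A hlt (by linarith))
    exact div_le_div_of_nonneg_right (by linarith) hk0.le
  push Not at hlt
  have hlt' : ((k.factorial : ℕ) : ℝ) ≤ A.card := by exact_mod_cast hlt.le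
  have hn : k + 1 ≤ (Pool.H60.Transp.N A).card := by
    by_contra h
    have h1 := card_le_factorial A
    have h2 : ((Pool.H60.Transp.N A).card).factorial ≤ k.factorial :=
      Nat.factorial_le (by omega)
    omega
  have hDg : 36 * (((j + 1).factorial : ℕ) : ℝ) ≤ Gs k j := by nlinarith
  have hDK : 2 * ((((j + 1).factorial : ℕ) : ℝ) + Gs k j) ≤ (k.factorial : ℕ) := by linarith
  by_cases hcl : ∀ p ∈ Pool.H60.Transp.N A, ∀ v,
      ((k : ℝ) + 1) * (A.filter (fun σ => σ p = v)).card < 2 * A.card + (k.factorial : ℕ)
  · exfalso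
    refine finish P A hn (s := ((j + 1).factorial : ℕ) + Gs k j) ?_ ?_ ?_ ?_ (by linarith)
    · have h1 : ((((j + 1).factorial : ℕ) : ℝ) + Gs k j) * ((k : ℝ) + 3)
          ≤ (2 * Gs k j) * (2 * (k + 1)) := by
        apply mul_le_mul (by linarith) (by linarith) (by linarith) (by linarith)
      have h2 := N.hH
      linarith
    · intro p hp v
      have h1 := hcl p hp v
      linarith
    · linarith
    · have : (0 : ℝ) ≤ (Is k j : ℕ) := Nat.cast_nonneg _
      linarith
  push Not at hcl
  obtain ⟨p, hp, v, hc⟩ := hcl
  have hs := df_split k A p v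
  have hr := rest_pos hp v
  have hcard := Finset.card_filter_add_card_filter_not (s := A) (fun σ => σ p = v)
  have hR0 := df_nonneg (k := k) (by omega) (A.filter (fun σ => ¬ σ p = v))
  have hB0 := df_nonneg (k := k) (by omega) (A.filter (fun σ => σ p = v))
  have hBm := df_mid' (k := k) (by omega) (A.filter (fun σ => σ p = v))
  have hU : ∀ {δ δ' : ℝ}, Sys k (A.filter (fun σ => σ p = v)) δ →
      Sys k (A.filter (fun σ => ¬ σ p = v)) δ' → Sys k A (δ + δ') :=
    fun h h' => sys_union (fun σ => σ p = v) h h'
  set B := A.filter (fun σ => σ p = v) with hB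
  set R := A.filter (fun σ => ¬ σ p = v) with hR
  have hcard' : (B.card : ℝ) + R.card = A.card := by exact_mod_cast hcard
  have hb0 : (0 : ℝ) ≤ B.card := Nat.cast_nonneg _
  have hr0 : (0 : ℝ) ≤ R.card := Nat.cast_nonneg _
  have hRm : R.card < A.card := by
    by_contra h
    have h1 : B.card = 0 := by omega
    rw [h1] at hc
    push_cast at hc
    linarith
  by_cases haK : k.factorial ≤ B.card
  · have haK' : ((k.factorial : ℕ) : ℝ) ≤ B.card := by exact_mod_cast haK
    have h1 : 2 * (R.card : ℝ) * ((k.factorial : ℕ) - B.card) / (k.factorial : ℕ) ≤ 0 := by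
      apply div_nonpos_of_nonpos_of_nonneg _ hK.le
      exact mul_nonpos_of_nonneg_of_nonpos (by linarith) (by linarith)
    have hBF := ih B.card (by omega) B rfl (by linarith) (by linarith)
    have hRF := ih R.card hRm R rfl (by linarith) (by linarith)
    refine sys_mono ?_ (hU hBF hRF)
    rw [← add_div]
    exact div_le_div_of_nonneg_right (by linarith) hk0.le
  push Not at haK
  have haK' : (B.card : ℝ) < (k.factorial : ℕ) := by exact_mod_cast haK
  by_cases hi : ((k.factorial : ℕ) : ℝ) - B.card ≤ Gs k j
  · -- the class is nearly a coset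
    have hi2 : k.factorial - B.card ≤ Is k j := by
      have h1 : ((k.factorial - B.card : ℕ) : ℝ) ≤ (Is k j : ℕ) := by
        rw [Nat.cast_sub haK.le, hI]
        linarith
      exact_mod_cast h1
    obtain ⟨-, h3⟩ := below P B (k.factorial - B.card) hi2 (by omega)
    rw [Nat.cast_sub haK.le] at h3
    -- the loss of the splitting
    have h4 : 2 * (R.card : ℝ) * ((k.factorial : ℕ) - B.card) / (k.factorial : ℕ)
        ≤ k * ((k.factorial : ℕ) - B.card) := by
      rw [div_le_iff₀ hK]
      have h5 : 2 * (R.card : ℝ) ≤ k * (k.factorial : ℕ) := by linarith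
      have h6 := mul_le_mul_of_nonneg_right h5
        (by linarith : (0 : ℝ) ≤ (k.factorial : ℕ) - B.card)
      linarith
    rcases h3 with h3 | h3
    · have hBF := str_small P B haK.le (by linarith)
      have hRF := ih R.card hRm R rfl (by linarith) (by linarith)
      refine sys_mono ?_ (hU hBF hRF)
      rw [← add_div]
      exact div_le_div_of_nonneg_right (by linarith) hk0.le
    · exfalso
      have h10 : (k : ℝ) * ((k.factorial : ℕ) - B.card) ≤ k * Gs k j :=
        mul_le_mul_of_nonneg_left hi (by linarith)
      have h11 : Hs k j = k * Gs k j + Gs k j := by rw [N.hH]; ring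
      linarith
  · exfalso
    push Not at hi
    have h1 : ((k.factorial : ℕ) : ℝ) - B.card ≤ df k A := by
      set K : ℝ := ((k.factorial : ℕ) : ℝ) with hKdef
      set a : ℝ := (B.card : ℝ) with ha
      set b : ℝ := (R.card : ℝ) with hb
      have h2 : K - a ≤ ((k : ℝ) - 1) * a * (K - a) / K - 2 * b * (K - a) / K := by
        rw [← sub_div, le_div_iff₀ hK]
        have h3 : K ≤ ((k : ℝ) - 1) * a - 2 * b := by linarith
        have h4 := mul_le_mul_of_nonneg_left h3 (by linarith : 0 ≤ K - a)
        linarith
      linarith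
    linarith

end Pool.H60.NM
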