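import Pool.Agent.H60.NM.Sys

set_option autoImplicit false

/-!
# Structure of sets of at most `k!` permutations with small deficiency

Strong induction on the size, in close parallel with `below` in `TT.lean` (the computations can be
copied from there). Put `K = k!`, `g = Gs k j`, `I = Is k j` (`I = 4 g`), `H = Hs k j`
(`H = (k + 1) g`), `N := P.nums`.
* `|A| ≤ I`: `sys_empty`, and `2 k |A| ≤ df k A` (`small_lin`).
* `I < |A|` and `I < K - |A|`: `df_mid'` gives `df k A ≥ (k - 1) I (K - I) / K > 2 g`, a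
  contradiction (compare the last case of `above_lt` in `UU.lean`).
* `|A| + i = K`, `i ≤ I`, `|N A| ≤ k`: as in `below`, `|N A| = k` and `A ⊆ coset (N A) σ₀`, the
  complement `X` in the coset has `i` elements, `df k A = df k X` (`df_compl`) `≥ 2 k i`
  (`small_lin`), so `sys_coset` works.
* `|A| + i = K`, `i ≤ I`, `|N A| ≥ k + 1`: if for some `p ∈ N A` and some `v` the class
  `B = A.filter (σ p = v)` has `(k + 1) |B| ≥ 3 K`, let `R = A.filter (σ p ≠ v)` (`|R| ≥ 1` by
  `rest_pos`). If `i + |R| ≤ I` then `df k A ≥ df k B + 2 k |R| - |R|` (`df_split`, `small_lin`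
  for `R`, and `(K - |B|) / K ≤ I / K ≤ 1 / 2`); induction for `B` (`df k B ≤ df k A`),
  `sys_empty` for `R`, `sys_union`: `df k B / k + |R| ≤ df k A / k`. If `i + |R| > I` then
  `H ≤ df k A` exactly as in `below`, a contradiction to `df k A ≤ 2 g < H`. If all classes are
  small, `finish` gives `False` as in `below`.
-/

open Finset Equiv Pool.H60.Transp

namespace Pool.H60.NM

variable {n k j : ℕ} {U : ℕ → ℝ}

theorem str_small (P : Par k j U) : ∀ A : Finset (Perm (Fin n)), A.card ≤ k.factorial →
    df k A ≤ 2 * Gs k j → Sys k A (df k A / k) := by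
  have N := P.nums
  have hk9 := P.hk
  have hkx := N.hk
  have hK := fac_pos k
  have hKbig := N.hKbig'
  have hHg := N.hHg
  have hgC := N.hgC
  have hC := N.hC36
  have hI := N.hI
  have hk0 : (0 : ℝ) < k := by linarith
  intro A
  induction hm : A.card using Nat.strong_induction_on generalizing A with
  | _ m ih =>
  intro hle hdf
  subst hm
  have hA0 : (0 : ℝ) ≤ A.card := Nat.cast_nonneg _
  by_cases hsm : A.card ≤ Is k j
  · -- small sets
    have h1 := small_lin P A hsm
    refine sys_mono ?_ (sys_empty A)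
    rw [le_div_iff₀ hk0]
    have h2 : 0 ≤ (k : ℝ) * A.card := mul_nonneg hk0.le hA0
    linarith
  push Not at hsm
  have hsm' : ((Is k j : ℕ) : ℝ) < A.card := by exact_mod_cast hsm
  by_cases hiI : k.factorial - A.card ≤ Is k j
  swap
  · -- sizes in the middle
    exfalso
    push Not at hiI
    have h2' : ((Is k j : ℕ) : ℝ) < (k.factorial : ℕ) - A.card := by
      rw [← Nat.cast_sub hle]
      exact_mod_cast hiI
    have h1 := df_mid' (k := k) (by omega) A
    have h1' := le_trans h1 hdf
    rw [div_le_iff₀ hK] at h1'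
    set K : ℝ := ((k.factorial : ℕ) : ℝ)
    set a : ℝ := (A.card : ℝ)
    have hg0 : 0 < Gs k j := by linarith
    have h3 : Gs k j * K ≤ a * (K - a) := by
      have h4 : 0 ≤ (a - (Is k j : ℕ)) * (K - a - (Is k j : ℕ)) :=
        mul_nonneg (by linarith) (by linarith)
      have h5 : ((Is k j : ℕ) : ℝ) * (K - (Is k j : ℕ)) ≤ a * (K - a) := by nlinarith
      have h6 : ((Is k j : ℕ) : ℝ) ≤ K / 2 := by linarith
      have h7 : ((Is k j : ℕ) : ℝ) * (K / 2) ≤ ((Is k j : ℕ) : ℝ) * (K - (Is k j : ℕ)) :=
        mul_le_mul_of_nonneg_left (by linarith) (Nat.cast_nonneg _)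
      rw [hI] at h5 h7
      nlinarith [mul_nonneg hg0.le hK.le]
    have hgK : 0 < Gs k j * K := mul_pos hg0 hK
    have h8 : 8 * (a * (K - a)) ≤ ((k : ℝ) - 1) * (a * (K - a)) :=
      mul_le_mul_of_nonneg_right (by linarith) (by linarith)
    have h9 : ((k : ℝ) - 1) * a * (K - a) = ((k : ℝ) - 1) * (a * (K - a)) := by ring
    rw [h9] at h1'
    have h10 : 2 * Gs k j * K = 2 * (Gs k j * K) := by ring
    rw [h10] at h1'
    linarith
  obtain ⟨i, hmi⟩ : ∃ i, A.card + i = k.factorial := ⟨k.factorial - A.card, by omega⟩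
  have hi : i ≤ Is k j := by omega
  have hi' : (i : ℝ) ≤ (Is k j : ℕ) := by exact_mod_cast hi
  have hi0 : (0 : ℝ) ≤ i := Nat.cast_nonneg _
  have hmi' : (A.card : ℝ) + i = (k.factorial : ℕ) := by exact_mod_cast hmi
  have hApos : 0 < A.card := by omega
  obtain ⟨σ₀, hσ₀⟩ := Finset.card_pos.1 hApos
  by_cases hn : (Pool.H60.Transp.N A).card ≤ k
  · -- a coset of `S_k`
    have hnk : (Pool.H60.Transp.N A).card = k := by
      by_contra hne
      have h1 := card_le_factorial A
      have h2 : ((Pool.H60.Transp.N A).card).factorial ≤ (k - 1).factorial :=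
        Nat.factorial_le (by omega)
      have h3 : k.factorial = k * (k - 1).factorial := by
        obtain ⟨j, rfl⟩ : ∃ j, k = j + 1 := ⟨k - 1, by omega⟩
        rw [Nat.factorial_succ]; simp
      have h4 : k * A.card ≤ k.factorial := by
        rw [h3]
        exact Nat.mul_le_mul_left _ (by omega)
      have h5 : (k : ℝ) * A.card ≤ (k.factorial : ℕ) := by exact_mod_cast h4
      have h6 : 2 * (A.card : ℝ) ≤ k * A.card :=
        mul_le_mul_of_nonneg_right (by linarith) (Nat.cast_nonneg _)
      linarith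
    have hsub := subset_coset hσ₀
    have h1 := df_compl _ σ₀ hnk hsub
    have h2 : (coset (Pool.H60.Transp.N A) σ₀ \ A).card = i := by
      rw [Finset.card_sdiff_of_subset hsub, card_coset, hnk]
      omega
    have h3 := small_lin P (coset (Pool.H60.Transp.N A) σ₀ \ A) (by omega)
    rw [h2, h1] at h3
    refine sys_mono ?_ (sys_coset ⟨Pool.H60.Transp.N A, σ₀, hnk, rfl⟩ hsub)
    rw [le_div_iff₀ hk0]
    have h4 : ((k.factorial : ℕ) : ℝ) - A.card = i := by linarith
    rw [h4]
    have h5 : 0 ≤ (k : ℝ) * i := mul_nonneg hk0.le hi0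
    linarith
  push Not at hn
  by_cases hcl : ∀ p ∈ Pool.H60.Transp.N A, ∀ v,
      ((k : ℝ) + 1) * (A.filter (fun σ => σ p = v)).card < 3 * (k.factorial : ℕ)
  · exfalso
    refine finish P A (by omega) (s := 0) (by linarith) ?_ ?_ ?_ (by linarith)
    · intro p hp v
      have h1 := hcl p hp v
      have h2 : 3 * ((k.factorial : ℕ) : ℝ) ≤ k * (k.factorial : ℕ) :=
        mul_le_mul_of_nonneg_right (by linarith) hK.le
      have h3 := N.hD
      linarith
    · have h1 : (2 : ℝ) * (k.factorial : ℕ) ≤ k * (k.factorial : ℕ) :=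
        mul_le_mul_of_nonneg_right (by linarith) hK.le
      linarith
    · linarith
  push Not at hcl
  obtain ⟨p, hp, v, hc⟩ := hcl
  have hs := df_split k A p v
  have hr := rest_pos hp v
  have hcard := Finset.card_filter_add_card_filter_not (s := A) (fun σ => σ p = v)
  have hR0 := df_nonneg (k := k) (by omega) (A.filter (fun σ => ¬ σ p = v))
  have hB0 := df_mid' (k := k) (by omega) (A.filter (fun σ => σ p = v))
  have hU : ∀ {δ δ' : ℝ}, Sys k (A.filter (fun σ => σ p = v)) δ →
      Sys k (A.filter (fun σ => ¬ σ p = v)) δ' → Sys k A (δ + δ') :=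
    fun h h' => sys_union (fun σ => σ p = v) h h'
  set B := A.filter (fun σ => σ p = v) with hB
  set R := A.filter (fun σ => ¬ σ p = v) with hR
  have hcard' : (B.card : ℝ) + R.card = A.card := by exact_mod_cast hcard
  have hb0 : (0 : ℝ) ≤ B.card := Nat.cast_nonneg _
  have hr0 : (0 : ℝ) ≤ R.card := Nat.cast_nonneg _
  by_cases hi2 : i + R.card ≤ Is k j
  · have hi2' : (i : ℝ) + R.card ≤ (Is k j : ℕ) := by exact_mod_cast hi2
    have h2 := small_lin P R (by omega)
    -- the loss of the splitting is at most `|R|`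
    have h3 : 2 * (R.card : ℝ) * ((k.factorial : ℕ) - B.card) / (k.factorial : ℕ)
        ≤ R.card := by
      rw [div_le_iff₀ hK]
      have h4 : 2 * (((k.factorial : ℕ) : ℝ) - B.card) ≤ (k.factorial : ℕ) := by linarith
      have h5 := mul_le_mul_of_nonneg_left h4 hr0
      linarith
    have h6 : 9 * (R.card : ℝ) ≤ (k : ℝ) * R.card :=
      mul_le_mul_of_nonneg_right hkx hr0
    have hBdf : df k B ≤ 2 * Gs k j := by linarith
    have h1 := ih B.card (by omega) B rfl (by omega) hBdf
    refine sys_mono ?_ (hU h1 (sys_empty R))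
    rw [← sub_nonneg]
    have h7 : df k A / k - (df k B / k + R.card) = (df k A - df k B - k * R.card) / k := by
      field_simp
      ring
    rw [h7]
    apply div_nonneg _ hk0.le
    linarith
  · exfalso
    push Not at hi2
    have hi2' : ((Is k j : ℕ) : ℝ) < i + R.card := by exact_mod_cast hi2
    have hH : Hs k j ≤ df k A := by
      set K : ℝ := ((k.factorial : ℕ) : ℝ) with hKdef
      set a : ℝ := (B.card : ℝ) with ha
      set b : ℝ := (R.card : ℝ) with hb
      have hKa : K - a = i + b := by linarith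
      have hbK : b ≤ K - a := by
        rw [hKa]; linarith
      have haK : 0 ≤ K - a := le_trans hr0 hbK
      -- `df A ≥ (K - a) ((k - 1) a - 2 b) / K`
      have h1 : (K - a) * (((k : ℝ) + 1) * a - 2 * K) / K ≤ df k A := by
        have h2 : (K - a) * (((k : ℝ) + 1) * a - 2 * K) / K
            ≤ ((k : ℝ) - 1) * a * (K - a) / K - 2 * b * (K - a) / K := by
          rw [← sub_div]
          apply div_le_div_of_nonneg_right _ hK.le
          nlinarith
        linarith
      refine le_trans ?_ h1
      rw [le_div_iff₀ hK]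
      have hH0 : 0 ≤ Hs k j := by linarith
      rcases le_total K (2 * a) with h2 | h2
      · have h3 : ((k : ℝ) - 3) / 2 * K ≤ ((k : ℝ) + 1) * a - 2 * K := by nlinarith
        have h4 : ((Is k j : ℕ) : ℝ) ≤ K - a := by linarith
        have h5 : Hs k j ≤ ((Is k j : ℕ) : ℝ) * (((k : ℝ) - 3) / 2) := by
          rw [hI, N.hH]
          nlinarith
        have hk3 : 0 ≤ ((k : ℝ) - 3) / 2 := by linarith
        have hI0 : (0 : ℝ) ≤ (Is k j : ℕ) := Nat.cast_nonneg _
        calc Hs k j * K ≤ ((Is k j : ℕ) : ℝ) * (((k : ℝ) - 3) / 2) * K :=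
              mul_le_mul_of_nonneg_right h5 hK.le
          _ = ((Is k j : ℕ) : ℝ) * (((k : ℝ) - 3) / 2 * K) := by ring
          _ ≤ (K - a) * (((k : ℝ) + 1) * a - 2 * K) :=
              mul_le_mul h4 h3 (mul_nonneg hk3 hK.le) haK
      · have h3 : K ≤ ((k : ℝ) + 1) * a - 2 * K := by linarith
        have h4 : Hs k j ≤ K - a := by linarith
        exact mul_le_mul h4 h3 hK.le haK
    linarith

end Pool.H60.NM
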