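import Pool.Agent.H60.NM.Form

set_option autoImplicit false

/-!
# Systems of cosets
-/

open Finset Equiv Pool.H60.Transp

namespace Pool.H60.NM

variable {n k j : ℕ} {U : ℕ → ℝ}

/-- `A` is close to a union of cosets: disjoint subsets `B i` of `A` and cosets `Q i ⊇ B i` with
`|A \ ⋃ B i| + ∑ |Q i \ B i| ≤ δ` -/
def Sys (k : ℕ) (A : Finset (Perm (Fin n))) (δ : ℝ) : Prop :=
  ∃ (ι : Type) (_ : Fintype ι) (Q B : ι → Finset (Perm (Fin n))),
    (∀ i, IsCos k (Q i)) ∧ (∀ i, B i ⊆ Q i) ∧ (∀ i, B i ⊆ A) ∧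
    (∀ i i', i ≠ i' → Disjoint (B i) (B i')) ∧
    (A.card : ℝ) + Fintype.card ι * (k.factorial : ℕ) - 2 * ∑ i, ((B i).card : ℝ) ≤ δ

lemma sys_mono {A : Finset (Perm (Fin n))} {δ δ' : ℝ} (h : δ ≤ δ') (hS : Sys k A δ) :
    Sys k A δ' := by
  obtain ⟨ι, hι, Q, B, h1, h2, h3, h4, h5⟩ := hS
  exact ⟨ι, hι, Q, B, h1, h2, h3, h4, le_trans h5 h⟩

lemma sys_empty (A : Finset (Perm (Fin n))) : Sys k A A.card := by
  refine ⟨Empty, inferInstance, fun i => i.elim, fun i => i.elim, fun i => i.elim,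
    fun i => i.elim, fun i => i.elim, fun i => i.elim, ?_⟩
  simp

lemma sys_coset {A Q : Finset (Perm (Fin n))} (hQ : IsCos k Q) (hA : A ⊆ Q) :
    Sys k A ((k.factorial : ℕ) - A.card) := by
  refine ⟨Unit, inferInstance, fun _ => Q, fun _ => A, fun _ => hQ, fun _ => hA,
    fun _ => Finset.Subset.refl _, fun i i' h => absurd (Subsingleton.elim i i') h, ?_⟩
  simp
  linarith

lemma sys_union {A : Finset (Perm (Fin n))} (p : Perm (Fin n) → Prop) [DecidablePred p]
    {δ δ' : ℝ} (h : Sys k (A.filter p) δ) (h' : Sys k (A.filter (fun σ => ¬ p σ)) δ') :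
    Sys k A (δ + δ') := by
  classical
  obtain ⟨ι, hι, Q, B, h1, h2, h3, h4, h5⟩ := h
  obtain ⟨ι', hι', Q', B', h1', h2', h3', h4', h5'⟩ := h'
  have hcard := Finset.card_filter_add_card_filter_not (s := A) p
  have hcard' : ((A.filter p).card : ℝ) + (A.filter (fun σ => ¬ p σ)).card = A.card := by
    exact_mod_cast hcard
  have hd : ∀ i i', Disjoint (B i) (B' i') := by
    intro i i'
    rw [Finset.disjoint_left]
    intro σ hσ hσ'
    exact (mem_filter.1 (h3' i' hσ')).2 (mem_filter.1 (h3 i hσ)).2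
  refine ⟨ι ⊕ ι', inferInstance, Sum.elim Q Q', Sum.elim B B', ?_, ?_, ?_, ?_, ?_⟩
  · rintro (i | i)
    · exact h1 i
    · exact h1' i
  · rintro (i | i)
    · exact h2 i
    · exact h2' i
  · rintro (i | i)
    · exact fun σ hσ => (mem_filter.1 (h3 i hσ)).1
    · exact fun σ hσ => (mem_filter.1 (h3' i hσ)).1
  · rintro (i | i) (i' | i') hne
    · exact h4 i i' (fun h => hne (by rw [h]))
    · exact hd i i'
    · exact (hd i' i).symm
    · exact h4' i i' (fun h => hne (by rw [h]))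
  · rw [Fintype.sum_sum_type, Fintype.card_sum]
    simp only [Sum.elim_inl, Sum.elim_inr]
    push_cast
    linarith

end Pool.H60.NM
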