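import Pool.Agent.H60.NM.Small

set_option autoImplicit false

/-!
# Sizes a little below `k!`

A set of `k! - i` permutations, `i ≤ Is`, has deficiency at least that of an extremal set of `i`
permutations (in the form `Bet`). Strong induction on the size: the complement in a coset of
`S_k`, or a large class, or averaging.
-/

open Finset Equiv Pool.H60.Transp

namespace Pool.H60.NM

variable {n k j : ℕ} {U : ℕ → ℝ}

theorem below (P : Par k j U) : ∀ (A : Finset (Perm (Fin n))) (i : ℕ), i ≤ Is k j →
    A.card + i = k.factorial → Bet k j U i (df k A) := by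
  have N := P.nums
  have hk9 := P.hk
  have hkx := N.hk
  have hK := fac_pos k
  have hKbig := N.hKbig'
  have hHg := N.hHg
  have hgC := N.hgC
  have hC := N.hC36
  have hI := N.hI
  intro A
  induction hm : A.card using Nat.strong_induction_on generalizing A with
  | _ m ih =>
  intro i hi hmi
  subst hm
  have hi' : (i : ℝ) ≤ (Is k j : ℕ) := by exact_mod_cast hi
  have hmi' : (A.card : ℝ) + i = (k.factorial : ℕ) := by exact_mod_cast hmi
  have hApos : 0 < A.card := by
    have : (0 : ℝ) < A.card := by linarith
    exact_mod_cast this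
  obtain ⟨σ₀, hσ₀⟩ := Finset.card_pos.1 hApos
  by_cases hn : (Pool.H60.Transp.N A).card ≤ k
  · -- a coset of `S_k`
    have hnk : (Pool.H60.Transp.N A).card = k := by
      by_contra hne
      have h1 := card_le_factorial A
      have h2 : ((Pool.H60.Transp.N A).card).factorial ≤ (k - 1).factorial :=
        Nat.factorial_le (by omega)
      have h3 : k.factorial = k * (k - 1).factorial := by
        obtain ⟨j, rfl⟩ : ∃ j, k = j + 1 := ⟨k - 1, by omega⟩
        rw [Nat.factorial_succ]; simp
      have h4 : k * A.card ≤ k.factorial := by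
        rw [h3]
        exact Nat.mul_le_mul_left _ (by omega)
      have h5 : (k : ℝ) * A.card ≤ (k.factorial : ℕ) := by exact_mod_cast h4
      have h6 : 2 * (A.card : ℝ) ≤ k * A.card :=
        mul_le_mul_of_nonneg_right (by linarith) (Nat.cast_nonneg _)
      linarith
    have hsub := subset_coset hσ₀
    have h1 := df_compl _ σ₀ hnk hsub
    rw [← h1]
    have h2 : (coset (Pool.H60.Transp.N A) σ₀ \ A).card = i := by
      rw [Finset.card_sdiff_of_subset hsub, card_coset, hnk]
      omega
    have h3 := bet_small P (coset (Pool.H60.Transp.N A) σ₀ \ A) (by omega)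
    rw [h2] at h3
    exact h3
  · push Not at hn
    by_contra hbet
    have hdfH : df k A ≤ Hs k j := by
      by_contra h
      exact hbet (bet_of_H P (not_le.1 h).le)
    -- all classes are small
    have hcl : ∀ p ∈ Pool.H60.Transp.N A, ∀ v,
        ((k : ℝ) + 1) * (A.filter (fun σ => σ p = v)).card < 3 * (k.factorial : ℕ) := by
      intro p hp v
      by_contra hc
      push Not at hc
      have hs := df_split k A p v
      have hr := rest_pos hp v
      have hcard := Finset.card_filter_add_card_filter_not (s := A) (fun σ => σ p = v)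
      have hR0 := df_nonneg (k := k) (by omega) (A.filter (fun σ => ¬ σ p = v))
      have hB0 := df_mid' (k := k) (by omega) (A.filter (fun σ => σ p = v))
      set B := A.filter (fun σ => σ p = v) with hB
      set R := A.filter (fun σ => ¬ σ p = v) with hR
      have hcard' : (B.card : ℝ) + R.card = A.card := by exact_mod_cast hcard
      have hb0 : (0 : ℝ) ≤ B.card := Nat.cast_nonneg _
      have hr0 : (0 : ℝ) ≤ R.card := Nat.cast_nonneg _
      by_cases hi2 : i + R.card ≤ Is k j
      · have h1 := ih B.card (by omega) B rfl (i + R.card) hi2 (by omega)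
        have h2 := small_lin P R (by omega)
        apply hbet
        apply bet_mono P (Nat.le_add_right i R.card) _ h1
        have h3 : 2 * (R.card : ℝ) * ((k.factorial : ℕ) - B.card) / (k.factorial : ℕ)
            ≤ 2 * (k : ℝ) * R.card := by
          rw [div_le_iff₀ hK]
          have h4 : ((k.factorial : ℕ) : ℝ) - B.card ≤ (k.factorial : ℕ) := by linarith
          have h5 : (R.card : ℝ) * ((k.factorial : ℕ) - B.card) ≤ R.card * (k.factorial : ℕ) :=
            mul_le_mul_of_nonneg_left h4 hr0
          have h6 : 0 ≤ (R.card : ℝ) * (k.factorial : ℕ) := mul_nonneg hr0 hK.le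
          nlinarith
        linarith
      · push Not at hi2
        have hi2' : ((Is k j : ℕ) : ℝ) < i + R.card := by exact_mod_cast hi2
        apply hbet
        apply bet_of_H P
        set K : ℝ := ((k.factorial : ℕ) : ℝ) with hKdef
        set a : ℝ := (B.card : ℝ) with ha
        set b : ℝ := (R.card : ℝ) with hb
        have hKa : K - a = i + b := by linarith
        have hbK : b ≤ K - a := by
          rw [hKa]; linarith [Nat.cast_nonneg (α := ℝ) i]
        have haK : 0 ≤ K - a := le_trans hr0 hbK
        -- `df A ≥ (K - a) ((k - 1) a - 2 b) / K`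
        have h1 : (K - a) * (((k : ℝ) + 1) * a - 2 * K) / K ≤ df k A := by
          have h2 : (K - a) * (((k : ℝ) + 1) * a - 2 * K) / K
              ≤ ((k : ℝ) - 1) * a * (K - a) / K - 2 * b * (K - a) / K := by
            rw [← sub_div]
            apply div_le_div_of_nonneg_right _ hK.le
            nlinarith
          linarith
        refine le_trans ?_ h1
        rw [le_div_iff₀ hK]
        have hH0 : 0 ≤ Hs k j := by linarith
        rcases le_total K (2 * a) with h2 | h2
        · have h3 : ((k : ℝ) - 3) / 2 * K ≤ ((k : ℝ) + 1) * a - 2 * K := by nlinarith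
          have h4 : ((Is k j : ℕ) : ℝ) ≤ K - a := by linarith
          have h5 : Hs k j ≤ ((Is k j : ℕ) : ℝ) * (((k : ℝ) - 3) / 2) := by
            rw [hI, N.hH]
            nlinarith
          have hk3 : 0 ≤ ((k : ℝ) - 3) / 2 := by linarith
          have hI0 : (0 : ℝ) ≤ (Is k j : ℕ) := Nat.cast_nonneg _
          calc Hs k j * K ≤ ((Is k j : ℕ) : ℝ) * (((k : ℝ) - 3) / 2) * K :=
                mul_le_mul_of_nonneg_right h5 hK.le
            _ = ((Is k j : ℕ) : ℝ) * (((k : ℝ) - 3) / 2 * K) := by ring
            _ ≤ (K - a) * (((k : ℝ) + 1) * a - 2 * K) :=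
                mul_le_mul h4 h3 (mul_nonneg hk3 hK.le) haK
        · have h3 : K ≤ ((k : ℝ) + 1) * a - 2 * K := by linarith
          have h4 : Hs k j ≤ K - a := by linarith
          exact mul_le_mul h4 h3 hK.le haK
    refine finish P A (by omega) (s := 0) (by linarith) ?_ ?_ ?_ hdfH
    · intro p hp v
      have h1 := hcl p hp v
      have h2 : 3 * ((k.factorial : ℕ) : ℝ) ≤ k * (k.factorial : ℕ) :=
        mul_le_mul_of_nonneg_right (by linarith) hK.le
      have h3 := N.hD
      linarith
    · have h1 : (2 : ℝ) * (k.factorial : ℕ) ≤ k * (k.factorial : ℕ) :=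
        mul_le_mul_of_nonneg_right (by linarith) hK.le
      have h2 : (0 : ℝ) ≤ i := Nat.cast_nonneg _
      linarith
    · linarith

end Pool.H60.NM
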