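import Pool.Agent.H60.NM.FF

set_option autoImplicit false

/-!
# Sizes a little above a multiple of `k!`
-/

open Finset Equiv Pool.H60.Transp

namespace Pool.H60.NM

variable {n k j : ℕ} {U : ℕ → ℝ}

/-- sizes below `k!` -/
lemma above_lt (P : Par k j U) (A : Finset (Perm (Fin n))) (hA : A.card < k.factorial) :
    FF k j U A.card ≤ df k A := by
  have N := P.nums
  have hk9 := P.hk
  have hkx := N.hk
  have hK := fac_pos k
  have hKbig := N.hKbig'
  have hHg := N.hHg
  have hgC := N.hgC
  have hC := N.hC36
  have hI := N.hI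
  have hA' : (A.card : ℝ) < (k.factorial : ℕ) := by exact_mod_cast hA
  by_cases h1 : A.card ≤ Is k j
  · exact le_trans (FF_le_gg _) (small_gg P A h1)
  push Not at h1
  have h1' : ((Is k j : ℕ) : ℝ) < A.card := by exact_mod_cast h1
  by_cases h2 : k.factorial - A.card ≤ Is k j
  · obtain ⟨-, h3⟩ := below P A (k.factorial - A.card) h2 (by omega)
    rcases h3 with h3 | h3
    · refine le_trans (FF_le_om _) (le_trans ?_ h3)
      rw [Nat.cast_sub hA.le]
      apply mul_le_mul_of_nonneg_right _ (by linarith)
      linarith
    · exact le_trans (FF_le_Gs P _) (by linarith)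
  push Not at h2
  have h2' : ((Is k j : ℕ) : ℝ) < (k.factorial : ℕ) - A.card := by
    rw [← Nat.cast_sub hA.le]
    exact_mod_cast h2
  refine le_trans (FF_le_Gs P _) (le_trans ?_ (df_mid' (by omega) A))
  rw [le_div_iff₀ hK]
  set K : ℝ := ((k.factorial : ℕ) : ℝ)
  set a : ℝ := (A.card : ℝ)
  have h3 : Gs k j * K ≤ a * (K - a) := by
    have hg0 : 0 ≤ Gs k j := by linarith
    have h4 : 0 ≤ (a - (Is k j : ℕ)) * (K - a - (Is k j : ℕ)) :=
      mul_nonneg (by linarith) (by linarith)
    have h5 : ((Is k j : ℕ) : ℝ) * (K - (Is k j : ℕ)) ≤ a * (K - a) := by nlinarith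
    have h6 : ((Is k j : ℕ) : ℝ) ≤ K / 2 := by linarith
    have h7 : ((Is k j : ℕ) : ℝ) * (K / 2) ≤ ((Is k j : ℕ) : ℝ) * (K - (Is k j : ℕ)) :=
      mul_le_mul_of_nonneg_left (by linarith) (Nat.cast_nonneg _)
    rw [hI] at h5 h7
    nlinarith [mul_nonneg hg0 hK.le]
  have h8 : 0 ≤ a * (K - a) := by
    have : 0 ≤ Gs k j * K := mul_nonneg (by linarith) hK.le
    linarith
  nlinarith

theorem above (P : Par k j U) : ∀ A : Finset (Perm (Fin n)),
    2 * (A.card : ℝ) ≤ ((k : ℝ) - 1) * (k.factorial : ℕ)
      + 2 * (((j + 1).factorial : ℕ) + Gs k j) →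
    FF k j U (A.card % k.factorial) ≤ df k A := by
  have N := P.nums
  have hk9 := P.hk
  have hkx := N.hk
  have hK := fac_pos k
  have hKnat := Nat.factorial_pos k
  have hKbig := N.hKbig'
  have hHg := N.hHg
  have hgC := N.hgC
  have hC := N.hC36
  have hI := N.hI
  have hgD := N.hgD
  have hCk := N.hCk
  have hD := N.hD
  intro A
  induction hm : A.card using Nat.strong_induction_on generalizing A with
  | _ m ih =>
  intro h2m
  subst hm
  by_cases hlt : A.card < k.factorial
  · rw [Nat.mod_eq_of_lt hlt]
    exact above_lt P A hlt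
  push Not at hlt
  have hlt' : ((k.factorial : ℕ) : ℝ) ≤ A.card := by exact_mod_cast hlt
  by_cases hmod : A.card % k.factorial = 0
  · rw [hmod, FF_zero P]
    exact df_nonneg (by omega) A
  have hgt : k.factorial < A.card := by
    rcases hlt.lt_or_eq with h | h
    · exact h
    · exfalso
      apply hmod
      rw [← h]
      exact Nat.mod_self _
  have hn : k + 1 ≤ (Pool.H60.Transp.N A).card := by
    by_contra h
    have h1 := card_le_factorial A
    have h2 : ((Pool.H60.Transp.N A).card).factorial ≤ k.factorial :=
      Nat.factorial_le (by omega)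
    omega
  by_contra hbad
  push Not at hbad
  have hdfg : df k A < Gs k j := lt_of_lt_of_le hbad (FF_le_Gs P _)
  have hDg : 36 * (((j + 1).factorial : ℕ) : ℝ) ≤ Gs k j := by nlinarith
  have hDK : 2 * ((((j + 1).factorial : ℕ) : ℝ) + Gs k j) ≤ (k.factorial : ℕ) := by linarith
  have hcl : ∀ p ∈ Pool.H60.Transp.N A, ∀ v,
      ((k : ℝ) + 1) * (A.filter (fun σ => σ p = v)).card < 2 * A.card + (k.factorial : ℕ) := by
    intro p hp v
    by_contra hc
    push Not at hc
    have hs := df_split k A p v
    have hr := rest_pos hp v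
    have hcard := Finset.card_filter_add_card_filter_not (s := A) (fun σ => σ p = v)
    have hR0 := df_nonneg (k := k) (by omega) (A.filter (fun σ => ¬ σ p = v))
    have hBm := df_mid' (k := k) (by omega) (A.filter (fun σ => σ p = v))
    set B := A.filter (fun σ => σ p = v) with hB
    set R := A.filter (fun σ => ¬ σ p = v) with hR
    have hcard' : (B.card : ℝ) + R.card = A.card := by exact_mod_cast hcard
    have hb0 : (0 : ℝ) ≤ B.card := Nat.cast_nonneg _
    have hr0 : (0 : ℝ) ≤ R.card := Nat.cast_nonneg _
    have hRm : R.card < A.card := by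
      by_contra h
      have h1 : B.card = 0 := by omega
      rw [h1] at hc
      push_cast at hc
      linarith
    have hRF := ih R.card hRm R rfl (by linarith)
    by_cases haK : k.factorial ≤ B.card
    · have hBF := ih B.card (by omega) B rfl (by linarith)
      have haK' : ((k.factorial : ℕ) : ℝ) ≤ B.card := by exact_mod_cast haK
      have h1 : 2 * (R.card : ℝ) * ((k.factorial : ℕ) - B.card) / (k.factorial : ℕ) ≤ 0 := by
        apply div_nonpos_of_nonpos_of_nonneg _ hK.le
        exact mul_nonpos_of_nonneg_of_nonpos (by linarith) (by linarith)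
      have h2 := FF_add P (Nat.mod_lt B.card hKnat) (Nat.mod_lt R.card hKnat)
      rw [← Nat.add_mod, hcard] at h2
      linarith
    · push Not at haK
      have haK' : (B.card : ℝ) < (k.factorial : ℕ) := by exact_mod_cast haK
      by_cases hi : ((k.factorial : ℕ) : ℝ) - B.card ≤ Gs k j
      · -- the class is nearly a coset
        have hi2 : k.factorial - B.card ≤ Is k j := by
          have h1 : ((k.factorial - B.card : ℕ) : ℝ) ≤ (Is k j : ℕ) := by
            rw [Nat.cast_sub haK.le, hI]
            linarith
          exact_mod_cast h1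
        obtain ⟨-, h3⟩ := below P B (k.factorial - B.card) hi2 (by omega)
        rw [Nat.cast_sub haK.le] at h3
        -- the loss of the splitting
        have h4 : 2 * (R.card : ℝ) * ((k.factorial : ℕ) - B.card) / (k.factorial : ℕ)
            ≤ k * ((k.factorial : ℕ) - B.card) := by
          rw [div_le_iff₀ hK]
          have h5 : 2 * (R.card : ℝ) ≤ k * (k.factorial : ℕ) := by linarith
          have h6 := mul_le_mul_of_nonneg_right h5
            (by linarith : (0 : ℝ) ≤ (k.factorial : ℕ) - B.card)
          linarith
        have h7 := FF_add P haK (Nat.mod_lt R.card hKnat)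
        have h8 : (B.card + R.card % k.factorial) % k.factorial = A.card % k.factorial := by
          rw [Nat.add_mod_mod, hcard]
        rw [h8] at h7
        have h9 := FF_le_om (k := k) (j := j) (U := U) B.card
        rcases h3 with h3 | h3
        · linarith
        · have h10 : (k : ℝ) * ((k.factorial : ℕ) - B.card) ≤ k * Gs k j :=
            mul_le_mul_of_nonneg_left hi (by linarith)
          have h11 : Hs k j = k * Gs k j + Gs k j := by rw [N.hH]; ring
          have h12 := FF_nonneg P (Nat.mod_lt R.card hKnat).le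
          linarith
      · push Not at hi
        have h1 : ((k.factorial : ℕ) : ℝ) - B.card ≤ df k A := by
          set K : ℝ := ((k.factorial : ℕ) : ℝ) with hKdef
          set a : ℝ := (B.card : ℝ) with ha
          set b : ℝ := (R.card : ℝ) with hb
          have h2 : K - a ≤ ((k : ℝ) - 1) * a * (K - a) / K - 2 * b * (K - a) / K := by
            rw [← sub_div, le_div_iff₀ hK]
            have h3 : K ≤ ((k : ℝ) - 1) * a - 2 * b := by linarith
            have h4 := mul_le_mul_of_nonneg_left h3 (by linarith : 0 ≤ K - a)
            linarith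
          linarith
        linarith
  refine finish P A hn (s := ((j + 1).factorial : ℕ) + Gs k j) ?_ ?_ ?_ ?_ (by linarith)
  · have h1 : ((((j + 1).factorial : ℕ) : ℝ) + Gs k j) * ((k : ℝ) + 3)
        ≤ (2 * Gs k j) * (2 * (k + 1)) := by
      apply mul_le_mul (by linarith) (by linarith) (by linarith) (by linarith)
    have h2 := N.hH
    linarith
  · intro p hp v
    have h1 := hcl p hp v
    linarith
  · linarith
  · have : (0 : ℝ) ≤ (Is k j : ℕ) := Nat.cast_nonneg _
    linarith

end Pool.H60.NM
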